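/-
SIMP-1.  Independent sets in triangle-free graphs (Ajtai-Komlos-Szemeredi / Shearer bound, proof of
Alon).  MP_1da58b_co, owner helper61.

PROOF.  Let `𝓘` be the family of independent subsets `W ⊆ X`.  For `v ∈ X` and `W ∈ 𝓘` let
`X_v(W) = 2^s [v ∈ W] + |N(v) ∩ W|`, `N(v) = X.filter (R v)`.
(1) `∑_{v ∈ X} X_v(W) ≤ 2 * 2^s * |W|`   (each `w ∈ W` is counted `deg w ≤ 2^s` times).
(2) for every `v`: `8 * ∑_{W ∈ 𝓘} X_v(W) ≥ s * |𝓘|`.  Group the `W ∈ 𝓘` according to
`W' = W \ ({v} ∪ N(v))`.  For a fixed `W'` let `Y = {y ∈ N(v) | no w ∈ W' with R y w}`, `x = |Y|`.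
The `W` with this `W'` are exactly `W' ∪ {v}` and `W' ∪ Z`, `Z ⊆ Y` (`Y` is independent because the
graph is triangle-free; `v` has no neighbour in `W'`).  These are `2^x + 1` sets (the number), and
`∑ X_v = 2^s + x * 2^(x-1)`.  Claim: `8 * (2^s + x 2^(x-1)) ≥ s * (2^x + 1)`:
if `s ≤ 2 x` : `8 x 2^(x-1) = 4 x 2^x ≥ 2 s 2^x ≥ s (2^x + 1)`; if `2 x < s` :
`8 * 2^s ≥ s * (2^x+1)` since `2^x + 1 ≤ 2 * 2^x`, `2^(s-x) ≥ 2^(s/2)` and `4 * 2^(s/2) ≥ s`.
(3) sum (2) over `v` and use (1): `s |X| |𝓘| ≤ 8 ∑_W 2 * 2^s |W|`, so some `W` has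
`s |X| ≤ 16 * 2^s * |W|`.
-/
import Mathlib

set_option autoImplicit false

namespace Pool.Agent.H61.Simp

/-- Twice the sum of the sizes of all subsets of `Y` is `|Y| * 2 ^ |Y|`. -/
theorem alon_sum_powerset {α : Type*} [DecidableEq α] (Y : Finset α) :
    2 * ∑ Z ∈ Y.powerset, Z.card = Y.card * 2 ^ Y.card := by
  induction Y using Finset.induction_on with
  | empty => simp
  | insert a Y ha ih =>
    rw [Finset.sum_powerset_insert ha, Finset.card_insert_of_notMem ha]
    have h : ∑ Z ∈ Y.powerset, (insert a Z).card = ∑ Z ∈ Y.powerset, Z.card + 2 ^ Y.card := by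
      rw [← Finset.card_powerset Y, Finset.card_eq_sum_ones, ← Finset.sum_add_distrib]
      refine Finset.sum_congr rfl (fun Z hZ => ?_)
      have : a ∉ Z := fun h => ha (Finset.mem_powerset.1 hZ h)
      rw [Finset.card_insert_of_notMem this]
    rw [h, pow_succ]
    nlinarith [ih]

/-- The numerical inequality. -/
theorem alon_num (s x : ℕ) : s * (2 ^ x + 1) ≤ 8 * 2 ^ s + 4 * (x * 2 ^ x) := by
  have h1 : 1 ≤ 2 ^ x := Nat.one_le_two_pow
  rcases Nat.lt_or_ge (2 * x) s with h | h
  · have h2 : x ≤ s := by omega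
    have h3 : 2 ^ s = 2 ^ (s - x) * 2 ^ x := by
      rw [← pow_add, Nat.sub_add_cancel h2]
    have h4 : s - x < 2 ^ (s - x) := Nat.lt_two_pow_self
    have h5 : s ≤ 2 * 2 ^ (s - x) := by omega
    have h6 : s * (2 ^ x + 1) ≤ (2 * 2 ^ (s - x)) * (2 * 2 ^ x) :=
      Nat.mul_le_mul h5 (by omega)
    rw [h3]
    nlinarith [h6]
  · have h6 : s * (2 ^ x + 1) ≤ (2 * x) * (2 * 2 ^ x) :=
      Nat.mul_le_mul h (by omega)
    have h7 : (2 * x) * (2 * 2 ^ x) = 4 * (x * 2 ^ x) := by ring
    omega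

/-- One fibre. -/
theorem alon_fibre {α : Type*} [DecidableEq α] (X : Finset α) (R : α → α → Prop) [DecidableRel R]
    (hsym : ∀ x y, R x y → R y x) (hirr : ∀ x, ¬ R x x) (s : ℕ)
    (htri : ∀ x ∈ X, ∀ y ∈ X, ∀ z ∈ X, R x y → R y z → R x z → False)
    (v : α) (hv : v ∈ X) (W' : Finset α) (hW'X : W' ⊆ X)
    (hW'I : ∀ x ∈ W', ∀ y ∈ W', ¬ R x y)
    (hdis : ∀ x ∈ W', x ≠ v ∧ ¬ R v x) :
    s * ((X.powerset.filter (fun W => ∀ x ∈ W, ∀ y ∈ W, ¬ R x y)).filter
      (fun W => W \ insert v (X.filter (fun y => R v y)) = W')).card ≤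
    8 * ∑ W ∈ (X.powerset.filter (fun W => ∀ x ∈ W, ∀ y ∈ W, ¬ R x y)).filter
      (fun W => W \ insert v (X.filter (fun y => R v y)) = W'),
        (2 ^ s * (if v ∈ W then 1 else 0) + (W.filter (fun w => R v w)).card) := by
  set Y : Finset α := (X.filter (fun y => R v y)).filter (fun y => ∀ w ∈ W', ¬ R y w) with hY
  have hYmem : ∀ y, y ∈ Y ↔ (y ∈ X ∧ R v y) ∧ ∀ w ∈ W', ¬ R y w := by
    intro y; simp [hY]
  have hvY : v ∉ Y := fun h => hirr v ((hYmem v).1 h).1.2
  have hvW' : v ∉ W' := fun h => (hdis v h).1 rfl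
  have hfib : (X.powerset.filter (fun W => ∀ x ∈ W, ∀ y ∈ W, ¬ R x y)).filter
      (fun W => W \ insert v (X.filter (fun y => R v y)) = W') =
      insert (insert v W') (Y.powerset.image (fun Z => W' ∪ Z)) := by
    ext W
    simp only [Finset.mem_filter, Finset.mem_powerset, Finset.mem_insert, Finset.mem_image]
    constructor
    · rintro ⟨⟨hWX, hWI⟩, hWW⟩
      have hmem : ∀ w, w ∈ W' ↔ w ∈ W ∧ w ≠ v ∧ ¬ R v w := by
        intro w
        rw [← hWW]
        simp only [Finset.mem_sdiff, Finset.mem_insert, Finset.mem_filter, not_or, not_and]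
        constructor
        · rintro ⟨h1, h2, h3⟩
          exact ⟨h1, h2, h3 (hWX h1)⟩
        · rintro ⟨h1, h2, h3⟩
          exact ⟨h1, h2, fun _ => h3⟩
      by_cases hvW : v ∈ W
      · left
        ext w
        rw [Finset.mem_insert, hmem]
        constructor
        · intro hw
          by_cases hwv : w = v
          · exact Or.inl hwv
          · exact Or.inr ⟨hw, hwv, hWI v hvW w hw⟩
        · rintro (h | h)
          · rw [h]; exact hvW
          · exact h.1
      · right
        refine ⟨W.filter (fun w => R v w), ?_, ?_⟩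
        · intro y hy
          rw [Finset.mem_filter] at hy
          rw [hYmem]
          exact ⟨⟨hWX hy.1, hy.2⟩, fun w hw => hWI y hy.1 w ((hmem w).1 hw).1⟩
        · ext w
          rw [Finset.mem_union, hmem, Finset.mem_filter]
          constructor
          · rintro (h | h)
            · exact h.1
            · exact h.1
          · intro hw
            by_cases hR : R v w
            · exact Or.inr ⟨hw, hR⟩
            · exact Or.inl ⟨hw, fun h => hvW (h ▸ hw), hR⟩
    · rintro (hW | ⟨Z, hZ, hW⟩)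
      · subst hW
        refine ⟨⟨Finset.insert_subset hv hW'X, ?_⟩, ?_⟩
        · intro x hx y hy
          rw [Finset.mem_insert] at hx hy
          rcases hx with rfl | hx
          · rcases hy with rfl | hy
            · exact hirr _
            · exact (hdis y hy).2
          · rcases hy with rfl | hy
            · exact fun h => (hdis x hx).2 (hsym _ _ h)
            · exact hW'I x hx y hy
        · ext w
          simp only [Finset.mem_sdiff, Finset.mem_insert, Finset.mem_filter, not_or, not_and]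
          constructor
          · rintro ⟨h1 | h1, h2, _⟩
            · exact absurd h1 h2
            · exact h1
          · intro hw
            exact ⟨Or.inr hw, (hdis w hw).1, fun _ => (hdis w hw).2⟩
      · subst hW
        refine ⟨⟨Finset.union_subset hW'X (fun y hy => ((hYmem y).1 (hZ hy)).1.1), ?_⟩, ?_⟩
        · intro x hx y hy
          rw [Finset.mem_union] at hx hy
          rcases hx with hx | hx
          · rcases hy with hy | hy
            · exact hW'I x hx y hy
            · exact fun h => ((hYmem y).1 (hZ hy)).2 x hx (hsym _ _ h)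
          · rcases hy with hy | hy
            · exact ((hYmem x).1 (hZ hx)).2 y hy
            · intro h
              have h1 := ((hYmem x).1 (hZ hx)).1
              have h2 := ((hYmem y).1 (hZ hy)).1
              exact htri v hv x h1.1 y h2.1 h1.2 h h2.2
        · ext w
          simp only [Finset.mem_sdiff, Finset.mem_insert, Finset.mem_filter, Finset.mem_union,
            not_or, not_and]
          constructor
          · rintro ⟨h1 | h1, h2, h3⟩
            · exact h1
            · have h4 := ((hYmem w).1 (hZ h1)).1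
              exact absurd h4.2 (h3 h4.1)
          · intro hw
            exact ⟨Or.inl hw, (hdis w hw).1, fun _ => (hdis w hw).2⟩
  have hnot : insert v W' ∉ Y.powerset.image (fun Z => W' ∪ Z) := by
    intro h
    rw [Finset.mem_image] at h
    obtain ⟨Z, hZ, hE⟩ := h
    have h1 : v ∈ W' ∪ Z := by
      have : v ∈ insert v W' := Finset.mem_insert_self _ _
      rw [← hE] at this
      exact this
    rw [Finset.mem_union] at h1
    rcases h1 with h1 | h1
    · exact hvW' h1
    · exact hvY (Finset.mem_powerset.1 hZ h1)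
  have hWR : ∀ w ∈ W', ¬ R v w := fun w hw => (hdis w hw).2
  have hZfil : ∀ Z ∈ Y.powerset, (W' ∪ Z).filter (fun w => R v w) = Z := by
    intro Z hZ
    rw [Finset.mem_powerset] at hZ
    ext w
    rw [Finset.mem_filter, Finset.mem_union]
    constructor
    · rintro ⟨h1 | h1, h2⟩
      · exact absurd h2 (hWR w h1)
      · exact h1
    · intro h
      exact ⟨Or.inr h, ((hYmem w).1 (hZ h)).1.2⟩
  have hinj : Set.InjOn (fun Z => W' ∪ Z) (Y.powerset : Set (Finset α)) := by
    intro Z hZ Z' hZ' hE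
    rw [Finset.mem_coe] at hZ hZ'
    rw [← hZfil Z hZ, ← hZfil Z' hZ']
    exact congrArg (fun T => T.filter (fun w => R v w)) hE
  rw [hfib, Finset.card_insert_of_notMem hnot, Finset.card_image_of_injOn hinj,
    Finset.card_powerset, Finset.sum_insert hnot, Finset.sum_image hinj]
  have hs1 : 2 ^ s ≤ 2 ^ s * (if v ∈ insert v W' then 1 else 0) +
      ((insert v W').filter (fun w => R v w)).card := by
    rw [if_pos (Finset.mem_insert_self _ _)]
    omega
  have hs2 : ∑ Z ∈ Y.powerset, Z.card ≤ ∑ Z ∈ Y.powerset, (2 ^ s * (if v ∈ W' ∪ Z then 1 else 0) +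
      ((W' ∪ Z).filter (fun w => R v w)).card) := by
    refine Finset.sum_le_sum (fun Z hZ => ?_)
    rw [hZfil Z hZ]
    omega
  have hs3 := alon_sum_powerset Y
  have hs4 := alon_num s Y.card
  omega

theorem alon {α : Type*} [DecidableEq α] (X : Finset α) (R : α → α → Prop) [DecidableRel R]
    (hsym : ∀ x y, R x y → R y x) (hirr : ∀ x, ¬ R x x) (s : ℕ)
    (hdeg : ∀ x ∈ X, (X.filter (fun y => R x y)).card ≤ 2 ^ s)
    (htri : ∀ x ∈ X, ∀ y ∈ X, ∀ z ∈ X, R x y → R y z → R x z → False) :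
    ∃ I ⊆ X, (∀ x ∈ I, ∀ y ∈ I, ¬ R x y) ∧ s * X.card ≤ 16 * 2 ^ s * I.card := by
  set F : Finset (Finset α) := X.powerset.filter (fun W => ∀ x ∈ W, ∀ y ∈ W, ¬ R x y) with hF
  have hFmem : ∀ W, W ∈ F ↔ W ⊆ X ∧ ∀ x ∈ W, ∀ y ∈ W, ¬ R x y := by
    intro W; simp [hF]
  have hne : F.Nonempty := ⟨∅, by rw [hFmem]; simp⟩
  -- (1)
  have h1 : ∀ W ∈ F, ∑ v ∈ X, (2 ^ s * (if v ∈ W then 1 else 0) +
      (W.filter (fun w => R v w)).card) ≤ 2 * 2 ^ s * W.card := by
    intro W hW
    obtain ⟨hWX, hWI⟩ := (hFmem W).1 hW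
    rw [Finset.sum_add_distrib, ← Finset.mul_sum]
    have ha : ∑ v ∈ X, (if v ∈ W then 1 else 0) = W.card := by
      rw [← Finset.sum_filter, ← Finset.card_eq_sum_ones, Finset.filter_mem_eq_inter,
        Finset.inter_eq_right.2 hWX]
    have hb : ∑ v ∈ X, (W.filter (fun w => R v w)).card =
        ∑ w ∈ W, (X.filter (fun v => R v w)).card := by
      exact Finset.sum_card_bipartiteAbove_eq_sum_card_bipartiteBelow (fun v w => R v w)
    have hc : ∑ w ∈ W, (X.filter (fun v => R v w)).card ≤ ∑ _w ∈ W, 2 ^ s := by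
      refine Finset.sum_le_sum (fun w hw => ?_)
      have : X.filter (fun v => R v w) = X.filter (fun v => R w v) :=
        Finset.filter_congr (fun v _ => ⟨hsym _ _, hsym _ _⟩)
      rw [this]
      exact hdeg w (hWX hw)
    rw [Finset.sum_const, smul_eq_mul] at hc
    rw [ha, hb]
    nlinarith [hc]
  -- (2)
  have h2 : ∀ v ∈ X, s * F.card ≤ 8 * ∑ W ∈ F, (2 ^ s * (if v ∈ W then 1 else 0) +
      (W.filter (fun w => R v w)).card) := by
    intro v hv
    set g : Finset α → Finset α := fun W => W \ insert v (X.filter (fun y => R v y)) with hg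
    have hmaps : ∀ W ∈ F, g W ∈ F.image g := fun W hW => Finset.mem_image_of_mem g hW
    rw [← Finset.sum_fiberwise_of_maps_to hmaps, Finset.card_eq_sum_card_fiberwise hmaps,
      Finset.mul_sum, Finset.mul_sum]
    refine Finset.sum_le_sum (fun W' hW' => ?_)
    obtain ⟨W, hW, rfl⟩ := Finset.mem_image.1 hW'
    obtain ⟨hWX, hWI⟩ := (hFmem W).1 hW
    refine alon_fibre X R hsym hirr s htri v hv (g W) ?_ ?_ ?_
    · exact fun x hx => hWX (Finset.mem_sdiff.1 hx).1
    · exact fun x hx y hy => hWI x (Finset.mem_sdiff.1 hx).1 y (Finset.mem_sdiff.1 hy).1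
    · intro x hx
      have h3 := Finset.mem_sdiff.1 hx
      refine ⟨fun h => h3.2 (Finset.mem_insert.2 (Or.inl h)), fun h => h3.2 ?_⟩
      exact Finset.mem_insert.2 (Or.inr (Finset.mem_filter.2 ⟨hWX h3.1, h⟩))
  -- (3)
  have h3 : ∑ _W ∈ F, s * X.card ≤ ∑ W ∈ F, 16 * 2 ^ s * W.card := by
    calc ∑ _W ∈ F, s * X.card = ∑ _v ∈ X, s * F.card := by
          rw [Finset.sum_const, Finset.sum_const, smul_eq_mul, smul_eq_mul]; ring
      _ ≤ ∑ v ∈ X, 8 * ∑ W ∈ F, (2 ^ s * (if v ∈ W then 1 else 0) +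
            (W.filter (fun w => R v w)).card) := Finset.sum_le_sum h2
      _ = 8 * ∑ W ∈ F, ∑ v ∈ X, (2 ^ s * (if v ∈ W then 1 else 0) +
            (W.filter (fun w => R v w)).card) := by
          rw [← Finset.mul_sum, Finset.sum_comm]
      _ ≤ 8 * ∑ W ∈ F, 2 * 2 ^ s * W.card := Nat.mul_le_mul_left _ (Finset.sum_le_sum h1)
      _ = ∑ W ∈ F, 16 * 2 ^ s * W.card := by
          rw [Finset.mul_sum]
          exact Finset.sum_congr rfl (fun W _ => by ring)
  obtain ⟨I, hI, hle⟩ := Finset.exists_le_of_sum_le hne h3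
  obtain ⟨hIX, hII⟩ := (hFmem I).1 hI
  exact ⟨I, hIX, hII, hle⟩

end Pool.Agent.H61.Simp
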