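/-
SIMP-2.  Deletion version of `alon`.  MP_1da58b_co, owner helper61.

PROOF.  Let `X` be the set of the `x ∈ S` with `|{y ∈ S | R x y}| ≤ 2^s` which are not the first
vertex of a triangle `(x,y,z) ∈ S^3`.  The number of `x ∈ S` with degree `> 2^s` is at most
`(∑ x, ∑ y, [R x y]) / 2^s` and the number of the `x ∈ S` contained in a triangle is at most
`∑ x y z, [triangle]`.  Apply `alon` to `X`.
-/
import Pool.Agent.H61.Simp.Alon

set_option autoImplicit false

namespace Pool.Agent.H61.Simp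

theorem alon_del {α : Type*} [DecidableEq α] (S : Finset α) (R : α → α → Prop) [DecidableRel R]
    (hsym : ∀ x y, R x y → R y x) (hirr : ∀ x, ¬ R x x) (s : ℕ) :
    ∃ I ⊆ S, (∀ x ∈ I, ∀ y ∈ I, ¬ R x y) ∧
      (s : ℝ) * ((S.card : ℝ) - (∑ x ∈ S, ∑ y ∈ S, if R x y then (1 : ℝ) else 0) / 2 ^ s -
        ∑ x ∈ S, ∑ y ∈ S, ∑ z ∈ S, if R x y ∧ R y z ∧ R x z then (1 : ℝ) else 0) ≤
        16 * 2 ^ s * (I.card : ℝ) := by
  classical
  -- the good vertices
  set X : Finset α := S.filter (fun x => (S.filter (fun y => R x y)).card ≤ 2 ^ s ∧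
    ¬ ∃ y ∈ S, ∃ z ∈ S, R x y ∧ R y z ∧ R x z) with hX
  have hXmem : ∀ x, x ∈ X ↔ x ∈ S ∧ (S.filter (fun y => R x y)).card ≤ 2 ^ s ∧
    ¬ ∃ y ∈ S, ∃ z ∈ S, R x y ∧ R y z ∧ R x z := by
    intro x; rw [hX, Finset.mem_filter]
  have hXS : X ⊆ S := fun x hx => ((hXmem x).1 hx).1
  obtain ⟨I, hIX, hII, hle⟩ := alon X R hsym hirr s
    (fun x hx => (Finset.card_le_card (Finset.filter_subset_filter _ hXS)).trans
      ((hXmem x).1 hx).2.1)
    (fun x hx y hy z hz h1 h2 h3 =>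
      ((hXmem x).1 hx).2.2 ⟨y, hXS hy, z, hXS hz, h1, h2, h3⟩)
  refine ⟨I, hIX.trans hXS, hII, ?_⟩
  have hpt : ∀ x ∈ S, (1 : ℝ) ≤ (if x ∈ X then (1 : ℝ) else 0) +
      (∑ y ∈ S, if R x y then (1 : ℝ) else 0) / 2 ^ s +
      ∑ y ∈ S, ∑ z ∈ S, if R x y ∧ R y z ∧ R x z then (1 : ℝ) else 0 := by
    intro x hx
    have hD0 : (0 : ℝ) ≤ (∑ y ∈ S, if R x y then (1 : ℝ) else 0) / 2 ^ s := by
      refine div_nonneg (Finset.sum_nonneg (fun y _ => ?_)) (by positivity)
      split_ifs <;> norm_num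
    have hT0' : ∀ y ∈ S, (0 : ℝ) ≤
        ∑ z ∈ S, if R x y ∧ R y z ∧ R x z then (1 : ℝ) else 0 := by
      intro y _
      refine Finset.sum_nonneg (fun z _ => ?_)
      split_ifs <;> norm_num
    have hT0 : (0 : ℝ) ≤ ∑ y ∈ S, ∑ z ∈ S, if R x y ∧ R y z ∧ R x z then (1 : ℝ) else 0 :=
      Finset.sum_nonneg hT0'
    by_cases hxX : x ∈ X
    · rw [if_pos hxX]
      linarith
    · rw [if_neg hxX]
      rw [hXmem] at hxX
      by_cases hdeg : (S.filter (fun y => R x y)).card ≤ 2 ^ s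
      · have htr : ∃ y ∈ S, ∃ z ∈ S, R x y ∧ R y z ∧ R x z := by
          by_contra hcon
          exact hxX ⟨hx, hdeg, hcon⟩
        obtain ⟨y, hy, z, hz, h⟩ := htr
        have h1 : (1 : ℝ) ≤ ∑ z ∈ S, if R x y ∧ R y z ∧ R x z then (1 : ℝ) else 0 := by
          have h2 := Finset.single_le_sum
            (f := fun z => if R x y ∧ R y z ∧ R x z then (1 : ℝ) else 0)
            (fun z _ => by split_ifs <;> norm_num) hz
          beta_reduce at h2
          rw [if_pos h] at h2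
          exact h2
        have h3 := Finset.single_le_sum hT0' hy
        linarith
      · have h1 : (∑ y ∈ S, if R x y then (1 : ℝ) else 0) =
            ((S.filter (fun y => R x y)).card : ℝ) := by
          rw [Finset.card_filter]
          push_cast
          rfl
        have h2 : (2 : ℝ) ^ s ≤ ((S.filter (fun y => R x y)).card : ℝ) := by
          have : 2 ^ s ≤ (S.filter (fun y => R x y)).card := by omega
          exact_mod_cast this
        have h3 : (1 : ℝ) ≤ (∑ y ∈ S, if R x y then (1 : ℝ) else 0) / 2 ^ s := by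
          rw [h1, le_div_iff₀ (by positivity), one_mul]
          exact h2
        linarith
  have hsum := Finset.sum_le_sum hpt
  rw [Finset.sum_add_distrib, Finset.sum_add_distrib, ← Finset.sum_div] at hsum
  have hc1 : ∑ _x ∈ S, (1 : ℝ) = (S.card : ℝ) := by simp
  have hc2 : ∑ x ∈ S, (if x ∈ X then (1 : ℝ) else 0) = (X.card : ℝ) := by
    rw [← Finset.sum_filter, Finset.filter_mem_eq_inter, Finset.inter_eq_right.2 hXS]
    simp
  rw [hc1, hc2] at hsum
  have hle' : (s : ℝ) * (X.card : ℝ) ≤ 16 * 2 ^ s * (I.card : ℝ) := by exact_mod_cast hle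
  refine le_trans (mul_le_mul_of_nonneg_left ?_ (Nat.cast_nonneg s)) hle'
  linarith

end Pool.Agent.H61.Simp
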