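/-
MP_1da58b_co (Erdos: decomposing r-graphs into edges and simplices), helper61.
`tau <= (k-1) nu` for all large `k`: definitions.
Do not change statements here without asking helper61.
-/
import Mathlib

set_option autoImplicit false

namespace Pool.Agent.H61.Simp

section
variable {V : Type} [DecidableEq V]

/-- two `k`-sets are adjacent if they share exactly `k - 1` elements -/
def adj (k : ℕ) (a b : Finset V) : Prop := (a ∩ b).card + 1 = k

instance (k : ℕ) : DecidableRel (adj (V := V) k) :=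
  fun a b => inferInstanceAs (Decidable ((a ∩ b).card + 1 = k))

theorem adj_comm (k : ℕ) (a b : Finset V) : adj k a b ↔ adj k b a := by
  unfold adj; rw [Finset.inter_comm]

end

/-- A `k`-uniform family `H` (the cliques) with a maximum packing `P`. -/
structure Setup (V : Type) [DecidableEq V] where
  k : ℕ
  H : Finset (Finset V)
  P : Finset (Finset V)
  unif : ∀ h ∈ H, h.card = k
  sub : P ⊆ H
  pack : ∀ p ∈ P, ∀ q ∈ P, ¬ adj k p q
  max : ∀ M ⊆ H, (∀ p ∈ M, ∀ q ∈ M, ¬ adj k p q) → M.card ≤ P.card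

namespace Setup

variable {V : Type} [DecidableEq V] (S : Setup V)

/-- the members of the packing adjacent to `h` -/
def N (h : Finset V) : Finset (Finset V) := S.P.filter (fun p => adj S.k h p)

/-- the facets of the members of the packing -/
def EP : Finset (Finset V) := S.P.biUnion (fun p => p.image (fun v => p.erase v))

/-- weight of a clique at scale `ε` -/
noncomputable def wt (ε : ℝ) (h : Finset V) : ℝ := ε ^ (S.N h).card

/-- total weight of a family at scale `ε` -/
noncomputable def Fw (ε : ℝ) (F : Finset (Finset V)) : ℝ := ∑ h ∈ F, S.wt ε h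

/-- load of the facet `g` : total weight of the members of `F` containing `g` -/
noncomputable def load (ε : ℝ) (F : Finset (Finset V)) (g : Finset V) : ℝ :=
  S.Fw ε (F.filter (fun h => g ⊆ h))

/-- cliques with between `2` and `J` neighbours in `P` -/
def mid (J : ℕ) : Finset (Finset V) :=
  S.H.filter (fun h => 2 ≤ (S.N h).card ∧ (S.N h).card ≤ J)

/-- those of them which contain no member of `A` -/
def avoid (J : ℕ) (A : Finset (Finset V)) : Finset (Finset V) :=
  (S.mid J).filter (fun h => ∀ g ∈ A, ¬ g ⊆ h)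

theorem mem_N {h p : Finset V} : p ∈ S.N h ↔ p ∈ S.P ∧ adj S.k h p := by
  simp [N]

theorem mem_mid {J : ℕ} {h : Finset V} :
    h ∈ S.mid J ↔ h ∈ S.H ∧ 2 ≤ (S.N h).card ∧ (S.N h).card ≤ J := by
  unfold mid; rw [Finset.mem_filter]

theorem mem_avoid {J : ℕ} {A : Finset (Finset V)} {h : Finset V} :
    h ∈ S.avoid J A ↔ h ∈ S.mid J ∧ ∀ g ∈ A, ¬ g ⊆ h := by
  unfold avoid; rw [Finset.mem_filter]

theorem avoid_subset (J : ℕ) (A : Finset (Finset V)) : S.avoid J A ⊆ S.mid J :=
  Finset.filter_subset _ _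

theorem mid_subset (J : ℕ) : S.mid J ⊆ S.H := Finset.filter_subset _ _

theorem N_subset (h : Finset V) : S.N h ⊆ S.P := Finset.filter_subset _ _

theorem card_of_mem_P {p : Finset V} (hp : p ∈ S.P) : p.card = S.k := S.unif p (S.sub hp)

/-- a `(k-1)`-set is a facet of the packing iff it is contained in a member -/
theorem mem_EP {g : Finset V} (hg : g.card + 1 = S.k) : g ∈ S.EP ↔ ∃ p ∈ S.P, g ⊆ p := by
  unfold EP
  rw [Finset.mem_biUnion]
  constructor
  · rintro ⟨p, hp, hgp⟩
    rw [Finset.mem_image] at hgp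
    obtain ⟨v, _, rfl⟩ := hgp
    exact ⟨p, hp, Finset.erase_subset _ _⟩
  · rintro ⟨p, hp, hgp⟩
    refine ⟨p, hp, ?_⟩
    have h1 := S.card_of_mem_P hp
    have h2 : (p \ g).card = 1 := by
      rw [Finset.card_sdiff_of_subset hgp]; omega
    obtain ⟨v, hv⟩ := Finset.card_eq_one.1 h2
    rw [Finset.mem_image]
    have hvm : v ∈ p \ g := by rw [hv]; exact Finset.mem_singleton_self v
    rw [Finset.mem_sdiff] at hvm
    refine ⟨v, hvm.1, ?_⟩
    symm
    apply Finset.eq_of_subset_of_card_le
    · intro x hx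
      rw [Finset.mem_erase]
      exact ⟨fun h => hvm.2 (h ▸ hx), hgp hx⟩
    · rw [Finset.card_erase_of_mem hvm.1]; omega

theorem card_of_mem_EP {g : Finset V} (hg : g ∈ S.EP) : g.card + 1 = S.k := by
  unfold EP at hg
  rw [Finset.mem_biUnion] at hg
  obtain ⟨p, hp, hgp⟩ := hg
  rw [Finset.mem_image] at hgp
  obtain ⟨v, hv, rfl⟩ := hgp
  rw [Finset.card_erase_of_mem hv, S.card_of_mem_P hp]
  have : 0 < p.card := Finset.card_pos.2 ⟨v, hv⟩
  rw [S.card_of_mem_P hp] at this
  omega

/-- facets of different members of the packing are different -/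
theorem eq_of_facet {g p q : Finset V} (hg : g.card + 1 = S.k) (hp : p ∈ S.P) (hq : q ∈ S.P)
    (hgp : g ⊆ p) (hgq : g ⊆ q) : p = q := by
  by_contra hne
  have h1 := S.card_of_mem_P hp
  have h2 := S.card_of_mem_P hq
  have h3 : g ⊆ p ∩ q := Finset.subset_inter hgp hgq
  have h4 := Finset.card_le_card h3
  have h5 : (p ∩ q).card < S.k := by
    rw [← h1]
    apply Finset.card_lt_card
    refine ⟨Finset.inter_subset_left, fun h => hne ?_⟩
    apply Finset.eq_of_subset_of_card_le
    · intro x hx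
      exact (Finset.mem_inter.1 (h hx)).2
    · omega
  exact S.pack p hp q hq (by unfold adj; omega)

theorem wt_nonneg {ε : ℝ} (hε : 0 ≤ ε) (h : Finset V) : 0 ≤ S.wt ε h := pow_nonneg hε _

theorem wt_pos {ε : ℝ} (hε : 0 < ε) (h : Finset V) : 0 < S.wt ε h := pow_pos hε _

theorem Fw_nonneg {ε : ℝ} (hε : 0 ≤ ε) (F : Finset (Finset V)) : 0 ≤ S.Fw ε F :=
  Finset.sum_nonneg fun h _ => S.wt_nonneg hε h

theorem Fw_mono {ε : ℝ} (hε : 0 ≤ ε) {F G : Finset (Finset V)} (h : F ⊆ G) :
    S.Fw ε F ≤ S.Fw ε G :=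
  Finset.sum_le_sum_of_subset_of_nonneg h fun x _ _ => S.wt_nonneg hε x

end Setup

/-- The constants of the exchange lemma: bound for the loads of facets outside `EP`. -/
noncomputable def lam (J s k : ℕ) : ℝ := 25 * (J : ℝ) ^ 2 * 4 ^ s / k

/-- bound for the loads of the facets in `EP` (at scale `ε`) -/
noncomputable def tt (J s : ℕ) (ε : ℝ) : ℝ := 25 * (J : ℝ) * 2 ^ s * ε

/-- the exchange lemma gives `Fw ≤ Rst * ε * |P|` -/
noncomputable def Rst (J s : ℕ) : ℝ := 8800 * (J : ℝ) ^ 2 * 4 ^ s / s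

end Pool.Agent.H61.Simp
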