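/-
SIMP-5.  Geometry of `k`-sets sharing `k-1` elements.  MP_1da58b_co, owner helper61.

All statements are about finite sets; `S : Setup V`, `k = S.k`.

PROOFS.
* `adj_card`: if `|a| = |b| = k` and `adj k a b`, then `|a ∩ b| = k - 1`, `a \ b` and `b \ a` are
  singletons.
* `tri_class`: if `y ∈ (a ∩ b) \ c` then `c ∩ a = a \ {y}`, `c ∩ b = b \ {y}`, so `c` contains
  `(a ∪ b) \ {y}`, which has `k` elements.
* `row_or_col`: if `p ∈ N h ∩ N h'`, `adj k h h'`, and `h ∩ h' ⊄ p`, let `w ∈ (h ∩ h') \ p`; then
  `h \ p = {w} = h' \ p`.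
* `card_col_le`: then `h' = insert w (p.erase v')` with `{v'} = p \ h'`, so there are at most `k`
  such `h'`.
* `row_unique`: `g = h ∩ h'`, `g ⊄ p`, `p ∈ N h ∩ N h'`: `h' = g ∪ (p \ h)`.
-/
import Pool.Agent.H61.Simp.Defs

set_option autoImplicit false

namespace Pool.Agent.H61.Simp

section
variable {V : Type} [DecidableEq V]

theorem adj_ne {k : ℕ} {a b : Finset V} (ha : a.card = k) (h : adj k a b) : a ≠ b := by
  rintro rfl
  unfold adj at h
  rw [Finset.inter_self] at h
  omega

theorem card_sdiff_of_adj {k : ℕ} {a b : Finset V} (ha : a.card = k) (h : adj k a b) :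
    (a \ b).card = 1 := by
  unfold adj at h
  have := Finset.card_sdiff_add_card_inter a b
  omega

/-- three pairwise adjacent `k`-sets: row or column -/
theorem tri_class {k : ℕ} {a b c : Finset V} (ha : a.card = k) (hb : b.card = k)
    (hc : c.card = k) (hab : adj k a b) (hac : adj k a c) (hbc : adj k b c) :
    a ∩ b ⊆ c ∨ ∃ y ∈ a ∩ b, c = (a ∪ b).erase y := by
  by_cases hsub : a ∩ b ⊆ c
  · exact Or.inl hsub
  · right
    obtain ⟨y, hy, hyc⟩ := Finset.not_subset.1 hsub
    refine ⟨y, hy, ?_⟩
    rw [Finset.mem_inter] at hy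
    unfold adj at hab hac hbc
    have h1 : a ∩ c = a.erase y := by
      apply Finset.eq_of_subset_of_card_le
      · intro x hx
        rw [Finset.mem_inter] at hx
        rw [Finset.mem_erase]
        exact ⟨fun h => hyc (h ▸ hx.2), hx.1⟩
      · rw [Finset.card_erase_of_mem hy.1]; omega
    have h2 : b ∩ c = b.erase y := by
      apply Finset.eq_of_subset_of_card_le
      · intro x hx
        rw [Finset.mem_inter] at hx
        rw [Finset.mem_erase]
        exact ⟨fun h => hyc (h ▸ hx.2), hx.1⟩
      · rw [Finset.card_erase_of_mem hy.2]; omega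
    have h3 : (a ∪ b).erase y ⊆ c := by
      intro x hx
      rw [Finset.mem_erase, Finset.mem_union] at hx
      rcases hx.2 with hxa | hxb
      · have : x ∈ a ∩ c := by rw [h1, Finset.mem_erase]; exact ⟨hx.1, hxa⟩
        exact (Finset.mem_inter.1 this).2
      · have : x ∈ b ∩ c := by rw [h2, Finset.mem_erase]; exact ⟨hx.1, hxb⟩
        exact (Finset.mem_inter.1 this).2
    symm
    apply Finset.eq_of_subset_of_card_le h3
    rw [Finset.card_erase_of_mem (Finset.mem_union_left _ hy.1)]
    have := Finset.card_union_add_card_inter a b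
    omega

end

namespace Setup

variable {V : Type} [DecidableEq V] (S : Setup V)

/-- the facet of `h` in `p ∈ N h` -/
theorem inter_mem_EP {h p : Finset V} (hp : p ∈ S.N h) : h ∩ p ∈ S.EP := by
  rw [S.mem_N] at hp
  exact (S.mem_EP hp.2).2 ⟨p, hp.1, Finset.inter_subset_right⟩

/-- if `h ∩ h'` is a facet of the packing, then `h, h'` have a common neighbour, through it -/
theorem common_of_mem_EP {h h' : Finset V} (hh : h ∈ S.H) (hh' : h' ∈ S.H)
    (hP : h ∉ S.P) (hP' : h' ∉ S.P) (hadj : adj S.k h h') (hE : h ∩ h' ∈ S.EP) :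
    ∃ p ∈ S.N h ∩ S.N h', h ∩ h' ⊆ p ∧ h ∩ p = h ∩ h' := by
  have hc : (h ∩ h').card + 1 = S.k := hadj
  obtain ⟨p, hp, hsub⟩ := (S.mem_EP hc).1 hE
  have hpk := S.card_of_mem_P hp
  have key : ∀ u ∈ S.H, u ∉ S.P → h ∩ h' ⊆ u → u ∩ p = h ∩ h' := by
    intro u hu huP hsu
    symm
    apply Finset.eq_of_subset_of_card_le (Finset.subset_inter hsu hsub)
    have huk := S.unif u hu
    have hlt : (u ∩ p).card < u.card := by
      apply Finset.card_lt_card
      refine ⟨Finset.inter_subset_left, fun hh1 => huP ?_⟩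
      have : u = p := by
        apply Finset.eq_of_subset_of_card_le
        · intro x hx
          exact (Finset.mem_inter.1 (hh1 hx)).2
        · omega
      rw [this]; exact hp
    omega
  have k1 := key h hh hP Finset.inter_subset_left
  have k2 := key h' hh' hP' Finset.inter_subset_right
  refine ⟨p, ?_, hsub, k1⟩
  rw [Finset.mem_inter, S.mem_N, S.mem_N]
  refine ⟨⟨hp, ?_⟩, ⟨hp, ?_⟩⟩
  · unfold adj; rw [k1]; exact hc
  · unfold adj; rw [k2]; exact hc

/-- column partners of `h` along `p` -/
theorem card_col_le (F : Finset (Finset V)) (hF : F ⊆ S.H) {h p : Finset V} (hh : h ∈ S.H)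
    (hp : p ∈ S.N h) :
    (F.filter (fun h' => adj S.k h h' ∧ p ∈ S.N h' ∧ ¬ h ∩ h' ⊆ p)).card ≤ S.k := by
  have hpN := (S.mem_N).1 hp
  have hpk := S.card_of_mem_P hpN.1
  obtain ⟨w, hw⟩ := Finset.card_eq_one.1 (card_sdiff_of_adj (S.unif h hh) hpN.2)
  calc (F.filter (fun h' => adj S.k h h' ∧ p ∈ S.N h' ∧ ¬ h ∩ h' ⊆ p)).card
      ≤ (p.image (fun v => insert w (p.erase v))).card := by
        apply Finset.card_le_card
        intro h' hh'
        rw [Finset.mem_filter] at hh'
        obtain ⟨hF', hadj, hpN', hns⟩ := hh'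
        have hk' := S.unif h' (hF hF')
        rw [S.mem_N] at hpN'
        obtain ⟨x, hx, hxp⟩ := Finset.not_subset.1 hns
        rw [Finset.mem_inter] at hx
        have hxw : x = w := by
          have : x ∈ h \ p := Finset.mem_sdiff.2 ⟨hx.1, hxp⟩
          rw [hw] at this
          exact Finset.mem_singleton.1 this
        subst hxw
        have hp' : adj S.k p h' := (adj_comm _ _ _).1 hpN'.2
        obtain ⟨v, hv⟩ := Finset.card_eq_one.1 (card_sdiff_of_adj hpk hp')
        have hvm : v ∈ p \ h' := by rw [hv]; exact Finset.mem_singleton_self v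
        rw [Finset.mem_sdiff] at hvm
        rw [Finset.mem_image]
        refine ⟨v, hvm.1, ?_⟩
        apply Finset.eq_of_subset_of_card_le
        · intro z hz
          rw [Finset.mem_insert, Finset.mem_erase] at hz
          rcases hz with rfl | ⟨hzv, hzp⟩
          · exact hx.2
          · by_contra hzh
            have : z ∈ p \ h' := Finset.mem_sdiff.2 ⟨hzp, hzh⟩
            rw [hv] at this
            exact hzv (Finset.mem_singleton.1 this)
        · rw [Finset.card_insert_of_notMem, Finset.card_erase_of_mem hvm.1]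
          · omega
          · intro hmem
            exact hxp (Finset.mem_of_mem_erase hmem)
    _ ≤ p.card := Finset.card_image_le
    _ = S.k := hpk

/-- a row partner of `h` along a facet `g ⊄ p` which is adjacent to `p` is unique -/
theorem row_unique {h h' g p : Finset V} (hh : h ∈ S.H) (hh' : h' ∈ S.H) (hg : g.card + 1 = S.k)
    (hgh : g ⊆ h) (hgh' : g ⊆ h') (hne : h ≠ h') (hgp : ¬ g ⊆ p) (hp : p ∈ S.N h)
    (hp' : p ∈ S.N h') : h' = g ∪ (p \ h) := by
  have hk := S.unif h hh
  have hk' := S.unif h' hh'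
  rw [S.mem_N] at hp hp'
  have hpk := S.card_of_mem_P hp.1
  have hgi : g = h ∩ h' := by
    apply Finset.eq_of_subset_of_card_le (Finset.subset_inter hgh hgh')
    have hlt : (h ∩ h').card < h.card := by
      apply Finset.card_lt_card
      refine ⟨Finset.inter_subset_left, fun hh1 => hne ?_⟩
      apply Finset.eq_of_subset_of_card_le
      · intro x hx
        exact (Finset.mem_inter.1 (hh1 hx)).2
      · omega
    omega
  obtain ⟨w, hwg, hwp⟩ := Finset.not_subset.1 hgp
  obtain ⟨w', hw'⟩ := Finset.card_eq_one.1 (card_sdiff_of_adj hk' hp'.2)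
  have hww : w = w' := by
    have : w ∈ h' \ p := Finset.mem_sdiff.2 ⟨hgh' hwg, hwp⟩
    rw [hw'] at this
    exact Finset.mem_singleton.1 this
  apply Finset.eq_of_subset_of_card_le
  · intro x hx
    rw [Finset.mem_union, Finset.mem_sdiff]
    by_cases hxh : x ∈ h
    · left; rw [hgi, Finset.mem_inter]; exact ⟨hxh, hx⟩
    · right
      refine ⟨?_, hxh⟩
      by_contra hxp
      have : x ∈ h' \ p := Finset.mem_sdiff.2 ⟨hx, hxp⟩
      rw [hw', ← hww, Finset.mem_singleton] at this
      exact hxh (this ▸ hgh hwg)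
  · have h1 : (g ∪ (p \ h)).card ≤ g.card + (p \ h).card := Finset.card_union_le _ _
    have h2 := card_sdiff_of_adj hpk ((adj_comm _ _ _).1 hp.2)
    omega

/-- different members of `N h` give different facets -/
theorem facet_injOn (h : Finset V) : Set.InjOn (fun p => h ∩ p) (S.N h : Set (Finset V)) := by
  intro p hp q hq hpq
  rw [Finset.mem_coe, S.mem_N] at hp hq
  have h1 : h ∩ p ⊆ q := by
    have : h ∩ p = h ∩ q := hpq
    rw [this]; exact Finset.inter_subset_right
  exact S.eq_of_facet hp.2 hp.1 hq.1 Finset.inter_subset_right h1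

/-- members of `mid` are not in the packing -/
theorem not_mem_P_of_mid {J : ℕ} {h : Finset V} (hh : h ∈ S.mid J) : h ∉ S.P := by
  intro hP
  unfold mid at hh
  rw [Finset.mem_filter] at hh
  have : S.N h = ∅ := by
    rw [Finset.eq_empty_iff_forall_notMem]
    intro p hp
    rw [S.mem_N] at hp
    exact S.pack h hP p hp.1 hp.2
  rw [this] at hh
  simp at hh

end Setup

end Pool.Agent.H61.Simp
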