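/-
SIMP-5b.  Cliques adjacent to two members of the packing.  MP_1da58b_co, owner helper61.

PROOFS.
* `card_pair_le`: let `p ≠ p'` in `P` and `|h| = k`, `p, p' ∈ N h`.  `h ∩ p` and `h ∩ p'` are
  different (`eq_of_facet`) `(k-1)`-subsets of `h`, so `h = (h ∩ p) ∪ (h ∩ p')` and
  `|h ∩ p ∩ p'| = k - 2`.  `|p ∩ p'| ≤ k - 2` (as `p ≠ p'` are not adjacent), so `p ∩ p' ⊆ h`,
  `|p \ p'| = |p' \ p| = 2` and `h = p.erase a ∪ p'.erase b` with `a ∈ p \ p'`, `b ∈ p' \ p`.
* `card_tight_le`: sum `card_pair_le` over the ordered pairs of `X`.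
* `card_tight_le'`: sum over `p ∈ X`, `p ≠ p₀`.
-/
import Pool.Agent.H61.Simp.Geom

set_option autoImplicit false

namespace Pool.Agent.H61.Simp.Setup

variable {V : Type} [DecidableEq V] (S : Setup V)

/-- at most four cliques are adjacent to two given members of the packing -/
theorem card_pair_le (F : Finset (Finset V)) (hF : F ⊆ S.H) {p p' : Finset V} (hp : p ∈ S.P)
    (hp' : p' ∈ S.P) (hne : p ≠ p') :
    (F.filter (fun h => p ∈ S.N h ∧ p' ∈ S.N h)).card ≤ 4 := by
  have hpk := S.card_of_mem_P hp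
  have hpk' := S.card_of_mem_P hp'
  have hlt : (p ∩ p').card < p.card := by
    apply Finset.card_lt_card
    refine ⟨Finset.inter_subset_left, fun hh1 => hne ?_⟩
    apply Finset.eq_of_subset_of_card_le
    · intro x hx
      exact (Finset.mem_inter.1 (hh1 hx)).2
    · omega
  have hnadj : ¬ (p ∩ p').card + 1 = S.k := S.pack p hp p' hp'
  have hle : (p ∩ p').card + 2 ≤ S.k := by omega
  -- the structure of one such clique
  have key : ∀ h ∈ F.filter (fun h => p ∈ S.N h ∧ p' ∈ S.N h),
      p ∩ p' ⊆ h ∧ (p ∩ p').card + 2 = S.k ∧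
        ∃ x ∈ p \ p', ∃ y ∈ p' \ p, h = p.erase x ∪ p'.erase y := by
    intro h hh
    rw [Finset.mem_filter] at hh
    obtain ⟨hF', hpN, hpN'⟩ := hh
    rw [S.mem_N] at hpN hpN'
    have hk := S.unif h (hF hF')
    have ha : (h ∩ p).card + 1 = S.k := hpN.2
    have ha' : (h ∩ p').card + 1 = S.k := hpN'.2
    have hdiff : h ∩ p ≠ h ∩ p' := by
      intro heq
      apply hne
      apply S.eq_of_facet ha hp hp' Finset.inter_subset_right
      rw [heq]; exact Finset.inter_subset_right
    have hunion : (h ∩ p) ∪ (h ∩ p') ⊆ h :=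
      Finset.union_subset Finset.inter_subset_left Finset.inter_subset_left
    have hcu := Finset.card_union_add_card_inter (h ∩ p) (h ∩ p')
    have hcu2 := Finset.card_le_card hunion
    have hsub2 : (h ∩ p) ∩ (h ∩ p') ⊆ p ∩ p' :=
      Finset.inter_subset_inter Finset.inter_subset_right Finset.inter_subset_right
    have hsc := Finset.card_le_card hsub2
    have heq2 : (h ∩ p) ∩ (h ∩ p') = p ∩ p' :=
      Finset.eq_of_subset_of_card_le hsub2 (by omega)
    have hpp : p ∩ p' ⊆ h := by
      rw [← heq2]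
      exact Finset.inter_subset_left.trans Finset.inter_subset_left
    have hcard : (p ∩ p').card + 2 = S.k := by
      rw [← heq2]
      rw [heq2] at hcu
      rw [heq2]
      omega
    have hunioneq : (h ∩ p) ∪ (h ∩ p') = h :=
      Finset.eq_of_subset_of_card_le hunion (by rw [heq2] at hcu; omega)
    refine ⟨hpp, hcard, ?_⟩
    obtain ⟨x, hx⟩ := Finset.card_eq_one.1 (card_sdiff_of_adj hpk ((adj_comm _ _ _).1 hpN.2))
    obtain ⟨y, hy⟩ := Finset.card_eq_one.1 (card_sdiff_of_adj hpk' ((adj_comm _ _ _).1 hpN'.2))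
    have hxm : x ∈ p \ h := by rw [hx]; exact Finset.mem_singleton_self x
    have hym : y ∈ p' \ h := by rw [hy]; exact Finset.mem_singleton_self y
    rw [Finset.mem_sdiff] at hxm hym
    have hxe : h ∩ p = p.erase x := by
      ext z
      rw [Finset.mem_inter, Finset.mem_erase]
      constructor
      · rintro ⟨h1, h2⟩
        exact ⟨fun h3 => hxm.2 (h3 ▸ h1), h2⟩
      · rintro ⟨h1, h2⟩
        refine ⟨?_, h2⟩
        by_contra h3
        have : z ∈ p \ h := Finset.mem_sdiff.2 ⟨h2, h3⟩
        rw [hx, Finset.mem_singleton] at this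
        exact h1 this
    have hye : h ∩ p' = p'.erase y := by
      ext z
      rw [Finset.mem_inter, Finset.mem_erase]
      constructor
      · rintro ⟨h1, h2⟩
        exact ⟨fun h3 => hym.2 (h3 ▸ h1), h2⟩
      · rintro ⟨h1, h2⟩
        refine ⟨?_, h2⟩
        by_contra h3
        have : z ∈ p' \ h := Finset.mem_sdiff.2 ⟨h2, h3⟩
        rw [hy, Finset.mem_singleton] at this
        exact h1 this
    refine ⟨x, ?_, y, ?_, ?_⟩
    · rw [Finset.mem_sdiff]
      exact ⟨hxm.1, fun h1 => hxm.2 (hpp (Finset.mem_inter.2 ⟨hxm.1, h1⟩))⟩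
    · rw [Finset.mem_sdiff]
      exact ⟨hym.1, fun h1 => hym.2 (hpp (Finset.mem_inter.2 ⟨h1, hym.1⟩))⟩
    · rw [← hxe, ← hye, hunioneq]
  rcases Finset.eq_empty_or_nonempty (F.filter (fun h => p ∈ S.N h ∧ p' ∈ S.N h)) with he | ⟨h₀, hh₀⟩
  · rw [he]; simp
  · have hc := (key h₀ hh₀).2.1
    have h1 : (p \ p').card = 2 := by
      have := Finset.card_sdiff_add_card_inter p p'
      omega
    have h2 : (p' \ p).card = 2 := by
      have := Finset.card_sdiff_add_card_inter p' p
      rw [Finset.inter_comm] at this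
      omega
    calc (F.filter (fun h => p ∈ S.N h ∧ p' ∈ S.N h)).card
        ≤ (((p \ p') ×ˢ (p' \ p)).image (fun z => p.erase z.1 ∪ p'.erase z.2)).card := by
          apply Finset.card_le_card
          intro h hh
          obtain ⟨_, _, x, hx, y, hy, hxy⟩ := key h hh
          rw [Finset.mem_image]
          exact ⟨(x, y), Finset.mk_mem_product hx hy, hxy.symm⟩
      _ ≤ ((p \ p') ×ˢ (p' \ p)).card := Finset.card_image_le
      _ = 4 := by rw [Finset.card_product, h1, h2]

/-- cliques with at least two neighbours in `X` -/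
theorem card_tight_le (F : Finset (Finset V)) (hF : F ⊆ S.H) (X : Finset (Finset V))
    (hX : X ⊆ S.P) : (F.filter (fun h => 2 ≤ (S.N h ∩ X).card)).card ≤ 4 * X.card ^ 2 := by
  calc (F.filter (fun h => 2 ≤ (S.N h ∩ X).card)).card
      ≤ (X.offDiag.biUnion (fun z => F.filter (fun h => z.1 ∈ S.N h ∧ z.2 ∈ S.N h))).card := by
        apply Finset.card_le_card
        intro h hh
        rw [Finset.mem_filter] at hh
        have h1 : 1 < (S.N h ∩ X).card := hh.2
        obtain ⟨a, ha, b, hb, hab⟩ := Finset.one_lt_card.1 h1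
        rw [Finset.mem_inter] at ha hb
        rw [Finset.mem_biUnion]
        refine ⟨(a, b), Finset.mem_offDiag.2 ⟨ha.2, hb.2, hab⟩, ?_⟩
        rw [Finset.mem_filter]
        exact ⟨hh.1, ha.1, hb.1⟩
    _ ≤ X.offDiag.card * 4 := by
        apply Finset.card_biUnion_le_card_mul
        intro z hz
        rw [Finset.mem_offDiag] at hz
        exact S.card_pair_le F hF (hX hz.1) (hX hz.2.1) hz.2.2
    _ ≤ 4 * X.card ^ 2 := by
        rw [Finset.offDiag_card]
        have : X.card * X.card - X.card ≤ X.card ^ 2 := by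
          rw [sq]; exact Nat.sub_le _ _
        omega

/-- cliques with at least two neighbours in `X`, one of them the given `p₀` -/
theorem card_tight_le' (F : Finset (Finset V)) (hF : F ⊆ S.H) (X : Finset (Finset V))
    (hX : X ⊆ S.P) {p₀ : Finset V} (hp₀ : p₀ ∈ S.P) :
    (F.filter (fun h => p₀ ∈ S.N h ∧ ∃ p ∈ X, p ≠ p₀ ∧ p ∈ S.N h)).card ≤ 4 * X.card := by
  calc (F.filter (fun h => p₀ ∈ S.N h ∧ ∃ p ∈ X, p ≠ p₀ ∧ p ∈ S.N h)).card
      ≤ ((X.erase p₀).biUnion (fun p => F.filter (fun h => p₀ ∈ S.N h ∧ p ∈ S.N h))).card := by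
        apply Finset.card_le_card
        intro h hh
        rw [Finset.mem_filter] at hh
        obtain ⟨hF', hp0, p, hpX, hpne, hpN⟩ := hh
        rw [Finset.mem_biUnion]
        refine ⟨p, Finset.mem_erase.2 ⟨hpne, hpX⟩, ?_⟩
        rw [Finset.mem_filter]
        exact ⟨hF', hp0, hpN⟩
    _ ≤ (X.erase p₀).card * 4 := by
        apply Finset.card_biUnion_le_card_mul
        intro p hp
        rw [Finset.mem_erase] at hp
        exact S.card_pair_le F hF hp₀ (hX hp.2) (Ne.symm hp.1)
    _ ≤ 4 * X.card := by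
        have := Finset.card_erase_le (s := X) (a := p₀)
        omega

end Pool.Agent.H61.Simp.Setup
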