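/-
SIMP-6.  The weighted number of partners of a clique.  MP_1da58b_co, owner helper61.

Context for `S : Setup V`, `F ⊆ S.mid J`, `0 < ε`, `ε * k ≤ 1`, the loads of facets outside `EP` are
`≤ L`, those of the facets in `EP` are `≤ t`.

PROOF of `edge_sum`.  For `h' ∈ F` with `adj k h h'` let `i = |N h ∩ N h'|`;
`|N h ∪ N h'| = |N h| + |N h' \ N h|`, so `ε^|N h ∪ N h'| = ε^|N h| * ε^|N h' \ N h|`.
* `i = 0`: then `g = h ∩ h' ∉ EP` (`common_of_mem_EP`); `g = h.erase v` for some `v ∈ h`; the sum of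
  `ε^|N h'|` over the `h' ∈ F` containing `h.erase v ∉ EP` is at most `load ε F (h.erase v) ≤ L`.
  Total `≤ k L`.
* `i = 1`, `h ∩ h' ∈ EP`: then `h ∩ h' = h ∩ p`, `p ∈ N h`, and `|N h' \ N h| = |N h'| - 1`: total
  `≤ ∑_{p ∈ N h} load ε F (h ∩ p) / ε ≤ J t / ε`.
* `i = 1`, `h ∩ h' ∉ EP`: `p ∈ N h ∩ N h'`, `h ∩ h' ⊄ p`; `card_col_le`: at most `k` such `h'` for every
  `p ∈ N h`, each with weight `≤ ε` (`|N h'| ≥ 2`): total `≤ J k ε ≤ J`.
* `i ≥ 2`: at most `4 J^2` (`card_tight_le`), weight `≤ 1`.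
(A convenient way: bound the indicator of the event by the sum of the four indicators, term by term.)
`edge_sum_EP` is the part with `h ∩ h' ∈ EP` (second and fourth case).
-/
import Pool.Agent.H61.Simp.Geom2

set_option autoImplicit false

namespace Pool.Agent.H61.Simp.Setup

variable {V : Type} [DecidableEq V] (S : Setup V)

/-! ### auxiliary facts -/

theorem es_pow_union (ε : ℝ) (h h' : Finset V) :
    ε ^ (S.N h ∪ S.N h').card = ε ^ (S.N h).card * ε ^ (S.N h' \ S.N h).card := by
  rw [← pow_add, Finset.union_comm, ← Finset.card_sdiff_add_card, add_comm]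

theorem es_k_pos {J : ℕ} {h : Finset V} (hh : h ∈ S.mid J) : 1 ≤ S.k := by
  rw [S.mem_mid] at hh
  have : 0 < (S.N h).card := by omega
  obtain ⟨p, hp⟩ := Finset.card_pos.mp this
  have := ((S.mem_N).1 hp).2
  unfold adj at this
  omega

theorem es_eps_le {J : ℕ} {ε : ℝ} (hε : 0 < ε) (hεk : ε * S.k ≤ 1) {h : Finset V}
    (hh : h ∈ S.mid J) : ε ≤ 1 := by
  have h1 : (1 : ℝ) ≤ S.k := by exact_mod_cast S.es_k_pos hh
  nlinarith

theorem es_load_eq (ε : ℝ) (F : Finset (Finset V)) (g : Finset V) :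
    S.load ε F g = ∑ h' ∈ F, (if g ⊆ h' then S.wt ε h' else 0) := by
  unfold load Fw
  rw [Finset.sum_filter]

theorem es_load_nonneg {ε : ℝ} (hε : 0 < ε) (F : Finset (Finset V)) (g : Finset V) :
    0 ≤ S.load ε F g := S.Fw_nonneg hε.le _

theorem es_t_nonneg {J : ℕ} {ε t : ℝ} (hε : 0 < ε) (F : Finset (Finset V))
    (ht : ∀ g ∈ S.EP, S.load ε F g ≤ t) {h : Finset V} (hh : h ∈ S.mid J) : 0 ≤ t := by
  rw [S.mem_mid] at hh
  have : 0 < (S.N h).card := by omega
  obtain ⟨p, hp⟩ := Finset.card_pos.mp this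
  exact (S.es_load_nonneg hε F _).trans (ht _ (S.inter_mem_EP hp))

/-- second term. -/
theorem es_sum2 {J : ℕ} {ε t : ℝ} (hε : 0 < ε) (F : Finset (Finset V))
    (ht : ∀ g ∈ S.EP, S.load ε F g ≤ t) {h : Finset V} (hh : h ∈ S.mid J) :
    ∑ h' ∈ F, ∑ p ∈ S.N h, (if h ∩ p ⊆ h' then S.wt ε h' / ε else 0) ≤ J * t / ε := by
  have ht0 := S.es_t_nonneg hε F ht hh
  rw [Finset.sum_comm]
  have h1 : ∀ p ∈ S.N h, ∑ h' ∈ F, (if h ∩ p ⊆ h' then S.wt ε h' / ε else 0) ≤ t / ε := by
    intro p hp
    have h2 := ht _ (S.inter_mem_EP hp)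
    rw [S.es_load_eq] at h2
    calc ∑ h' ∈ F, (if h ∩ p ⊆ h' then S.wt ε h' / ε else 0) =
          (∑ h' ∈ F, (if h ∩ p ⊆ h' then S.wt ε h' else 0)) / ε := by
          rw [Finset.sum_div]
          refine Finset.sum_congr rfl fun x _ => ?_
          split_ifs <;> simp
      _ ≤ t / ε := div_le_div_of_nonneg_right h2 hε.le
  calc ∑ p ∈ S.N h, ∑ h' ∈ F, (if h ∩ p ⊆ h' then S.wt ε h' / ε else 0) ≤
        ∑ p ∈ S.N h, t / ε := Finset.sum_le_sum h1
    _ = (S.N h).card * (t / ε) := by rw [Finset.sum_const, nsmul_eq_mul]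
    _ ≤ J * (t / ε) := by
        apply mul_le_mul_of_nonneg_right _ (by positivity)
        exact_mod_cast ((S.mem_mid).1 hh).2.2
    _ = J * t / ε := by ring

/-- fourth term. -/
theorem es_sum4 {J : ℕ} (F : Finset (Finset V)) (hF : F ⊆ S.mid J) {h : Finset V}
    (hh : h ∈ S.mid J) :
    ∑ h' ∈ F, (if 2 ≤ (S.N h' ∩ S.N h).card then (1 : ℝ) else 0) ≤ 4 * (J : ℝ) ^ 2 := by
  rw [← Finset.sum_filter, Finset.sum_const, nsmul_eq_mul, mul_one]
  have h1 := S.card_tight_le F (hF.trans (S.mid_subset J)) (S.N h) (S.N_subset h)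
  have h2 := ((S.mem_mid).1 hh).2.2
  have h3 : 4 * (S.N h).card ^ 2 ≤ 4 * J ^ 2 :=
    Nat.mul_le_mul_left _ (Nat.pow_le_pow_left h2 2)
  exact_mod_cast h1.trans h3

/-- the case of a common neighbour through the common facet. -/
theorem es_case2 {J : ℕ} {ε : ℝ} (hε : 0 < ε) {h h' p : Finset V} (_ : h' ∈ S.mid J)
    (hadj : adj S.k h h') (hp : p ∈ S.N h) (hsub : h ∩ h' ⊆ p)
    (hi : S.N h' ∩ S.N h = {p}) :
    ε ^ (S.N h' \ S.N h).card ≤ ∑ p ∈ S.N h, (if h ∩ p ⊆ h' then S.wt ε h' / ε else 0) := by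
  have h1 : h ∩ p ⊆ h' := by
    have h2 : h ∩ h' = h ∩ p := by
      apply Finset.eq_of_subset_of_card_le
      · exact Finset.subset_inter Finset.inter_subset_left hsub
      · have h3 := ((S.mem_N).1 hp).2
        unfold adj at h3 hadj
        omega
    rw [← h2]
    exact Finset.inter_subset_right
  have h4 : ε ^ (S.N h' \ S.N h).card = S.wt ε h' / ε := by
    have h5 : (S.N h').card = (S.N h' \ S.N h).card + 1 := by
      have h6 := Finset.card_sdiff_add_card_inter (S.N h') (S.N h)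
      rw [hi, Finset.card_singleton] at h6
      exact h6.symm
    unfold wt
    rw [h5, pow_succ]
    field_simp
  rw [h4]
  have h7 : S.wt ε h' / ε = (if h ∩ p ⊆ h' then S.wt ε h' / ε else 0) := by rw [if_pos h1]
  refine h7.le.trans (Finset.single_le_sum
    (f := fun p => (if h ∩ p ⊆ h' then S.wt ε h' / ε else 0)) (fun q _ => ?_) hp)
  have := S.wt_nonneg hε.le h'
  split_ifs
  · positivity
  · exact le_refl _

theorem es_inter_cases {h h' : Finset V} (h2 : ¬ 2 ≤ (S.N h' ∩ S.N h).card) :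
    S.N h' ∩ S.N h = ∅ ∨ ∃ p, S.N h' ∩ S.N h = {p} := by
  have : (S.N h' ∩ S.N h).card = 0 ∨ (S.N h' ∩ S.N h).card = 1 := by omega
  rcases this with h | h
  · exact Or.inl (Finset.card_eq_zero.mp h)
  · exact Or.inr (Finset.card_eq_one.mp h)

theorem edge_sum {J : ℕ} {ε L t : ℝ} (hε : 0 < ε) (hεk : ε * S.k ≤ 1) (hL0 : 0 ≤ L)
    (F : Finset (Finset V))
    (hF : F ⊆ S.mid J) (hL : ∀ g : Finset V, g.card + 1 = S.k → g ∉ S.EP → S.load ε F g ≤ L)
    (ht : ∀ g ∈ S.EP, S.load ε F g ≤ t) {h : Finset V} (hh : h ∈ F) :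
    ∑ h' ∈ F, (if adj S.k h h' then ε ^ (S.N h ∪ S.N h').card else 0) ≤
      ε ^ (S.N h).card * (S.k * L + J * t / ε + J + 4 * (J : ℝ) ^ 2) := by
  have hm := hF hh
  have hk := S.es_k_pos hm
  have hε1 := S.es_eps_le hε hεk hm
  have hcard : h.card = S.k := S.unif h (S.mid_subset J hm)
  -- the first term
  have s1 : ∑ h' ∈ F, ∑ v ∈ h, (if h.erase v ∉ S.EP ∧ h.erase v ⊆ h' then S.wt ε h' else 0) ≤
      S.k * L := by
    rw [Finset.sum_comm]
    have h1 : ∀ v ∈ h, ∑ h' ∈ F, (if h.erase v ∉ S.EP ∧ h.erase v ⊆ h' then S.wt ε h' else 0) ≤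
        L := by
      intro v hv
      by_cases hE : h.erase v ∈ S.EP
      · have : ∑ h' ∈ F, (if h.erase v ∉ S.EP ∧ h.erase v ⊆ h' then S.wt ε h' else 0) = 0 := by
          refine Finset.sum_eq_zero fun x _ => ?_
          rw [if_neg]
          exact fun hx => hx.1 hE
        rw [this]
        exact hL0
      · have h2 := hL (h.erase v) (by rw [Finset.card_erase_of_mem hv, hcard]; omega) hE
        rw [S.es_load_eq] at h2
        refine le_trans (le_of_eq ?_) h2
        refine Finset.sum_congr rfl fun x _ => ?_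
        simp [hE]
    calc _ ≤ ∑ v ∈ h, L := Finset.sum_le_sum h1
      _ = S.k * L := by rw [Finset.sum_const, nsmul_eq_mul, hcard]
  have s2 := S.es_sum2 hε F ht hm
  have s3 : ∑ h' ∈ F, ∑ p ∈ S.N h, (if adj S.k h h' ∧ p ∈ S.N h' ∧ ¬ h ∩ h' ⊆ p then ε else 0) ≤
      (J : ℝ) := by
    rw [Finset.sum_comm]
    have h1 : ∀ p ∈ S.N h,
        ∑ h' ∈ F, (if adj S.k h h' ∧ p ∈ S.N h' ∧ ¬ h ∩ h' ⊆ p then ε else 0) ≤ 1 := by
      intro p hp
      rw [← Finset.sum_filter, Finset.sum_const, nsmul_eq_mul]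
      have h2 := S.card_col_le F (hF.trans (S.mid_subset J)) (S.mid_subset J hm) hp
      have h3 : ((F.filter (fun h' => adj S.k h h' ∧ p ∈ S.N h' ∧ ¬ h ∩ h' ⊆ p)).card : ℝ) ≤
          S.k := by exact_mod_cast h2
      calc _ ≤ (S.k : ℝ) * ε := mul_le_mul_of_nonneg_right h3 hε.le
        _ ≤ 1 := by linarith
    calc _ ≤ ∑ p ∈ S.N h, (1 : ℝ) := Finset.sum_le_sum h1
      _ = (S.N h).card := by rw [Finset.sum_const, nsmul_eq_mul, mul_one]
      _ ≤ J := by exact_mod_cast ((S.mem_mid).1 hm).2.2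
  have s4 := S.es_sum4 F hF hm
  have key : ∀ h' ∈ F, (if adj S.k h h' then ε ^ (S.N h ∪ S.N h').card else 0) ≤
      ε ^ (S.N h).card *
        (∑ v ∈ h, (if h.erase v ∉ S.EP ∧ h.erase v ⊆ h' then S.wt ε h' else 0) +
        ∑ p ∈ S.N h, (if h ∩ p ⊆ h' then S.wt ε h' / ε else 0) +
        ∑ p ∈ S.N h, (if adj S.k h h' ∧ p ∈ S.N h' ∧ ¬ h ∩ h' ⊆ p then ε else 0) +
        (if 2 ≤ (S.N h' ∩ S.N h).card then (1 : ℝ) else 0)) := by
    intro h' hh'
    have hm' := hF hh'
    have hw := S.wt_nonneg hε.le h'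
    have n1 : 0 ≤ ∑ v ∈ h, (if h.erase v ∉ S.EP ∧ h.erase v ⊆ h' then S.wt ε h' else 0) := by
      refine Finset.sum_nonneg fun v _ => ?_
      split_ifs
      · exact hw
      · exact le_refl _
    have n2 : 0 ≤ ∑ p ∈ S.N h, (if h ∩ p ⊆ h' then S.wt ε h' / ε else 0) := by
      refine Finset.sum_nonneg fun v _ => ?_
      split_ifs
      · positivity
      · exact le_refl _
    have n3 : 0 ≤ ∑ p ∈ S.N h,
        (if adj S.k h h' ∧ p ∈ S.N h' ∧ ¬ h ∩ h' ⊆ p then ε else 0) := by
      refine Finset.sum_nonneg fun v _ => ?_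
      split_ifs
      · exact hε.le
      · exact le_refl _
    have n4 : 0 ≤ (if 2 ≤ (S.N h' ∩ S.N h).card then (1 : ℝ) else 0) := by
      split_ifs
      · exact zero_le_one
      · exact le_refl _
    by_cases hadj : adj S.k h h'
    · rw [if_pos hadj, es_pow_union]
      apply mul_le_mul_of_nonneg_left _ (by positivity)
      by_cases h2 : 2 ≤ (S.N h' ∩ S.N h).card
      · have : ε ^ (S.N h' \ S.N h).card ≤ 1 := pow_le_one₀ hε.le hε1
        rw [if_pos h2]
        linarith
      · rcases S.es_inter_cases h2 with hi | ⟨p, hi⟩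
        · -- no common neighbour
          have hcd : ε ^ (S.N h' \ S.N h).card = S.wt ε h' := by
            unfold wt
            congr 2
            rw [Finset.sdiff_eq_self_iff_disjoint, Finset.disjoint_iff_inter_eq_empty]
            exact hi
          have hE : h ∩ h' ∉ S.EP := by
            intro hE
            obtain ⟨p, hp, _⟩ := S.common_of_mem_EP (S.mid_subset J hm) (S.mid_subset J hm')
              (S.not_mem_P_of_mid hm) (S.not_mem_P_of_mid hm') hadj hE
            rw [Finset.inter_comm, hi] at hp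
            simp at hp
          obtain ⟨v, hv⟩ := Finset.card_eq_one.1 (card_sdiff_of_adj hcard hadj)
          have hvm : v ∈ h \ h' := by rw [hv]; exact Finset.mem_singleton_self v
          have her : h.erase v = h ∩ h' := by
            ext x
            have hx : x ∈ h \ h' ↔ x = v := by rw [hv, Finset.mem_singleton]
            rw [Finset.mem_sdiff] at hx
            rw [Finset.mem_erase, Finset.mem_inter]
            constructor
            · rintro ⟨h1, h3⟩
              refine ⟨h3, ?_⟩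
              by_contra h4
              exact h1 (hx.1 ⟨h3, h4⟩)
            · rintro ⟨h1, h3⟩
              exact ⟨fun h4 => (hx.2 h4).2 h3, h1⟩
          have hle : S.wt ε h' ≤
              ∑ v ∈ h, (if h.erase v ∉ S.EP ∧ h.erase v ⊆ h' then S.wt ε h' else 0) := by
            have h7 : S.wt ε h' =
                (if h.erase v ∉ S.EP ∧ h.erase v ⊆ h' then S.wt ε h' else 0) := by
              rw [if_pos]
              rw [her]
              exact ⟨hE, Finset.inter_subset_right⟩
            refine h7.le.trans (Finset.single_le_sum (f := fun v =>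
              (if h.erase v ∉ S.EP ∧ h.erase v ⊆ h' then S.wt ε h' else 0))
              (fun q _ => ?_) (Finset.mem_sdiff.1 hvm).1)
            split_ifs
            · exact hw
            · exact le_refl _
          rw [hcd]
          linarith
        · have hpm : p ∈ S.N h' ∩ S.N h := by rw [hi]; exact Finset.mem_singleton_self p
          rw [Finset.mem_inter] at hpm
          by_cases hsub : h ∩ h' ⊆ p
          · have := S.es_case2 hε hm' hadj hpm.2 hsub hi
            linarith
          · have h5 : (S.N h').card = (S.N h' \ S.N h).card + 1 := by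
              have h6 := Finset.card_sdiff_add_card_inter (S.N h') (S.N h)
              rw [hi, Finset.card_singleton] at h6
              exact h6.symm
            have h6 : 1 ≤ (S.N h' \ S.N h).card := by
              have := ((S.mem_mid).1 hm').2.1
              omega
            have h7 : ε ^ (S.N h' \ S.N h).card ≤ ε := by
              calc ε ^ (S.N h' \ S.N h).card ≤ ε ^ 1 :=
                    pow_le_pow_of_le_one hε.le hε1 h6
                _ = ε := pow_one ε
            have h8 : ε ≤ ∑ p ∈ S.N h,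
                (if adj S.k h h' ∧ p ∈ S.N h' ∧ ¬ h ∩ h' ⊆ p then ε else 0) := by
              have h9 : ε = (if adj S.k h h' ∧ p ∈ S.N h' ∧ ¬ h ∩ h' ⊆ p then ε else 0) := by
                rw [if_pos ⟨hadj, hpm.1, hsub⟩]
              refine h9.le.trans (Finset.single_le_sum (f := fun p =>
                (if adj S.k h h' ∧ p ∈ S.N h' ∧ ¬ h ∩ h' ⊆ p then ε else 0))
                (fun q _ => ?_) hpm.2)
              split_ifs
              · exact hε.le
              · exact le_refl _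
            linarith
    · rw [if_neg hadj]
      apply mul_nonneg (by positivity)
      linarith
  refine (Finset.sum_le_sum key).trans ?_
  rw [← Finset.mul_sum]
  apply mul_le_mul_of_nonneg_left _ (by positivity)
  rw [Finset.sum_add_distrib, Finset.sum_add_distrib, Finset.sum_add_distrib]
  linarith

theorem edge_sum_EP {J : ℕ} {ε t : ℝ} (hε : 0 < ε) (hεk : ε * S.k ≤ 1) (F : Finset (Finset V))
    (hF : F ⊆ S.mid J) (ht : ∀ g ∈ S.EP, S.load ε F g ≤ t) {h : Finset V} (hh : h ∈ F) :
    ∑ h' ∈ F, (if adj S.k h h' ∧ h ∩ h' ∈ S.EP then ε ^ (S.N h ∪ S.N h').card else 0) ≤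
      ε ^ (S.N h).card * (J * t / ε + 4 * (J : ℝ) ^ 2) := by
  have hm := hF hh
  have hε1 := S.es_eps_le hε hεk hm
  have s2 := S.es_sum2 hε F ht hm
  have s4 := S.es_sum4 F hF hm
  have key : ∀ h' ∈ F,
      (if adj S.k h h' ∧ h ∩ h' ∈ S.EP then ε ^ (S.N h ∪ S.N h').card else 0) ≤
      ε ^ (S.N h).card *
        (∑ p ∈ S.N h, (if h ∩ p ⊆ h' then S.wt ε h' / ε else 0) +
        (if 2 ≤ (S.N h' ∩ S.N h).card then (1 : ℝ) else 0)) := by
    intro h' hh'
    have hm' := hF hh'
    have hw := S.wt_nonneg hε.le h'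
    have n2 : 0 ≤ ∑ p ∈ S.N h, (if h ∩ p ⊆ h' then S.wt ε h' / ε else 0) := by
      refine Finset.sum_nonneg fun v _ => ?_
      split_ifs
      · positivity
      · exact le_refl _
    have n4 : 0 ≤ (if 2 ≤ (S.N h' ∩ S.N h).card then (1 : ℝ) else 0) := by
      split_ifs
      · exact zero_le_one
      · exact le_refl _
    by_cases hadj : adj S.k h h' ∧ h ∩ h' ∈ S.EP
    · rw [if_pos hadj, es_pow_union]
      apply mul_le_mul_of_nonneg_left _ (by positivity)
      obtain ⟨p, hp, hsub, _⟩ := S.common_of_mem_EP (S.mid_subset J hm) (S.mid_subset J hm')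
        (S.not_mem_P_of_mid hm) (S.not_mem_P_of_mid hm') hadj.1 hadj.2
      rw [Finset.mem_inter] at hp
      by_cases h2 : 2 ≤ (S.N h' ∩ S.N h).card
      · have : ε ^ (S.N h' \ S.N h).card ≤ 1 := pow_le_one₀ hε.le hε1
        rw [if_pos h2]
        linarith
      · rcases S.es_inter_cases h2 with hi | ⟨q, hi⟩
        · exfalso
          have : p ∈ S.N h' ∩ S.N h := Finset.mem_inter.2 ⟨hp.2, hp.1⟩
          rw [hi] at this
          simp at this
        · have hpq : p = q := by
            have : p ∈ S.N h' ∩ S.N h := Finset.mem_inter.2 ⟨hp.2, hp.1⟩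
            rw [hi, Finset.mem_singleton] at this
            exact this
          subst hpq
          have := S.es_case2 hε hm' hadj.1 hp.1 hsub hi
          linarith
    · rw [if_neg hadj]
      apply mul_nonneg (by positivity)
      linarith
  refine (Finset.sum_le_sum key).trans ?_
  rw [← Finset.mul_sum]
  apply mul_le_mul_of_nonneg_left _ (by positivity)
  rw [Finset.sum_add_distrib]
  linarith

end Pool.Agent.H61.Simp.Setup
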