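/-
SIMP-3.  Expectation over a random subset.  MP_1da58b_co, owner helper61.

PROOFS.  `Ex_one`: `Finset.prod_add` with `f = p`, `g = 1 - p`.  `Ex_incl`: the same with
`g i = 0` for `i ∈ D` (the subsets `R` not containing `D` get weight `0`).
-/
import Mathlib

set_option autoImplicit false

namespace Pool.Agent.H61.Simp

variable {ι : Type*} [DecidableEq ι]

/-- expectation of `f R` for a random subset `R` of `s`, `i` is chosen with probability `p i` -/
noncomputable def Ex (s : Finset ι) (p : ι → ℝ) (f : Finset ι → ℝ) : ℝ :=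
  ∑ R ∈ s.powerset, (∏ i ∈ R, p i) * (∏ i ∈ s \ R, (1 - p i)) * f R

theorem Ex_mono (s : Finset ι) (p : ι → ℝ) (hp : ∀ i ∈ s, 0 ≤ p i ∧ p i ≤ 1)
    {f g : Finset ι → ℝ} (h : ∀ R ⊆ s, f R ≤ g R) : Ex s p f ≤ Ex s p g := by
  unfold Ex
  refine Finset.sum_le_sum (fun R hR => ?_)
  have hRs := Finset.mem_powerset.1 hR
  refine mul_le_mul_of_nonneg_left (h R hRs) (mul_nonneg ?_ ?_)
  · exact Finset.prod_nonneg (fun i hi => (hp i (hRs hi)).1)
  · exact Finset.prod_nonneg (fun i hi => by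
      have := (hp i (Finset.mem_sdiff.1 hi).1).2
      linarith)

theorem Ex_add (s : Finset ι) (p : ι → ℝ) (f g : Finset ι → ℝ) :
    Ex s p (fun R => f R + g R) = Ex s p f + Ex s p g := by
  unfold Ex
  rw [← Finset.sum_add_distrib]
  exact Finset.sum_congr rfl (fun R _ => by ring)

theorem Ex_sub (s : Finset ι) (p : ι → ℝ) (f g : Finset ι → ℝ) :
    Ex s p (fun R => f R - g R) = Ex s p f - Ex s p g := by
  unfold Ex
  rw [← Finset.sum_sub_distrib]
  exact Finset.sum_congr rfl (fun R _ => by ring)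

theorem Ex_const_mul (s : Finset ι) (p : ι → ℝ) (c : ℝ) (f : Finset ι → ℝ) :
    Ex s p (fun R => c * f R) = c * Ex s p f := by
  unfold Ex
  rw [Finset.mul_sum]
  exact Finset.sum_congr rfl (fun R _ => by ring)

theorem Ex_sum {κ : Type*} (s : Finset ι) (p : ι → ℝ) (T : Finset κ) (f : κ → Finset ι → ℝ) :
    Ex s p (fun R => ∑ j ∈ T, f j R) = ∑ j ∈ T, Ex s p (f j) := by
  unfold Ex
  rw [Finset.sum_comm]
  exact Finset.sum_congr rfl (fun R _ => by rw [Finset.mul_sum])

theorem Ex_incl (s : Finset ι) (p : ι → ℝ) {D : Finset ι} (hD : D ⊆ s) :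
    Ex s p (fun R => if D ⊆ R then 1 else 0) = ∏ i ∈ D, p i := by
  have h := Finset.prod_add p (fun i => if i ∈ D then (0 : ℝ) else 1 - p i) s
  have hl : ∏ i ∈ s, (p i + if i ∈ D then (0 : ℝ) else 1 - p i) = ∏ i ∈ D, p i := by
    rw [← Finset.prod_subset hD (f := fun i => p i + if i ∈ D then (0 : ℝ) else 1 - p i)]
    · exact Finset.prod_congr rfl (fun i hi => by simp [hi])
    · intro i _ hi
      simp [hi]
  rw [hl] at h
  rw [h]
  unfold Ex
  refine Finset.sum_congr rfl (fun R hR => ?_)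
  have hRs := Finset.mem_powerset.1 hR
  beta_reduce
  by_cases hDR : D ⊆ R
  · rw [if_pos hDR, mul_one]
    congr 1
    refine Finset.prod_congr rfl (fun i hi => ?_)
    have : i ∉ D := fun h => (Finset.mem_sdiff.1 hi).2 (hDR h)
    rw [if_neg this]
  · rw [if_neg hDR, mul_zero]
    obtain ⟨i, hiD, hiR⟩ := Finset.not_subset.1 hDR
    have h0 : ∏ i ∈ s \ R, (if i ∈ D then (0 : ℝ) else 1 - p i) = 0 :=
      Finset.prod_eq_zero (Finset.mem_sdiff.2 ⟨hD hiD, hiR⟩) (by simp [hiD])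
    rw [h0, mul_zero]

theorem Ex_one (s : Finset ι) (p : ι → ℝ) : Ex s p (fun _ => 1) = 1 := by
  have h := Ex_incl s p (Finset.empty_subset s)
  simpa using h

end Pool.Agent.H61.Simp
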