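/-
SIMP-4.  The abstract random exchange inequality.  MP_1da58b_co, owner helper61.

PROOF.  Index type `ι ⊕ κ`, ground set `s₀ = P.disjSum F`, probabilities `Sum.elim (fun _ => ε)
(fun _ => σ)`.  For `R₀ ⊆ s₀` put `Q = {p ∈ P | inl p ∈ R₀}` and
`S₀ = {h ∈ F | inr h ∈ R₀ and inl p ∈ R₀ for all p ∈ N h} = {h ∈ F | D h ⊆ R₀}`,
`D h = insert (inr h) ((N h).map inl)`.  `alon_del` applied to `S₀` gives an independent `I ⊆ S₀`, by
`hmax` `|I| ≤ |Q|`, so pointwise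
`s (∑_{h∈F} [D h ⊆ R₀] - (∑∑ [R h h'] [D h ∪ D h' ⊆ R₀]) / 2^s - ∑∑∑ ...) ≤ 16 * 2^s * ∑_{p∈P} [inl p ∈ R₀]`.
Take expectations (`Ex_mono`, `Ex_incl`): `P(D h ⊆ R₀) = σ ε^|N h|`,
`P(D h ∪ D h' ⊆ R₀) = σ^2 ε^|N h ∪ N h'|` for `h ≠ h'` (`R` is irreflexive), and similarly for
triples (the three are pairwise different).
-/
import Pool.Agent.H61.Simp.AlonDel
import Pool.Agent.H61.Simp.RandSub

set_option autoImplicit false

namespace Pool.Agent.H61.Simp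

section
variable {ι κ : Type*} [DecidableEq ι] [DecidableEq κ]

theorem disjSum_union (A B : Finset ι) (C D : Finset κ) :
    A.disjSum C ∪ B.disjSum D = (A ∪ B).disjSum (C ∪ D) := by
  ext x
  rcases x with x | x <;> simp

theorem disjSum_subset {A B : Finset ι} {C D : Finset κ} (h1 : A ⊆ B) (h2 : C ⊆ D) :
    A.disjSum C ⊆ B.disjSum D := Finset.disjSum_mono h1 h2

theorem Ex_zero (s : Finset ι) (p : ι → ℝ) : Ex s p (fun _ => 0) = 0 := by
  simp [Ex]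

theorem Ex_ite (s : Finset ι) (p : ι → ℝ) (q : Prop) [Decidable q] (f : Finset ι → ℝ) :
    Ex s p (fun R => if q then f R else 0) = if q then Ex s p f else 0 := by
  split_ifs with h
  · rfl
  · exact Ex_zero s p

theorem Ex_div (s : Finset ι) (p : ι → ℝ) (c : ℝ) (f : Finset ι → ℝ) :
    Ex s p (fun R => f R / c) = Ex s p f / c := by
  have h := Ex_const_mul s p c⁻¹ f
  have e1 : (fun R => f R / c) = fun R => c⁻¹ * f R := by
    funext R; rw [div_eq_inv_mul]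
  rw [e1, h, div_eq_inv_mul]

theorem prod_disjSum_const (A : Finset ι) (C : Finset κ) (ε σ : ℝ) :
    ∏ i ∈ A.disjSum C, (Sum.elim (fun _ => ε) (fun _ => σ) : ι ⊕ κ → ℝ) i =
      ε ^ A.card * σ ^ C.card := by
  rw [Finset.prod_disjSum]
  simp

theorem sum_filter_ite2 (F : Finset κ) (q : κ → Prop) [DecidablePred q] (R : κ → κ → Prop)
    [DecidableRel R] :
    (∑ x ∈ F.filter q, ∑ y ∈ F.filter q, if R x y then (1 : ℝ) else 0) =
      ∑ x ∈ F, ∑ y ∈ F, if R x y then (if q x ∧ q y then (1 : ℝ) else 0) else 0 := by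
  rw [Finset.sum_filter]
  refine Finset.sum_congr rfl fun x _ => ?_
  by_cases hx : q x
  · rw [if_pos hx, Finset.sum_filter]
    refine Finset.sum_congr rfl fun y _ => ?_
    by_cases hy : q y <;> simp [hx, hy]
  · simp [hx]

theorem sum_filter_ite3 (F : Finset κ) (q : κ → Prop) [DecidablePred q] (T : κ → κ → κ → Prop)
    [∀ x y z, Decidable (T x y z)] :
    (∑ x ∈ F.filter q, ∑ y ∈ F.filter q, ∑ z ∈ F.filter q, if T x y z then (1 : ℝ) else 0) =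
      ∑ x ∈ F, ∑ y ∈ F, ∑ z ∈ F,
        if T x y z then (if q x ∧ q y ∧ q z then (1 : ℝ) else 0) else 0 := by
  rw [Finset.sum_filter]
  refine Finset.sum_congr rfl fun x _ => ?_
  by_cases hx : q x
  · rw [if_pos hx, Finset.sum_filter]
    refine Finset.sum_congr rfl fun y _ => ?_
    by_cases hy : q y
    · rw [if_pos hy, Finset.sum_filter]
      refine Finset.sum_congr rfl fun z _ => ?_
      by_cases hz : q z <;> simp [hx, hy, hz]
    · simp [hy]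
  · simp [hx]

end

theorem rand_exchange {ι κ : Type*} [DecidableEq ι] [DecidableEq κ] (P : Finset ι)
    (F : Finset κ) (N : κ → Finset ι) (hN : ∀ h ∈ F, N h ⊆ P) (R : κ → κ → Prop)
    [DecidableRel R] (hsym : ∀ x y, R x y → R y x) (hirr : ∀ x, ¬ R x x)
    (hmax : ∀ Q ⊆ P, ∀ I ⊆ F, (∀ x ∈ I, ∀ y ∈ I, ¬ R x y) → (∀ x ∈ I, N x ⊆ Q) →
      I.card ≤ Q.card)
    (s : ℕ) (ε σ : ℝ) (hε : 0 ≤ ε) (hε1 : ε ≤ 1) (hσ : 0 ≤ σ) (hσ1 : σ ≤ 1) :
    (s : ℝ) * (∑ h ∈ F, σ * ε ^ (N h).card -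
      (∑ h ∈ F, ∑ h' ∈ F, if R h h' then σ ^ 2 * ε ^ (N h ∪ N h').card else 0) / 2 ^ s -
      ∑ h₁ ∈ F, ∑ h₂ ∈ F, ∑ h₃ ∈ F, if R h₁ h₂ ∧ R h₂ h₃ ∧ R h₁ h₃ then
        σ ^ 3 * ε ^ (N h₁ ∪ N h₂ ∪ N h₃).card else 0) ≤ 16 * 2 ^ s * (ε * P.card) := by
  classical
  set s₀ : Finset (ι ⊕ κ) := P.disjSum F with hs₀
  set p : ι ⊕ κ → ℝ := Sum.elim (fun _ => ε) (fun _ => σ) with hp
  have hp01 : ∀ i ∈ s₀, 0 ≤ p i ∧ p i ≤ 1 := by
    intro i _
    rcases i with i | i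
    · exact ⟨hε, hε1⟩
    · exact ⟨hσ, hσ1⟩
  set D : κ → Finset (ι ⊕ κ) := fun h => (N h).disjSum {h} with hD
  have hDs : ∀ h ∈ F, D h ⊆ s₀ := fun h hh =>
    disjSum_subset (hN h hh) (Finset.singleton_subset_iff.2 hh)
  -- the pointwise inequality
  have hpt : ∀ R₀ ⊆ s₀,
      (s : ℝ) * (∑ h ∈ F, (if D h ⊆ R₀ then (1 : ℝ) else 0) -
        (∑ h ∈ F, ∑ h' ∈ F, if R h h' then (if D h ∪ D h' ⊆ R₀ then (1 : ℝ) else 0) else 0) / 2 ^ s -
        ∑ h₁ ∈ F, ∑ h₂ ∈ F, ∑ h₃ ∈ F, if R h₁ h₂ ∧ R h₂ h₃ ∧ R h₁ h₃ then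
          (if D h₁ ∪ D h₂ ∪ D h₃ ⊆ R₀ then (1 : ℝ) else 0) else 0) ≤
      16 * 2 ^ s * ∑ i ∈ P, (if ({Sum.inl i} : Finset (ι ⊕ κ)) ⊆ R₀ then (1 : ℝ) else 0) := by
    intro R₀ _
    obtain ⟨I, hI, hIind, hIb⟩ := alon_del (F.filter fun h => D h ⊆ R₀) R hsym hirr s
    have hIQ : I.card ≤ (P.filter fun i => ({Sum.inl i} : Finset (ι ⊕ κ)) ⊆ R₀).card := by
      refine hmax _ (Finset.filter_subset _ _) I (hI.trans (Finset.filter_subset _ _)) hIind ?_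
      intro x hx i hi
      have hxF := hI hx
      rw [Finset.mem_filter] at hxF
      rw [Finset.mem_filter]
      refine ⟨hN x hxF.1 hi, ?_⟩
      rw [Finset.singleton_subset_iff]
      exact hxF.2 (by simp [hD, hi])
    have e1 : ((F.filter fun h => D h ⊆ R₀).card : ℝ) =
        ∑ h ∈ F, (if D h ⊆ R₀ then (1 : ℝ) else 0) := by
      rw [Finset.sum_ite, Finset.sum_const_zero, add_zero, Finset.sum_const, nsmul_eq_mul, mul_one]
    have e2 : ((P.filter fun i => ({Sum.inl i} : Finset (ι ⊕ κ)) ⊆ R₀).card : ℝ) =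
        ∑ i ∈ P, (if ({Sum.inl i} : Finset (ι ⊕ κ)) ⊆ R₀ then (1 : ℝ) else 0) := by
      rw [Finset.sum_ite, Finset.sum_const_zero, add_zero, Finset.sum_const, nsmul_eq_mul, mul_one]
    have e3 := sum_filter_ite2 F (fun h => D h ⊆ R₀) R
    have e4 := sum_filter_ite3 F (fun h => D h ⊆ R₀) (fun x y z => R x y ∧ R y z ∧ R x z)
    rw [e1, e3, e4] at hIb
    simp only [Finset.union_subset_iff, and_assoc]
    rw [← e2]
    refine hIb.trans ?_
    have hc : (I.card : ℝ) ≤ ((P.filter fun i => ({Sum.inl i} : Finset (ι ⊕ κ)) ⊆ R₀).card : ℝ) := by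
      exact_mod_cast hIQ
    exact mul_le_mul_of_nonneg_left hc (by positivity)
  have hE := Ex_mono s₀ p hp01 hpt
  rw [Ex_const_mul, Ex_sub, Ex_sub, Ex_div, Ex_sum, Ex_sum, Ex_sum, Ex_const_mul, Ex_sum] at hE
  have f1 : ∀ h ∈ F, Ex s₀ p (fun R₀ => if D h ⊆ R₀ then (1 : ℝ) else 0) = σ * ε ^ (N h).card := by
    intro h hh
    rw [Ex_incl s₀ p (hDs h hh), hD, hp, prod_disjSum_const]
    simp [mul_comm]
  have f2 : ∀ h ∈ F, Ex s₀ p (fun R₀ => ∑ h' ∈ F, if R h h' then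
      (if D h ∪ D h' ⊆ R₀ then (1 : ℝ) else 0) else 0) =
      ∑ h' ∈ F, if R h h' then σ ^ 2 * ε ^ (N h ∪ N h').card else 0 := by
    intro h hh
    rw [Ex_sum]
    refine Finset.sum_congr rfl fun h' hh' => ?_
    rw [Ex_ite]
    by_cases hR : R h h'
    · rw [if_pos hR, if_pos hR, Ex_incl s₀ p (Finset.union_subset (hDs h hh) (hDs h' hh'))]
      have hne : h ≠ h' := fun e => hirr h (by rw [← e] at hR; exact hR)
      rw [hD, hp]
      simp only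
      rw [disjSum_union, prod_disjSum_const]
      have : ({h} ∪ {h'} : Finset κ).card = 2 := by
        rw [Finset.singleton_union, Finset.card_pair hne]
      rw [this, mul_comm]
    · rw [if_neg hR, if_neg hR]
  have f3 : ∀ h₁ ∈ F, Ex s₀ p (fun R₀ => ∑ h₂ ∈ F, ∑ h₃ ∈ F, if R h₁ h₂ ∧ R h₂ h₃ ∧ R h₁ h₃ then
      (if D h₁ ∪ D h₂ ∪ D h₃ ⊆ R₀ then (1 : ℝ) else 0) else 0) =
      ∑ h₂ ∈ F, ∑ h₃ ∈ F, if R h₁ h₂ ∧ R h₂ h₃ ∧ R h₁ h₃ then
        σ ^ 3 * ε ^ (N h₁ ∪ N h₂ ∪ N h₃).card else 0 := by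
    intro h₁ hh₁
    rw [Ex_sum]
    refine Finset.sum_congr rfl fun h₂ hh₂ => ?_
    rw [Ex_sum]
    refine Finset.sum_congr rfl fun h₃ hh₃ => ?_
    rw [Ex_ite]
    by_cases hR : R h₁ h₂ ∧ R h₂ h₃ ∧ R h₁ h₃
    · rw [if_pos hR, if_pos hR, Ex_incl s₀ p (Finset.union_subset
        (Finset.union_subset (hDs h₁ hh₁) (hDs h₂ hh₂)) (hDs h₃ hh₃))]
      have h12 : h₁ ≠ h₂ := fun e => hirr h₁ (by have := hR.1; rw [← e] at this; exact this)
      have h23 : h₂ ≠ h₃ := fun e => hirr h₂ (by have := hR.2.1; rw [← e] at this; exact this)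
      have h13 : h₁ ≠ h₃ := fun e => hirr h₁ (by have := hR.2.2; rw [← e] at this; exact this)
      rw [hD, hp]
      simp only
      rw [disjSum_union, disjSum_union, prod_disjSum_const]
      have : ({h₁} ∪ {h₂} ∪ {h₃} : Finset κ).card = 3 := by
        rw [Finset.union_assoc, Finset.singleton_union, Finset.singleton_union,
          Finset.card_eq_three]
        exact ⟨h₁, h₂, h₃, h12, h13, h23, rfl⟩
      rw [this, mul_comm]
    · rw [if_neg hR, if_neg hR]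
  have f4 : ∀ i ∈ P, Ex s₀ p (fun R₀ => if ({Sum.inl i} : Finset (ι ⊕ κ)) ⊆ R₀ then (1 : ℝ) else 0)
      = ε := by
    intro i hi
    rw [Ex_incl s₀ p (by rw [Finset.singleton_subset_iff, hs₀]; simp [hi])]
    simp [hp]
  rw [Finset.sum_congr rfl f1, Finset.sum_congr rfl f2, Finset.sum_congr rfl f3,
    Finset.sum_congr rfl f4, Finset.sum_const, nsmul_eq_mul, mul_comm (P.card : ℝ) ε] at hE
  exact hE

end Pool.Agent.H61.Simp
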