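/-
SIMP-7.  The weighted number of triangles over an edge.  MP_1da58b_co, owner helper61.

Context as in EdgeSum.lean; `h₁, h₂ ∈ F` adjacent, `g = h₁ ∩ h₂`, `X = N h₁ ∪ N h₂`, `|X| ≤ 2J`.

PROOF.  For `h₃ ∈ F` adjacent to `h₁` and `h₂`:
`ε^|N h₁ ∪ N h₂ ∪ N h₃| = ε^|X| * ε^|N h₃ \ X|`.  By `tri_class` either `g ⊆ h₃` (row) or
`h₃ = (h₁ ∪ h₂).erase y`, `y ∈ g` (column).
* `|N h₃ ∩ X| ≥ 2` : at most `4 (2J)^2 = 16 J^2` such `h₃` (`card_tight_le`), weight `≤ 1`.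
* column, `|N h₃ ∩ X| ≤ 1`: at most `k` such `h₃` (choice of `y`), and `|N h₃ \ X| ≥ 1` because
  `|N h₃| ≥ 2`, so weight `≤ ε`: total `≤ k ε ≤ 1`.
* row, `g ∉ EP`, `N h₃ ∩ X = ∅`: total `≤ load ε F g ≤ L`.
* row, `g ∉ EP`, some `p ∈ N h₃ ∩ X`: `p ∈ N h₁` or `p ∈ N h₂`; `g ⊄ p`; by `row_unique`
  `h₃ = g ∪ (p \ h₁)` (resp. `h₂`), so at most `2J` such `h₃`, weight `≤ 1`.
* row, `g ∈ EP`, `g ⊆ p₀ ∈ P`: `p₀ ∈ N h₁ ∩ N h₂ ∩ N h₃`.  If `N h₃ ∩ X = {p₀}`: weight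
  `ε^(|N h₃| - 1)`, total `≤ load ε F g / ε ≤ t / ε`.  (Otherwise `|N h₃ ∩ X| ≥ 2`, first case.)
So the sum is at most `ε^|X| (1 + 16 J^2 + L + 2J + [g ∈ EP] t/ε)`.
-/
import Pool.Agent.H61.Simp.Geom2

set_option autoImplicit false

namespace Pool.Agent.H61.Simp.Setup

variable {V : Type} [DecidableEq V] (S : Setup V)

/-- the total of an indicator -/
theorem sum_ite_mem_le (F B : Finset (Finset V)) {c : ℝ} (hc : 0 ≤ c) :
    ∑ h ∈ F, (if h ∈ B then c else 0) ≤ B.card * c := by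
  rw [← Finset.sum_filter, Finset.sum_const, nsmul_eq_mul]
  refine mul_le_mul_of_nonneg_right ?_ hc
  have : (F.filter (fun h => h ∈ B)).card ≤ B.card :=
    Finset.card_le_card fun x hx => (Finset.mem_filter.1 hx).2
  exact_mod_cast this

theorem sum_ite_sub_eq (ε c : ℝ) (F : Finset (Finset V)) (g : Finset V) :
    ∑ h ∈ F, (if g ⊆ h then S.wt ε h * c else 0) = S.load ε F g * c := by
  unfold load Fw
  rw [← Finset.sum_filter, ← Finset.sum_mul]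

/-- the part with a facet outside `EP`, term by term -/
theorem tri_term {J : ℕ} {ε : ℝ} (hε : 0 < ε) (hε1 : ε ≤ 1) {h₁ h₂ h₃ : Finset V}
    (hh₁ : h₁ ∈ S.mid J) (hh₂ : h₂ ∈ S.mid J) (hh₃ : h₃ ∈ S.mid J) (h12 : adj S.k h₁ h₂)
    (h13 : adj S.k h₁ h₃) (h23 : adj S.k h₂ h₃) :
    ε ^ (S.N h₃ \ (S.N h₁ ∪ S.N h₂)).card ≤
      (if 2 ≤ (S.N h₃ ∩ (S.N h₁ ∪ S.N h₂)).card then (1 : ℝ) else 0) +
      (if h₃ ∈ (h₁ ∩ h₂).image (fun y => (h₁ ∪ h₂).erase y) then ε else 0) +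
      (if h₁ ∩ h₂ ⊆ h₃ then S.wt ε h₃ * (if h₁ ∩ h₂ ∈ S.EP then ε⁻¹ else 1) else 0) +
      (if h₃ ∈ (S.N h₁).image (fun p => (h₁ ∩ h₂) ∪ (p \ h₁)) ∪
        (S.N h₂).image (fun p => (h₁ ∩ h₂) ∪ (p \ h₂)) then
          (if h₁ ∩ h₂ ∈ S.EP then 0 else 1) else 0) := by
  set X := S.N h₁ ∪ S.N h₂ with hX
  set g := h₁ ∩ h₂ with hg
  have hgk : g.card + 1 = S.k := h12
  have m1 := S.mem_mid.1 hh₁
  have m2 := S.mem_mid.1 hh₂
  have m3 := S.mem_mid.1 hh₃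
  have k1 := S.unif h₁ m1.1
  have k2 := S.unif h₂ m2.1
  have k3 := S.unif h₃ m3.1
  have hdi := Finset.card_sdiff_add_card_inter (S.N h₃) X
  have hw0 : 0 ≤ S.wt ε h₃ := S.wt_nonneg hε.le h₃
  have t1 : (0 : ℝ) ≤ if 2 ≤ (S.N h₃ ∩ X).card then (1 : ℝ) else 0 := by split_ifs <;> norm_num
  have t2 : (0 : ℝ) ≤ if h₃ ∈ g.image (fun y => (h₁ ∪ h₂).erase y) then ε else 0 := by
    split_ifs
    · exact hε.le
    · exact le_rfl
  have t3 : (0 : ℝ) ≤ if g ⊆ h₃ then S.wt ε h₃ * (if g ∈ S.EP then ε⁻¹ else 1) else 0 := by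
    split_ifs <;> positivity
  have t4 : (0 : ℝ) ≤ if h₃ ∈ (S.N h₁).image (fun p => g ∪ (p \ h₁)) ∪
        (S.N h₂).image (fun p => g ∪ (p \ h₂)) then
          (if g ∈ S.EP then (0 : ℝ) else 1) else 0 := by
    split_ifs <;> norm_num
  have hpow1 : ε ^ (S.N h₃ \ X).card ≤ 1 := pow_le_one₀ hε.le hε1
  by_cases hi : 2 ≤ (S.N h₃ ∩ X).card
  · rw [if_pos hi]
    linarith
  have hd1 : 1 ≤ (S.N h₃ \ X).card := by omega
  have hpowε : ε ^ (S.N h₃ \ X).card ≤ ε := by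
    calc ε ^ (S.N h₃ \ X).card ≤ ε ^ 1 := pow_le_pow_of_le_one hε.le hε1 hd1
      _ = ε := pow_one ε
  rcases tri_class k1 k2 k3 h12 h13 h23 with hrow | ⟨y, hy, hcol⟩
  swap
  · rw [if_pos (show h₃ ∈ g.image (fun y => (h₁ ∪ h₂).erase y) from
      Finset.mem_image.2 ⟨y, hy, hcol.symm⟩)]
    linarith
  rw [if_pos (show g ⊆ h₃ from hrow)] at t3 ⊢
  have hg13 : h₁ ∩ h₃ = g := by
    symm
    apply Finset.eq_of_subset_of_card_le (Finset.subset_inter Finset.inter_subset_left hrow)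
    have h5 : (h₁ ∩ h₃).card + 1 = S.k := h13
    have h6 : (h₁ ∩ h₂).card + 1 = S.k := h12
    omega
  by_cases hE : g ∈ S.EP
  · rw [if_pos hE]
    obtain ⟨p, hp, -⟩ := S.common_of_mem_EP m1.1 m3.1 (S.not_mem_P_of_mid hh₁)
      (S.not_mem_P_of_mid hh₃) h13 (by rw [hg13]; exact hE)
    rw [Finset.mem_inter] at hp
    have hpi : p ∈ S.N h₃ ∩ X :=
      Finset.mem_inter.2 ⟨hp.2, Finset.mem_union_left _ hp.1⟩
    have hpos : 0 < (S.N h₃ ∩ X).card := Finset.card_pos.2 ⟨p, hpi⟩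
    have hd : (S.N h₃).card = (S.N h₃ \ X).card + 1 := by omega
    have hwt : S.wt ε h₃ * ε⁻¹ = ε ^ (S.N h₃ \ X).card := by
      unfold wt
      rw [hd, pow_succ, mul_assoc, mul_inv_cancel₀ hε.ne', mul_one]
    rw [hwt]
    rw [if_pos hE] at t4 ⊢
    linarith
  · rw [if_neg hE, mul_one] at t3 ⊢
    rw [if_neg hE] at t4 ⊢
    rcases Nat.eq_zero_or_pos (S.N h₃ ∩ X).card with h0 | hpos
    · have hd : (S.N h₃).card = (S.N h₃ \ X).card := by omega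
      have hwt : S.wt ε h₃ = ε ^ (S.N h₃ \ X).card := by
        unfold wt
        rw [hd]
      rw [hwt]
      linarith
    · obtain ⟨p, hp⟩ := Finset.card_pos.1 hpos
      rw [Finset.mem_inter, hX, Finset.mem_union] at hp
      have hpP : p ∈ S.P := S.N_subset _ hp.1
      have hgp : ¬ g ⊆ p := fun h => hE ((S.mem_EP hgk).2 ⟨p, hpP, h⟩)
      have hmem : h₃ ∈ (S.N h₁).image (fun p => g ∪ (p \ h₁)) ∪
          (S.N h₂).image (fun p => g ∪ (p \ h₂)) := by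
        rw [Finset.mem_union, Finset.mem_image, Finset.mem_image]
        rcases hp.2 with h1 | h2
        · left
          exact ⟨p, h1, (S.row_unique m1.1 m3.1 hgk Finset.inter_subset_left hrow
            (adj_ne k1 h13) hgp h1 hp.1).symm⟩
        · right
          exact ⟨p, h2, (S.row_unique m2.1 m3.1 hgk Finset.inter_subset_right hrow
            (adj_ne k2 h23) hgp h2 hp.1).symm⟩
      rw [if_pos hmem]
      linarith

theorem tri_sum {J : ℕ} {ε L t : ℝ} (hε : 0 < ε) (hεk : ε * S.k ≤ 1) (hL0 : 0 ≤ L)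
    (F : Finset (Finset V)) (hF : F ⊆ S.mid J)
    (hL : ∀ g : Finset V, g.card + 1 = S.k → g ∉ S.EP → S.load ε F g ≤ L)
    (ht : ∀ g ∈ S.EP, S.load ε F g ≤ t) {h₁ h₂ : Finset V} (hh₁ : h₁ ∈ F) (hh₂ : h₂ ∈ F)
    (hadj : adj S.k h₁ h₂) :
    ∑ h₃ ∈ F, (if adj S.k h₂ h₃ ∧ adj S.k h₁ h₃ then
      ε ^ (S.N h₁ ∪ S.N h₂ ∪ S.N h₃).card else 0) ≤
      ε ^ (S.N h₁ ∪ S.N h₂).card * (1 + 16 * (J : ℝ) ^ 2 + L + 2 * J +
        if h₁ ∩ h₂ ∈ S.EP then t / ε else 0) := by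
  have hFH : F ⊆ S.H := hF.trans (S.mid_subset J)
  have hgk : (h₁ ∩ h₂).card + 1 = S.k := hadj
  have hk1 : (1 : ℝ) ≤ S.k := by
    have : 1 ≤ S.k := by omega
    exact_mod_cast this
  have hε1 : ε ≤ 1 := by nlinarith
  have m1 := S.mem_mid.1 (hF hh₁)
  have m2 := S.mem_mid.1 (hF hh₂)
  set X := S.N h₁ ∪ S.N h₂ with hX
  set g := h₁ ∩ h₂ with hg
  have hXP : X ⊆ S.P := Finset.union_subset (S.N_subset _) (S.N_subset _)
  have hXc : X.card ≤ 2 * J := (Finset.card_union_le _ _).trans (by omega)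
  set B := g.image (fun y => (h₁ ∪ h₂).erase y) with hB
  set D := (S.N h₁).image (fun p => g ∪ (p \ h₁)) ∪ (S.N h₂).image (fun p => g ∪ (p \ h₂))
    with hD
  have hBc : (B.card : ℝ) ≤ S.k := by
    have : B.card ≤ S.k := Finset.card_image_le.trans (by omega)
    exact_mod_cast this
  have hDc : (D.card : ℝ) ≤ 2 * J := by
    have h1 : D.card ≤ 2 * J := by
      refine (Finset.card_union_le _ _).trans ?_
      have h2 : ((S.N h₁).image (fun p => g ∪ (p \ h₁))).card ≤ (S.N h₁).card :=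
        Finset.card_image_le
      have h3 : ((S.N h₂).image (fun p => g ∪ (p \ h₂))).card ≤ (S.N h₂).card :=
        Finset.card_image_le
      omega
    exact_mod_cast h1
  have hterm : ∀ h₃ ∈ F, (if adj S.k h₂ h₃ ∧ adj S.k h₁ h₃ then
      ε ^ (X ∪ S.N h₃).card else 0) ≤ ε ^ X.card *
      ((if 2 ≤ (S.N h₃ ∩ X).card then (1 : ℝ) else 0) +
      (if h₃ ∈ B then ε else 0) +
      (if g ⊆ h₃ then S.wt ε h₃ * (if g ∈ S.EP then ε⁻¹ else 1) else 0) +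
      (if h₃ ∈ D then (if g ∈ S.EP then 0 else 1) else 0)) := by
    intro h₃ hh₃
    have hm3 := hF hh₃
    have hp0 : (0 : ℝ) ≤ ε ^ X.card := pow_nonneg hε.le _
    by_cases hc : adj S.k h₂ h₃ ∧ adj S.k h₁ h₃
    · rw [if_pos hc]
      have hcard : (X ∪ S.N h₃).card = X.card + (S.N h₃ \ X).card := by
        have e1 := Finset.card_union_add_card_inter X (S.N h₃)
        have e2 := Finset.card_sdiff_add_card_inter (S.N h₃) X
        rw [Finset.inter_comm] at e2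
        omega
      rw [hcard, pow_add]
      exact mul_le_mul_of_nonneg_left
        (S.tri_term hε hε1 (hF hh₁) (hF hh₂) hm3 hadj hc.2 hc.1) hp0
    · rw [if_neg hc]
      refine mul_nonneg hp0 ?_
      have hw0 : 0 ≤ S.wt ε h₃ := S.wt_nonneg hε.le h₃
      refine add_nonneg (add_nonneg (add_nonneg ?_ ?_) ?_) ?_ <;> split_ifs <;> positivity
  refine (Finset.sum_le_sum hterm).trans ?_
  rw [← Finset.mul_sum]
  refine mul_le_mul_of_nonneg_left ?_ (pow_nonneg hε.le _)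
  rw [Finset.sum_add_distrib, Finset.sum_add_distrib, Finset.sum_add_distrib,
    S.sum_ite_sub_eq]
  have s1 : ∑ h ∈ F, (if 2 ≤ (S.N h ∩ X).card then (1 : ℝ) else 0) ≤ 16 * (J : ℝ) ^ 2 := by
    rw [← Finset.sum_filter, Finset.sum_const, nsmul_eq_mul, mul_one]
    have h1 := S.card_tight_le F hFH X hXP
    have h2 : 4 * X.card ^ 2 ≤ 16 * J ^ 2 := by nlinarith
    have h3 : (F.filter (fun h => 2 ≤ (S.N h ∩ X).card)).card ≤ 16 * J ^ 2 := h1.trans h2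
    exact_mod_cast h3
  have s2 : ∑ h ∈ F, (if h ∈ B then ε else 0) ≤ 1 := by
    refine (sum_ite_mem_le F B hε.le).trans ?_
    have : (B.card : ℝ) * ε ≤ S.k * ε := mul_le_mul_of_nonneg_right hBc hε.le
    linarith
  have hJ0 : (0 : ℝ) ≤ J := Nat.cast_nonneg J
  by_cases hE : g ∈ S.EP
  · simp only [if_pos hE]
    have s3 : S.load ε F g * ε⁻¹ ≤ t / ε := by
      rw [div_eq_mul_inv]
      exact mul_le_mul_of_nonneg_right (ht g hE) (inv_nonneg.2 hε.le)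
    have s4 : ∑ h ∈ F, (if h ∈ D then (0 : ℝ) else 0) = 0 := by simp
    rw [s4]
    linarith
  · simp only [if_neg hE]
    have s3 := hL g hgk hE
    have s4 : ∑ h ∈ F, (if h ∈ D then (1 : ℝ) else 0) ≤ 2 * J :=
      (sum_ite_mem_le F D zero_le_one).trans (by linarith)
    linarith

end Pool.Agent.H61.Simp.Setup
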