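/-
SIMP-8.  The exchange lemma.  MP_1da58b_co, owner helper61.

PROOF.  `rand_exchange` with `ι = κ = Finset V`, `P = S.P`, `N = S.N`, `R a b := a ≠ b ∧ adj S.k a b`,
`σ = 1 / (400 J^2 2^s)`.  `hmax`: `(S.P \ Q) ∪ I` is a packing in `H` (for `x ∈ I`,
`p ∈ S.P \ Q`: `p ∉ N x`), so `|P| - |Q| + |I| ≤ |P|` (`I` is disjoint from `P`,
`not_mem_P_of_mid`).
Write `W = Fw ε F = ∑_{h ∈ F} ε^|N h|`, `L = lam J s k`, `t = tt J s ε`, `x = 2^s`.  By `edge_sum` the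
double sum is `≤ σ² W K₁`, `K₁ = k L + J t / ε + J + 4 J²`, `σ K₁ ≤ x / 8`.
The triple sum: by `tri_sum` and `edge_sum_EP` it is at most
`σ³ W ((1 + 16 J² + L + 2J) K₁ + (t/ε) K₂) ≤ σ W / 50`, `K₂ = J t / ε + 4 J²`.
Hence `s σ W (1 - 1/8 - 1/50) ≤ 16 x ε |P|`.
-/
import Pool.Agent.H61.Simp.EdgeSum
import Pool.Agent.H61.Simp.TriSum
import Pool.Agent.H61.Simp.RandExch

set_option autoImplicit false

namespace Pool.Agent.H61.Simp.Setup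

variable {V : Type} [DecidableEq V] (S : Setup V)

/-- the exchange property of a maximum packing -/
theorem exchange_max {J : ℕ} (F : Finset (Finset V)) (hF : F ⊆ S.mid J) (Q : Finset (Finset V))
    (hQ : Q ⊆ S.P) (I : Finset (Finset V)) (hI : I ⊆ F)
    (hind : ∀ x ∈ I, ∀ y ∈ I, ¬ (x ≠ y ∧ adj S.k x y)) (hN : ∀ x ∈ I, S.N x ⊆ Q) :
    I.card ≤ Q.card := by
  have hIH : ∀ x ∈ I, x ∈ S.H := fun x hx => S.mid_subset J (hF (hI hx))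
  have hIP : ∀ x ∈ I, x ∉ S.P := fun x hx => S.not_mem_P_of_mid (hF (hI hx))
  have h1 : ((S.P \ Q) ∪ I).card ≤ S.P.card := by
    apply S.max
    · intro x hx
      rcases Finset.mem_union.1 hx with h | h
      · exact S.sub (Finset.mem_sdiff.1 h).1
      · exact hIH x h
    · intro p hp q hq hadj
      rcases Finset.mem_union.1 hp with h | h
      · rw [Finset.mem_sdiff] at h
        rcases Finset.mem_union.1 hq with h' | h'
        · exact S.pack p h.1 q (Finset.mem_sdiff.1 h').1 hadj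
        · exact h.2 (hN q h' (S.mem_N.2 ⟨h.1, (adj_comm _ _ _).1 hadj⟩))
      · rcases Finset.mem_union.1 hq with h' | h'
        · rw [Finset.mem_sdiff] at h'
          exact h'.2 (hN p h (S.mem_N.2 ⟨h'.1, hadj⟩))
        · exact hind p h q h' ⟨adj_ne (S.unif p (hIH p h)) hadj, hadj⟩
  have h2 : Disjoint (S.P \ Q) I := by
    rw [Finset.disjoint_left]
    intro x hx hxI
    exact hIP x hxI (Finset.mem_sdiff.1 hx).1
  rw [Finset.card_union_of_disjoint h2, Finset.card_sdiff_of_subset hQ] at h1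
  have h3 := Finset.card_le_card hQ
  omega

theorem exchange {J s : ℕ} (hJ : 2 ≤ J) (hs : 1 ≤ s) {ε : ℝ} (hε : 0 < ε) (hεk : ε * S.k ≤ 1)
    (hk : 25 * (J : ℝ) ^ 2 * 4 ^ s ≤ S.k) (F : Finset (Finset V)) (hF : F ⊆ S.mid J)
    (hL : ∀ g : Finset V, g.card + 1 = S.k → g ∉ S.EP → S.load ε F g ≤ lam J s S.k)
    (ht : ∀ g ∈ S.EP, S.load ε F g ≤ tt J s ε) :
    S.Fw ε F ≤ Rst J s * ε * S.P.card := by
  classical
  -- basic quantities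
  have hJ2 : (2 : ℝ) ≤ J := by exact_mod_cast hJ
  have hJ0 : (0 : ℝ) < J := by linarith
  have hs0 : (0 : ℝ) < s := by exact_mod_cast hs
  obtain ⟨x, hx⟩ : ∃ x : ℝ, x = 2 ^ s := ⟨_, rfl⟩
  have hx2 : 2 ≤ x := by
    rw [hx]
    calc (2 : ℝ) = 2 ^ 1 := by norm_num
      _ ≤ 2 ^ s := pow_le_pow_right₀ (by norm_num) hs
  have hx4 : (4 : ℝ) ^ s = x ^ 2 := by
    rw [hx, ← pow_mul, mul_comm, pow_mul]; norm_num
  rw [hx4] at hk
  have hk0 : (0 : ℝ) < S.k := lt_of_lt_of_le (by positivity) hk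
  have hk1 : (1 : ℝ) ≤ S.k := by
    have : 0 < S.k := by exact_mod_cast hk0
    exact_mod_cast this
  have hε1 : ε ≤ 1 := by
    calc ε = ε * 1 := (mul_one _).symm
      _ ≤ ε * S.k := mul_le_mul_of_nonneg_left hk1 hε.le
      _ ≤ 1 := hεk
  obtain ⟨σ, hσ⟩ : ∃ σ : ℝ, σ = 1 / (400 * J ^ 2 * x) := ⟨_, rfl⟩
  have hσ0 : 0 < σ := by rw [hσ]; positivity
  have hσ1 : σ ≤ 1 := by
    rw [hσ, div_le_one (by positivity)]
    have h4 : (4 : ℝ) ≤ J ^ 2 := by nlinarith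
    nlinarith
  obtain ⟨L, hLd⟩ : ∃ L : ℝ, L = lam J s S.k := ⟨_, rfl⟩
  obtain ⟨t, htd⟩ : ∃ t : ℝ, t = tt J s ε := ⟨_, rfl⟩
  rw [← hLd] at hL
  rw [← htd] at ht
  have hkL : S.k * L = 25 * J ^ 2 * x ^ 2 := by
    rw [hLd, lam, hx4]; field_simp
  have hL0 : 0 ≤ L := by rw [hLd, lam]; positivity
  have hL1 : L ≤ 1 := by
    rw [hLd, lam, hx4, div_le_one hk0]; exact hk
  have htε : t / ε = 25 * J * x := by
    rw [htd, tt, ← hx]; field_simp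
  obtain ⟨K₁, hK₁⟩ : ∃ K₁ : ℝ, K₁ = S.k * L + J * t / ε + J + 4 * (J : ℝ) ^ 2 := ⟨_, rfl⟩
  obtain ⟨K₂, hK₂⟩ : ∃ K₂ : ℝ, K₂ = J * t / ε + 4 * (J : ℝ) ^ 2 := ⟨_, rfl⟩
  obtain ⟨K₃, hK₃⟩ : ∃ K₃ : ℝ, K₃ = 1 + 16 * (J : ℝ) ^ 2 + L + 2 * J := ⟨_, rfl⟩
  have hJt : J * t / ε = 25 * J ^ 2 * x := by
    rw [mul_div_assoc, htε]; ring
  have hK₁0 : 0 ≤ K₁ := by rw [hK₁, hkL, hJt]; positivity
  have hK₂0 : 0 ≤ K₂ := by rw [hK₂, hJt]; positivity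
  have hK₃0 : 0 ≤ K₃ := by rw [hK₃]; positivity
  have hσJ : σ * (J ^ 2 * x) = 1 / 400 := by rw [hσ]; field_simp
  have hσK₁ : σ * K₁ ≤ x / 8 := by
    have h1 : K₁ ≤ J ^ 2 * x * (50 * x) := by
      rw [hK₁, hkL, hJt]
      have h2 : (J : ℝ) ≤ J ^ 2 := by nlinarith
      have h3 : 0 ≤ (J : ℝ) ^ 2 := by positivity
      nlinarith [mul_nonneg h3 (by linarith : (0 : ℝ) ≤ x - 2),
        mul_nonneg h3 (mul_nonneg (by linarith : (0 : ℝ) ≤ x) (by linarith : (0 : ℝ) ≤ x - 2))]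
    calc σ * K₁ ≤ σ * (J ^ 2 * x * (50 * x)) := mul_le_mul_of_nonneg_left h1 hσ0.le
      _ = σ * (J ^ 2 * x) * (50 * x) := by ring
      _ = x / 8 := by rw [hσJ]; ring
  have hσK₂ : σ * K₂ ≤ 27 / 400 := by
    have h1 : K₂ ≤ J ^ 2 * x * 27 := by
      rw [hK₂, hJt]
      have h3 : 0 ≤ (J : ℝ) ^ 2 := by positivity
      nlinarith [mul_nonneg h3 (by linarith : (0 : ℝ) ≤ x - 2)]
    calc σ * K₂ ≤ σ * (J ^ 2 * x * 27) := mul_le_mul_of_nonneg_left h1 hσ0.le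
      _ = σ * (J ^ 2 * x) * 27 := by ring
      _ = 27 / 400 := by rw [hσJ]; ring
  have hσK₃ : σ * K₃ * x ≤ 1 / 20 := by
    have h1 : K₃ ≤ 20 * J ^ 2 := by
      rw [hK₃]
      nlinarith
    calc σ * K₃ * x ≤ σ * (20 * J ^ 2) * x :=
          mul_le_mul_of_nonneg_right (mul_le_mul_of_nonneg_left h1 hσ0.le) (by linarith)
      _ = σ * (J ^ 2 * x) * 20 := by ring
      _ = 1 / 20 := by rw [hσJ]; ring
  have hσt : σ * (t / ε) ≤ 1 / 32 := by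
    have h1 : t / ε ≤ J ^ 2 * x * (25 / 2) := by
      rw [htε]
      have h5 : (J : ℝ) * x * 2 ≤ J * x * J :=
        mul_le_mul_of_nonneg_left hJ2 (mul_nonneg hJ0.le (by linarith))
      have h6 : (J : ℝ) ^ 2 * x * (25 / 2) = J * x * J * (25 / 2) := by ring
      rw [h6]
      linarith
    calc σ * (t / ε) ≤ σ * (J ^ 2 * x * (25 / 2)) := mul_le_mul_of_nonneg_left h1 hσ0.le
      _ = σ * (J ^ 2 * x) * (25 / 2) := by ring
      _ = 1 / 32 := by rw [hσJ]; ring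
  obtain ⟨W, hW⟩ : ∃ W : ℝ, W = S.Fw ε F := ⟨_, rfl⟩
  have hW0 : 0 ≤ W := by rw [hW]; exact S.Fw_nonneg hε.le F
  have hWs : ∑ h ∈ F, ε ^ (S.N h).card = W := by rw [hW]; rfl
  -- the edge sums
  have hE : ∑ h ∈ F, ∑ h' ∈ F, (if adj S.k h h' then ε ^ (S.N h ∪ S.N h').card else 0) ≤
      W * K₁ := by
    rw [← hWs, Finset.sum_mul, hK₁]
    exact Finset.sum_le_sum fun h hh => S.edge_sum hε hεk hL0 F hF hL ht hh
  have hE' : ∑ h ∈ F, ∑ h' ∈ F, (if adj S.k h h' ∧ h ∩ h' ∈ S.EP then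
      ε ^ (S.N h ∪ S.N h').card else 0) ≤ W * K₂ := by
    rw [← hWs, Finset.sum_mul, hK₂]
    exact Finset.sum_le_sum fun h hh => S.edge_sum_EP hε hεk F hF ht hh
  -- the double sum
  have hD2 : ∑ h ∈ F, ∑ h' ∈ F, (if h ≠ h' ∧ adj S.k h h' then
      σ ^ 2 * ε ^ (S.N h ∪ S.N h').card else 0) ≤ σ ^ 2 * (W * K₁) := by
    refine le_trans ?_ (mul_le_mul_of_nonneg_left hE (by positivity))
    rw [Finset.mul_sum]
    refine Finset.sum_le_sum fun h hh => ?_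
    rw [Finset.mul_sum]
    refine Finset.sum_le_sum fun h' hh' => ?_
    by_cases h1 : adj S.k h h'
    · rw [if_pos h1]
      split_ifs
      · exact le_rfl
      · positivity
    · rw [if_neg h1, if_neg (fun h2 => h1 h2.2), mul_zero]
  -- the triple sum
  have hD3 : ∑ h₁ ∈ F, ∑ h₂ ∈ F, ∑ h₃ ∈ F, (if (h₁ ≠ h₂ ∧ adj S.k h₁ h₂) ∧
      (h₂ ≠ h₃ ∧ adj S.k h₂ h₃) ∧ (h₁ ≠ h₃ ∧ adj S.k h₁ h₃) then
        σ ^ 3 * ε ^ (S.N h₁ ∪ S.N h₂ ∪ S.N h₃).card else 0) ≤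
      σ ^ 3 * (K₃ * (W * K₁) + t / ε * (W * K₂)) := by
    have h1 : ∀ h₁ ∈ F, ∀ h₂ ∈ F, ∑ h₃ ∈ F, (if (h₁ ≠ h₂ ∧ adj S.k h₁ h₂) ∧
      (h₂ ≠ h₃ ∧ adj S.k h₂ h₃) ∧ (h₁ ≠ h₃ ∧ adj S.k h₁ h₃) then
        σ ^ 3 * ε ^ (S.N h₁ ∪ S.N h₂ ∪ S.N h₃).card else 0) ≤
        σ ^ 3 * (K₃ * (if adj S.k h₁ h₂ then ε ^ (S.N h₁ ∪ S.N h₂).card else 0) +
          t / ε * (if adj S.k h₁ h₂ ∧ h₁ ∩ h₂ ∈ S.EP then
            ε ^ (S.N h₁ ∪ S.N h₂).card else 0)) := by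
      intro h₁ hh₁ h₂ hh₂
      by_cases hadj : adj S.k h₁ h₂
      · have h2 := S.tri_sum hε hεk hL0 F hF hL ht hh₁ hh₂ hadj
        have h3 : ∑ h₃ ∈ F, (if (h₁ ≠ h₂ ∧ adj S.k h₁ h₂) ∧
            (h₂ ≠ h₃ ∧ adj S.k h₂ h₃) ∧ (h₁ ≠ h₃ ∧ adj S.k h₁ h₃) then
              σ ^ 3 * ε ^ (S.N h₁ ∪ S.N h₂ ∪ S.N h₃).card else 0) ≤
            σ ^ 3 * ∑ h₃ ∈ F, (if adj S.k h₂ h₃ ∧ adj S.k h₁ h₃ then
              ε ^ (S.N h₁ ∪ S.N h₂ ∪ S.N h₃).card else 0) := by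
          rw [Finset.mul_sum]
          refine Finset.sum_le_sum fun h₃ hh₃ => ?_
          by_cases h4 : adj S.k h₂ h₃ ∧ adj S.k h₁ h₃
          · rw [if_pos h4]
            split_ifs
            · exact le_rfl
            · positivity
          · rw [if_neg h4, if_neg (fun h5 => h4 ⟨h5.2.1.2, h5.2.2.2⟩), mul_zero]
        refine h3.trans (le_trans (mul_le_mul_of_nonneg_left h2 (by positivity)) (le_of_eq ?_))
        rw [if_pos hadj, hK₃]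
        by_cases hEP : h₁ ∩ h₂ ∈ S.EP
        · rw [if_pos hEP, if_pos ⟨hadj, hEP⟩]; ring
        · rw [if_neg hEP, if_neg (fun h5 => hEP h5.2)]; ring
      · rw [if_neg hadj, if_neg (fun h5 => hadj h5.1), mul_zero, mul_zero, add_zero, mul_zero]
        refine le_of_eq (Finset.sum_eq_zero fun h₃ _ => ?_)
        rw [if_neg (fun h5 => hadj h5.1.2)]
    calc _ ≤ ∑ h₁ ∈ F, ∑ h₂ ∈ F, σ ^ 3 * (K₃ * (if adj S.k h₁ h₂ then
            ε ^ (S.N h₁ ∪ S.N h₂).card else 0) + t / ε * (if adj S.k h₁ h₂ ∧ h₁ ∩ h₂ ∈ S.EP then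
            ε ^ (S.N h₁ ∪ S.N h₂).card else 0)) :=
          Finset.sum_le_sum fun h₁ hh₁ => Finset.sum_le_sum fun h₂ hh₂ => h1 h₁ hh₁ h₂ hh₂
      _ = σ ^ 3 * (K₃ * (∑ h₁ ∈ F, ∑ h₂ ∈ F, (if adj S.k h₁ h₂ then
            ε ^ (S.N h₁ ∪ S.N h₂).card else 0)) +
            t / ε * (∑ h₁ ∈ F, ∑ h₂ ∈ F, (if adj S.k h₁ h₂ ∧ h₁ ∩ h₂ ∈ S.EP then
            ε ^ (S.N h₁ ∪ S.N h₂).card else 0))) := by
          simp only [Finset.mul_sum, mul_add, Finset.sum_add_distrib]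
      _ ≤ _ := by
          refine mul_le_mul_of_nonneg_left (add_le_add ?_ ?_) (by positivity)
          · exact mul_le_mul_of_nonneg_left hE hK₃0
          · exact mul_le_mul_of_nonneg_left hE' (by rw [htε]; positivity)
  -- the exchange inequality
  have hmain := rand_exchange S.P F S.N (fun h _ => S.N_subset h)
    (fun a b => a ≠ b ∧ adj S.k a b) (fun a b h => ⟨h.1.symm, (adj_comm _ _ _).1 h.2⟩)
    (fun a h => h.1 rfl) (fun Q hQ I hI hind hN => S.exchange_max F hF Q hQ I hI hind hN)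
    s ε σ hε.le hε1 hσ0.le hσ1
  rw [← hx, ← Finset.mul_sum, hWs] at hmain
  have hσW : 0 ≤ σ * W := mul_nonneg hσ0.le hW0
  have hb2 : σ ^ 2 * (W * K₁) / x ≤ σ * W / 8 := by
    rw [div_le_iff₀ (by linarith)]
    calc σ ^ 2 * (W * K₁) = σ * W * (σ * K₁) := by ring
      _ ≤ σ * W * (x / 8) := mul_le_mul_of_nonneg_left hσK₁ hσW
      _ = σ * W / 8 * x := by ring
  have hb3 : σ ^ 3 * (K₃ * (W * K₁) + t / ε * (W * K₂)) ≤ σ * W / 50 := by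
    have h1 : σ * K₃ * (σ * K₁) ≤ 1 / 160 := by
      calc σ * K₃ * (σ * K₁) ≤ σ * K₃ * (x / 8) :=
            mul_le_mul_of_nonneg_left hσK₁ (mul_nonneg hσ0.le hK₃0)
        _ = σ * K₃ * x / 8 := by ring
        _ ≤ (1 / 20) / 8 := div_le_div_of_nonneg_right hσK₃ (by norm_num)
        _ = 1 / 160 := by norm_num
    have h2 : σ * (t / ε) * (σ * K₂) ≤ 1 / 32 * (27 / 400) :=
      mul_le_mul hσt hσK₂ (mul_nonneg hσ0.le hK₂0) (by norm_num)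
    calc σ ^ 3 * (K₃ * (W * K₁) + t / ε * (W * K₂)) =
          σ * W * (σ * K₃ * (σ * K₁) + σ * (t / ε) * (σ * K₂)) := by ring
      _ ≤ σ * W * (1 / 160 + 1 / 32 * (27 / 400)) :=
          mul_le_mul_of_nonneg_left (add_le_add h1 h2) hσW
      _ ≤ σ * W / 50 := by linarith
  have hfin : (s : ℝ) * (σ * W * (171 / 200)) ≤ 16 * x * (ε * S.P.card) := by
    refine le_trans (mul_le_mul_of_nonneg_left ?_ hs0.le) hmain
    have h1 := div_le_div_of_nonneg_right hD2 (by linarith : (0 : ℝ) ≤ x)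
    linarith
  -- conclusion
  rw [← hW, Rst, hx4]
  have hεP : 0 ≤ ε * S.P.card := by positivity
  have h1 : σ * (400 * J ^ 2 * x) = 1 := by rw [hσ]; field_simp
  have h2 : (s : ℝ) * W = (s * (σ * W)) * (400 * J ^ 2 * x) := by
    calc (s : ℝ) * W = s * W * (σ * (400 * J ^ 2 * x)) := by rw [h1, mul_one]
      _ = _ := by ring
  have h3 : (s : ℝ) * (σ * W) ≤ (3200 / 171) * (x * (ε * S.P.card)) := by linarith
  have h4 : (s : ℝ) * W ≤ (3200 / 171) * (x * (ε * S.P.card)) * (400 * J ^ 2 * x) := by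
    rw [h2]
    exact mul_le_mul_of_nonneg_right h3 (by positivity)
  have h5 : (s : ℝ) * W ≤ 8800 * J ^ 2 * x ^ 2 * (ε * S.P.card) := by
    have h6 : 0 ≤ (J : ℝ) ^ 2 * x ^ 2 * (ε * S.P.card) := by positivity
    linarith
  calc W = (s * W) / s := by field_simp
    _ ≤ (8800 * J ^ 2 * x ^ 2 * (ε * S.P.card)) / s := div_le_div_of_nonneg_right h5 hs0.le
    _ = 8800 * J ^ 2 * x ^ 2 / s * ε * S.P.card := by ring

end Pool.Agent.H61.Simp.Setup
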