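/-
SIMP-9b.  Double counting of loads.  MP_1da58b_co, owner helper61.

PROOFS.  Exchange the order of summation: `∑_{g ∈ A} load ε M g = ∑_{h ∈ M} wt h * #{g ∈ A | g ⊆ h}`.
A `k`-set has `k` subsets of size `k - 1`.  A facet `g ∈ EP` with `g ⊆ h`, `h ∉ P`, is `h ∩ p` for a
`p ∈ N h` (`mem_EP`: `g ⊆ p`, `h ≠ p`, so `|h ∩ p| = k - 1` and `g = h ∩ p`), so there are at most
`|N h| ≤ J` of them.
-/
import Pool.Agent.H61.Simp.Geom

set_option autoImplicit false

namespace Pool.Agent.H61.Simp.Setup

variable {V : Type} [DecidableEq V] (S : Setup V)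

/-- exchange of the order of summation -/
theorem sum_load_aux {ε : ℝ} (hε : 0 ≤ ε) (M A : Finset (Finset V)) {c : ℝ}
    (hc : ∀ h ∈ M, ((A.filter (fun g => g ⊆ h)).card : ℝ) ≤ c) :
    ∑ g ∈ A, S.load ε M g ≤ c * S.Fw ε M := by
  have h1 : ∑ g ∈ A, S.load ε M g =
      ∑ h ∈ M, ((A.filter (fun g => g ⊆ h)).card : ℝ) * S.wt ε h := by
    unfold load Fw
    simp only [Finset.sum_filter]
    rw [Finset.sum_comm]
    refine Finset.sum_congr rfl fun h _ => ?_
    rw [← Finset.sum_filter, Finset.sum_const, nsmul_eq_mul]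
  rw [h1, Fw, Finset.mul_sum]
  exact Finset.sum_le_sum fun h hh => mul_le_mul_of_nonneg_right (hc h hh) (S.wt_nonneg hε h)

/-- double counting: the loads of the facets outside `EP` -/
theorem sum_load_le {ε : ℝ} (hε : 0 ≤ ε) (M : Finset (Finset V)) (hM : M ⊆ S.H)
    (A : Finset (Finset V)) (hA : ∀ g ∈ A, g.card + 1 = S.k) :
    ∑ g ∈ A, S.load ε M g ≤ S.k * S.Fw ε M := by
  refine S.sum_load_aux hε M A fun h hh => ?_
  have hk := S.unif h (hM hh)
  have h1 : A.filter (fun g => g ⊆ h) ⊆ h.powersetCard (S.k - 1) := by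
    intro g hg
    rw [Finset.mem_filter] at hg
    rw [Finset.mem_powersetCard]
    have := hA g hg.1
    exact ⟨hg.2, by omega⟩
  have h2 : (A.filter (fun g => g ⊆ h)).card ≤ S.k := by
    by_cases hk0 : S.k = 0
    · have : A.filter (fun g => g ⊆ h) = ∅ := by
        rw [Finset.eq_empty_iff_forall_notMem]
        intro g hg
        have := hA g (Finset.mem_filter.1 hg).1
        omega
      rw [this]
      simp
    · refine (Finset.card_le_card h1).trans ?_
      rw [Finset.card_powersetCard, hk]
      have h3 : S.k.choose (S.k - 1) = S.k := by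
        have h4 : S.k - 1 + 1 = S.k := by omega
        rw [← Nat.choose_symm (by omega : S.k - 1 ≤ S.k)]
        have : S.k - (S.k - 1) = 1 := by omega
        rw [this, Nat.choose_one_right]
      exact h3.le
  exact_mod_cast h2

/-- double counting: the loads of the facets in `EP` -/
theorem sum_load_EP_le {J : ℕ} {ε : ℝ} (hε : 0 ≤ ε) (M : Finset (Finset V)) (hM : M ⊆ S.mid J)
    (B : Finset (Finset V)) (hB : B ⊆ S.EP) :
    ∑ g ∈ B, S.load ε M g ≤ J * S.Fw ε M := by
  refine S.sum_load_aux hε M B fun h hh => ?_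
  have hm := hM hh
  have hhH := ((S.mem_mid).1 hm).1
  have hhJ := ((S.mem_mid).1 hm).2.2
  have hk := S.unif h hhH
  have hP := S.not_mem_P_of_mid hm
  have h1 : B.filter (fun g => g ⊆ h) ⊆ (S.N h).image (fun p => h ∩ p) := by
    intro g hg
    rw [Finset.mem_filter] at hg
    have hgE := hB hg.1
    have hgk := S.card_of_mem_EP hgE
    obtain ⟨p, hp, hgp⟩ := (S.mem_EP hgk).1 hgE
    have hpk := S.card_of_mem_P hp
    have hge : g = h ∩ p := by
      apply Finset.eq_of_subset_of_card_le (Finset.subset_inter hg.2 hgp)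
      have hlt : (h ∩ p).card < h.card := by
        apply Finset.card_lt_card
        refine ⟨Finset.inter_subset_left, fun hh1 => hP ?_⟩
        have : h = p := by
          apply Finset.eq_of_subset_of_card_le
          · intro x hx
            exact (Finset.mem_inter.1 (hh1 hx)).2
          · omega
        rw [this]; exact hp
      omega
    rw [Finset.mem_image]
    refine ⟨p, ?_, hge.symm⟩
    rw [S.mem_N]
    refine ⟨hp, ?_⟩
    unfold adj
    rw [← hge]
    exact hgk
  have h2 : (B.filter (fun g => g ⊆ h)).card ≤ J :=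
    (Finset.card_le_card h1).trans (Finset.card_image_le.trans hhJ)
  exact_mod_cast h2

end Pool.Agent.H61.Simp.Setup
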