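/-
SIMP-9.  The initial scale: maximal family with bounded loads.  MP_1da58b_co, owner helper61.

PROOF.  Let `L = lam J s k`, `t = tt J s ε`.  Among the subfamilies `M ⊆ S.mid J` with
`load ε M g ≤ L` for all `g ∉ EP` and `load ε M g ≤ t` for all `g ∈ EP` (the empty family is one)
choose one which is maximal with respect to inclusion.  By `exchange` `Fw ε M ≤ Rst * ε * |P| =: W`.
`A = {g | |g| + 1 = k, g ∉ EP, g ⊆ some h ∈ M, L / 2 < load ε M g}`,
`B = {g ∈ EP | t / 2 < load ε M g}`.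
Double counting: `∑_{g} load ε M g ≤ k * Fw ε M` (a clique has `k` facets), so
`|A| * L / 2 ≤ k W`;  `∑_{g ∈ EP} load ε M g = ∑_{h ∈ M} |N h| wt h ≤ J W` (the facets of `h` in `EP`
are the `h ∩ p`, `p ∈ N h`), so `|B| * t / 2 ≤ J W`.
If `h ∈ S.mid J` is not in `M`, then `M ∪ {h}` violates a bound: some facet `g ⊆ h` has
`load ε M g + ε^|N h| > L` (or `t`), `ε^|N h| ≤ ε^2 ≤ L/2` (`ε^2 ≤ ε/k..`: `L ≥ 25*4*4/k ≥ 2 ε^2`
because `ε k ≤ 1`, `ε ≤ 1`) and `ε^2 ≤ t/2`.  So `h` contains a member of `A ∪ B`.  Hence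
`avoid J (A ∪ B) ⊆ M`.
-/
import Pool.Agent.H61.Simp.Exchange
import Pool.Agent.H61.Simp.LoadSum

set_option autoImplicit false

namespace Pool.Agent.H61.Simp.Setup

variable {V : Type} [DecidableEq V] (S : Setup V)

theorem load_insert_le {ε : ℝ} (M : Finset (Finset V)) {h g : Finset V} (hh : h ∉ M) :
    S.load ε (insert h M) g = if g ⊆ h then S.load ε M g + S.wt ε h else S.load ε M g := by
  unfold load Fw
  rw [Finset.filter_insert]
  split_ifs with hg
  · rw [Finset.sum_insert (fun hc => hh (Finset.mem_filter.1 hc).1), add_comm]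
  · rfl

theorem clean0 {J s : ℕ} (hJ : 2 ≤ J) (hs : 1 ≤ s) {ε : ℝ} (hε : 0 < ε) (hεk : ε * S.k ≤ 1)
    (hk : 25 * (J : ℝ) ^ 2 * 4 ^ s ≤ S.k) :
    ∃ A B : Finset (Finset V), (∀ g ∈ A, g.card + 1 = S.k) ∧ B ⊆ S.EP ∧
      (A.card : ℝ) * lam J s S.k ≤ 2 * S.k * (Rst J s * ε * S.P.card) ∧
      (B.card : ℝ) * tt J s ε ≤ 2 * J * (Rst J s * ε * S.P.card) ∧
      S.Fw ε (S.avoid J (A ∪ B)) ≤ Rst J s * ε * S.P.card := by
  classical
  have hJ' : (2 : ℝ) ≤ J := by exact_mod_cast hJ
  have h4s : (4 : ℝ) ≤ 4 ^ s := by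
    calc (4 : ℝ) = 4 ^ 1 := (pow_one _).symm
      _ ≤ 4 ^ s := pow_le_pow_right₀ (by norm_num) hs
  have h2s : (2 : ℝ) ≤ 2 ^ s := by
    calc (2 : ℝ) = 2 ^ 1 := (pow_one _).symm
      _ ≤ 2 ^ s := pow_le_pow_right₀ (by norm_num) hs
  have hJ2 : (4 : ℝ) ≤ (J : ℝ) ^ 2 := by nlinarith
  have hnum : (400 : ℝ) ≤ 25 * (J : ℝ) ^ 2 * 4 ^ s := by nlinarith
  have hk1 : (1 : ℝ) ≤ S.k := by linarith
  have hk0 : (0 : ℝ) < S.k := by linarith
  have hεle : ε ≤ 1 := by nlinarith
  have hεinv : ε ≤ 1 / S.k := by rwa [le_div_iff₀ hk0]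
  set L := lam J s S.k with hL
  set t := tt J s ε with ht
  have hLpos : 0 < L := by rw [hL, lam]; positivity
  have htpos : 0 < t := by
    rw [ht, tt]
    have : (0 : ℝ) < J := by linarith
    positivity
  have hLe : ε ^ 2 ≤ L / 2 := by
    have h1 : (400 : ℝ) / S.k ≤ L := by
      rw [hL, lam]
      exact div_le_div_of_nonneg_right hnum hk0.le
    have h2 : (400 : ℝ) / S.k = 400 * (1 / S.k) := by ring
    have h3 : (0 : ℝ) < 1 / S.k := by positivity
    nlinarith
  have hte : ε ^ 2 ≤ t / 2 := by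
    have h1 : 25 * (J : ℝ) * 2 ^ s ≥ 100 := by nlinarith
    have h2 : 100 * ε ≤ t := by
      rw [ht, tt]
      exact mul_le_mul_of_nonneg_right h1 hε.le
    nlinarith
  have hwt : ∀ h ∈ S.mid J, S.wt ε h ≤ ε ^ 2 := by
    intro h hh
    unfold wt
    exact pow_le_pow_of_le_one hε.le hεle ((S.mem_mid).1 hh).2.1
  -- a maximal family
  set Bd : Finset (Finset V) → Prop := fun M =>
    (∀ g : Finset V, g.card + 1 = S.k → g ∉ S.EP → S.load ε M g ≤ L) ∧
      (∀ g ∈ S.EP, S.load ε M g ≤ t) with hBd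
  obtain ⟨M, hMm, hMmax⟩ := ((S.mid J).powerset.filter Bd).exists_max_image (fun M => M.card)
    ⟨∅, by
      rw [Finset.mem_filter, Finset.mem_powerset]
      refine ⟨Finset.empty_subset _, fun g _ _ => ?_, fun g _ => ?_⟩
      · simp only [load, Fw, Finset.filter_empty, Finset.sum_empty]
        exact hLpos.le
      · simp only [load, Fw, Finset.filter_empty, Finset.sum_empty]
        exact htpos.le⟩
  rw [Finset.mem_filter, Finset.mem_powerset] at hMm
  obtain ⟨hMsub, hM1, hM2⟩ := hMm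
  have hW := S.exchange hJ hs hε hεk hk M hMsub hM1 hM2
  set W := Rst J s * ε * S.P.card with hWdef
  set A := (M.biUnion fun h => h.powersetCard (S.k - 1)).filter
    (fun g => g.card + 1 = S.k ∧ g ∉ S.EP ∧ L / 2 < S.load ε M g) with hA
  set B := S.EP.filter (fun g => t / 2 < S.load ε M g) with hB
  have hAk : ∀ g ∈ A, g.card + 1 = S.k := fun g hg => (Finset.mem_filter.1 hg).2.1
  have hBE : B ⊆ S.EP := Finset.filter_subset _ _
  refine ⟨A, B, hAk, hBE, ?_, ?_, ?_⟩
  · have h1 := S.sum_load_le hε.le M (hMsub.trans (S.mid_subset J)) A hAk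
    have h2 : (A.card : ℝ) * (L / 2) ≤ ∑ g ∈ A, S.load ε M g := by
      rw [← nsmul_eq_mul]
      exact Finset.card_nsmul_le_sum _ _ _ fun g hg => (Finset.mem_filter.1 hg).2.2.2.le
    have h3 : (S.k : ℝ) * S.Fw ε M ≤ S.k * W := mul_le_mul_of_nonneg_left hW hk0.le
    linarith
  · have h1 := S.sum_load_EP_le hε.le M hMsub B hBE
    have h2 : (B.card : ℝ) * (t / 2) ≤ ∑ g ∈ B, S.load ε M g := by
      rw [← nsmul_eq_mul]
      exact Finset.card_nsmul_le_sum _ _ _ fun g hg => (Finset.mem_filter.1 hg).2.le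
    have h3 : (J : ℝ) * S.Fw ε M ≤ J * W := mul_le_mul_of_nonneg_left hW (by linarith)
    linarith
  · refine (S.Fw_mono hε.le ?_).trans hW
    intro h hh
    rw [S.mem_avoid] at hh
    obtain ⟨hhm, hhav⟩ := hh
    by_contra hhM
    have hnot : ¬ Bd (insert h M) := by
      intro hb
      have hmem : insert h M ∈ (S.mid J).powerset.filter Bd := by
        rw [Finset.mem_filter, Finset.mem_powerset]
        exact ⟨Finset.insert_subset hhm hMsub, hb⟩
      have := hMmax _ hmem
      rw [Finset.card_insert_of_notMem hhM] at this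
      omega
    have hw := hwt h hhm
    apply hnot
    refine ⟨fun g hg hgE => ?_, fun g hgE => ?_⟩
    · rw [S.load_insert_le M hhM]
      split_ifs with hgh
      · by_contra hcon
        rw [not_le] at hcon
        have hload : L / 2 < S.load ε M g := by linarith
        apply hhav g _ hgh
        refine Finset.mem_union_left _ ?_
        rw [hA, Finset.mem_filter]
        refine ⟨?_, hg, hgE, hload⟩
        have hne : (M.filter (fun h => g ⊆ h)).Nonempty := by
          rw [Finset.nonempty_iff_ne_empty]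
          intro he
          unfold load Fw at hload
          rw [he, Finset.sum_empty] at hload
          linarith
        obtain ⟨h', hh'⟩ := hne
        rw [Finset.mem_filter] at hh'
        rw [Finset.mem_biUnion]
        refine ⟨h', hh'.1, ?_⟩
        rw [Finset.mem_powersetCard]
        exact ⟨hh'.2, by omega⟩
      · exact hM1 g hg hgE
    · rw [S.load_insert_le M hhM]
      split_ifs with hgh
      · by_contra hcon
        rw [not_le] at hcon
        have hload : t / 2 < S.load ε M g := by linarith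
        apply hhav g _ hgh
        refine Finset.mem_union_right _ ?_
        rw [hB, Finset.mem_filter]
        exact ⟨hgE, hload⟩
      · exact hM2 g hgE

end Pool.Agent.H61.Simp.Setup
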