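/-
SIMP-10.  One greedy step of the cleaning.  MP_1da58b_co, owner helper61.

PROOF.  Let `W₀ = Fw ε (avoid J (A ∪ B))`, `L = lam J s k`, `t = tt J s ε`.  Consider the pairs
`(A', B')`, `A ⊆ A'`, `B ⊆ B' ⊆ EP`, all members of `A'` being `(k-1)`-subsets of members of `S.H` (or
in `A`), with
`Fw ε (avoid J (A' ∪ B')) + L * |A' \ A| + t * |B' \ B| ≤ W₀`; `(A, B)` is such a pair.  Choose one
with minimal `Fw` (finitely many pairs).  If `Fw ε (avoid ..) > Rst * ε * |P|`, then by `exchange`
some `(k-1)`-set `g ∉ EP` has load `> L` or some `g ∈ EP` has load `> t` (w.r.t. `avoid J (A' ∪ B')`);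
`g ∉ A' ∪ B'` because its load is positive.  Adding it to `A'` (or `B'`) decreases `Fw` by exactly the
load: contradiction.
-/
import Pool.Agent.H61.Simp.Exchange

set_option autoImplicit false

namespace Pool.Agent.H61.Simp.Setup

variable {V : Type} [DecidableEq V] (S : Setup V)

theorem avoid_insert (J : ℕ) (A : Finset (Finset V)) (g : Finset V) :
    S.avoid J (insert g A) = (S.avoid J A).filter (fun h => ¬ g ⊆ h) := by
  ext h
  rw [Finset.mem_filter, S.mem_avoid, S.mem_avoid]
  constructor
  · rintro ⟨h1, h2⟩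
    exact ⟨⟨h1, fun x hx => h2 x (Finset.mem_insert_of_mem hx)⟩,
      h2 g (Finset.mem_insert_self g A)⟩
  · rintro ⟨⟨h1, h2⟩, h3⟩
    refine ⟨h1, fun x hx => ?_⟩
    rw [Finset.mem_insert] at hx
    rcases hx with rfl | hx
    · exact h3
    · exact h2 x hx

theorem Fw_split (ε : ℝ) (F : Finset (Finset V)) (g : Finset V) :
    S.load ε F g + S.Fw ε (F.filter (fun h => ¬ g ⊆ h)) = S.Fw ε F := by
  unfold load Fw
  exact Finset.sum_filter_add_sum_filter_not F (fun h => g ⊆ h) _

theorem filter_nonempty_of_load_pos {ε : ℝ} {F : Finset (Finset V)} {g : Finset V}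
    (h : 0 < S.load ε F g) : ∃ x ∈ F, g ⊆ x := by
  by_contra hcon
  push Not at hcon
  have : F.filter (fun h => g ⊆ h) = ∅ := by
    rw [Finset.filter_eq_empty_iff]
    exact hcon
  unfold load Fw at h
  rw [this, Finset.sum_empty] at h
  exact lt_irrefl _ h

theorem card_sdiff_insert {A A' : Finset (Finset V)} {g : Finset V} (hg : g ∉ A)
    (hA : insert g A ⊆ A') : (A' \ A).card = (A' \ insert g A).card + 1 := by
  have h1 : A ⊆ insert g A := Finset.subset_insert g A
  have h2 := Finset.card_sdiff_add_card_eq_card (h1.trans hA)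
  have h3 := Finset.card_sdiff_add_card_eq_card hA
  rw [Finset.card_insert_of_notMem hg] at h3
  omega

theorem clean_step {J s : ℕ} (hJ : 2 ≤ J) (hs : 1 ≤ s) {ε : ℝ} (hε : 0 < ε)
    (hεk : ε * S.k ≤ 1) (hk : 25 * (J : ℝ) ^ 2 * 4 ^ s ≤ S.k) (A B : Finset (Finset V))
    (hA : ∀ g ∈ A, g.card + 1 = S.k) (hB : B ⊆ S.EP) :
    ∃ A' B' : Finset (Finset V), A ⊆ A' ∧ B ⊆ B' ∧ (∀ g ∈ A', g.card + 1 = S.k) ∧
      B' ⊆ S.EP ∧
      S.Fw ε (S.avoid J (A' ∪ B')) ≤ Rst J s * ε * S.P.card ∧
      ((A' \ A).card : ℝ) * lam J s S.k + ((B' \ B).card : ℝ) * tt J s ε ≤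
        S.Fw ε (S.avoid J (A ∪ B)) := by
  have hlam : 0 ≤ lam J s S.k := by unfold lam; positivity
  have htt : 0 ≤ tt J s ε := by unfold tt; positivity
  induction hn : (S.avoid J (A ∪ B)).card using Nat.strong_induction_on generalizing A B with
  | _ n ih =>
    subst hn
    by_cases hle : S.Fw ε (S.avoid J (A ∪ B)) ≤ Rst J s * ε * S.P.card
    · refine ⟨A, B, subset_rfl, subset_rfl, hA, hB, hle, ?_⟩
      rw [Finset.sdiff_self, Finset.sdiff_self, Finset.card_empty]
      simp only [Nat.cast_zero, zero_mul, add_zero]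
      exact S.Fw_nonneg hε.le _
    · have hex : (∃ g : Finset V, g.card + 1 = S.k ∧ g ∉ S.EP ∧
          lam J s S.k < S.load ε (S.avoid J (A ∪ B)) g) ∨
          ∃ g ∈ S.EP, tt J s ε < S.load ε (S.avoid J (A ∪ B)) g := by
        by_contra hcon
        rw [not_or] at hcon
        obtain ⟨hc1, hc2⟩ := hcon
        apply hle
        refine S.exchange hJ hs hε hεk hk (S.avoid J (A ∪ B)) (S.avoid_subset J _) ?_ ?_
        · intro g hg hgE
          by_contra h
          exact hc1 ⟨g, hg, hgE, not_le.1 h⟩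
        · intro g hg
          by_contra h
          exact hc2 ⟨g, hg, not_le.1 h⟩
      rcases hex with ⟨g, hgc, hgE, hg⟩ | ⟨g, hgE, hg⟩
      · obtain ⟨x, hx, hgx⟩ := S.filter_nonempty_of_load_pos (lt_of_le_of_lt hlam hg)
        have hgAB : g ∉ A ∪ B := fun h => (S.mem_avoid.1 hx).2 g h hgx
        have hgA : g ∉ A := fun h => hgAB (Finset.mem_union_left _ h)
        have hins : insert g A ∪ B = insert g (A ∪ B) := Finset.insert_union g A B
        have hlt : (S.avoid J (insert g A ∪ B)).card < (S.avoid J (A ∪ B)).card := by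
          rw [hins, S.avoid_insert]
          apply Finset.card_lt_card
          rw [Finset.filter_ssubset]
          exact ⟨x, hx, fun h => h hgx⟩
        obtain ⟨A', B', h1, h2, h3, h4, h5, h6⟩ := ih _ hlt (insert g A) B
          (fun y hy => by
            rw [Finset.mem_insert] at hy
            rcases hy with rfl | hy
            · exact hgc
            · exact hA y hy) hB rfl
        refine ⟨A', B', (Finset.subset_insert g A).trans h1, h2, h3, h4, h5, ?_⟩
        rw [card_sdiff_insert hgA h1]
        have hsp := S.Fw_split ε (S.avoid J (A ∪ B)) g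
        rw [← S.avoid_insert, ← hins] at hsp
        push_cast
        nlinarith [h6, hsp, hg]
      · obtain ⟨x, hx, hgx⟩ := S.filter_nonempty_of_load_pos (lt_of_le_of_lt htt hg)
        have hgAB : g ∉ A ∪ B := fun h => (S.mem_avoid.1 hx).2 g h hgx
        have hgB : g ∉ B := fun h => hgAB (Finset.mem_union_right _ h)
        have hins : A ∪ insert g B = insert g (A ∪ B) := Finset.union_insert g A B
        have hlt : (S.avoid J (A ∪ insert g B)).card < (S.avoid J (A ∪ B)).card := by
          rw [hins, S.avoid_insert]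
          apply Finset.card_lt_card
          rw [Finset.filter_ssubset]
          exact ⟨x, hx, fun h => h hgx⟩
        obtain ⟨A', B', h1, h2, h3, h4, h5, h6⟩ := ih _ hlt A (insert g B) hA
          (Finset.insert_subset hgE hB) rfl
        refine ⟨A', B', h1, (Finset.subset_insert g B).trans h2, h3, h4, h5, ?_⟩
        rw [card_sdiff_insert hgB h2]
        have hsp := S.Fw_split ε (S.avoid J (A ∪ B)) g
        rw [← S.avoid_insert, ← hins] at hsp
        push_cast
        nlinarith [h6, hsp, hg]

end Pool.Agent.H61.Simp.Setup
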