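/-
SIMP-11.  The cleaning lemma (all scales).  MP_1da58b_co, owner helper61.

PROOF.  `ν = |P|`, `Q = Rst J s`, `ρ = 1 + 1/J`, `δ_i = (a/k) ρ^(-i)`.  Start at `i = I` with
`I = J * (Nat.log 2 k + 1)`: `ρ^J ≥ 2` (Bernoulli), so `ρ^I ≥ 2^(log₂ k + 1) ≥ k`, `δ_I ≤ a/k²`.
`clean0` at `ε = δ_I` gives `(A_I, B_I)` with `Fw δ_I ≤ Q δ_I ν`,
`|A_I| ≤ 2 k Q δ_I ν / L`, `Q / L = 352 k / s`, so `|A_I| ≤ 704 k² δ_I ν / s ≤ 704 a ν / s`;
`|B_I| ≤ 2 J Q δ_I ν / t(δ_I) = 704 J² 2^s ν / s`  (`Q ε / tt J s ε = 352 J 2^s / s`).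
Step `i+1 → i`: `Fw δ_i F ≤ ρ^J Fw δ_{i+1} F` for `F ⊆ mid J` (each term `ε^j`, `j ≤ J`), so
`Fw δ_i (avoid ..) ≤ ρ^J Q δ_{i+1} ν = ρ^(J-1) Q δ_i ν ≤ 3 Q δ_i ν`  (`(1 + 1/J)^J ≤ e < 3`).
`clean_step` at `ε = δ_i` gives `(A_i, B_i)`; the number of new facets is
`|A_i \ A_{i+1}| ≤ 3 Q δ_i ν / L = 1056 k δ_i ν / s`, `|B_i \ B_{i+1}| ≤ 3 Q δ_i ν / t(δ_i) = 1056 J 2^s ν / s`.
Sum: `∑_{i<I} δ_i ≤ (a/k) / (1 - 1/ρ) = (J+1) a/k`.
`|A_0| ≤ (704 a + 1056 (J+1) a) ν / s ≤ 2000 (J+1) a ν / s`,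
`|B_0| ≤ (704 J² + 1056 J² (log₂ k + 1)) 2^s ν / s ≤ 2000 J² (log₂ k + 1) 2^s ν / s`.
Induct with the invariants `|A_i| ≤ (704 a + 1056 k ∑_{i ≤ l < I} δ_l) ν / s`, etc.
-/
import Pool.Agent.H61.Simp.Clean0
import Pool.Agent.H61.Simp.CleanStep

set_option autoImplicit false

namespace Pool.Agent.H61.Simp.Setup

variable {V : Type} [DecidableEq V] (S : Setup V)

/-- change of scale -/
theorem Fw_scale {J : ℕ} {ε ρ : ℝ} (hε : 0 < ε) (hρ : 1 ≤ ρ) (F : Finset (Finset V))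
    (hF : F ⊆ S.mid J) : S.Fw (ρ * ε) F ≤ ρ ^ J * S.Fw ε F := by
  unfold Fw
  rw [Finset.mul_sum]
  apply Finset.sum_le_sum
  intro h hh
  have h1 := (S.mem_mid.1 (hF hh)).2.2
  unfold wt
  rw [mul_pow]
  exact mul_le_mul_of_nonneg_right (pow_le_pow_right₀ hρ h1) (pow_nonneg hε.le _)

/-- the induction over the scales `ρ^j ε₀` -/
theorem clean_ind {J s : ℕ} (hJ : 2 ≤ J) (hs : 1 ≤ s) {a : ℝ}
    (hk : 25 * (J : ℝ) ^ 2 * 4 ^ s ≤ S.k) (ρ : ℝ) (hρ : ρ = 1 + 1 / (J : ℝ))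
    {ε₀ : ℝ} (hε₀ : 0 < ε₀) (h0 : ε₀ * (S.k : ℝ) ^ 2 ≤ a) (j : ℕ)
    (hj : ρ ^ j * ε₀ * S.k ≤ 1) :
    ∃ A B : Finset (Finset V), (∀ g ∈ A, g.card + 1 = S.k) ∧ B ⊆ S.EP ∧
      (A.card : ℝ) ≤ (704 * a + 1056 * (J + 1) * S.k * (ρ ^ j * ε₀)) / s * S.P.card ∧
      (B.card : ℝ) ≤ (704 * (J : ℝ) ^ 2 + 1056 * J * j) * 2 ^ s / s * S.P.card ∧
      S.Fw (ρ ^ j * ε₀) (S.avoid J (A ∪ B)) ≤ Rst J s * (ρ ^ j * ε₀) * S.P.card := by
  have hJ0 : (0 : ℝ) < J := by exact_mod_cast (by omega : 0 < J)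
  have hs0 : (0 : ℝ) < s := by exact_mod_cast (by omega : 0 < s)
  have h4 : (0 : ℝ) < 4 ^ s := by positivity
  have h2 : (0 : ℝ) < 2 ^ s := by positivity
  have h42 : (4 : ℝ) ^ s = 2 ^ s * 2 ^ s := by
    rw [← mul_pow]; norm_num
  have hk0 : (0 : ℝ) < S.k := lt_of_lt_of_le (by positivity) hk
  have hρ1 : 1 ≤ ρ := by
    rw [hρ]
    have : 0 < 1 / (J : ℝ) := by positivity
    linarith
  have hρ0 : 0 < ρ := by linarith
  have hν : (0 : ℝ) ≤ S.P.card := Nat.cast_nonneg _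
  have hρJ : ρ ^ J ≤ 3 := by
    have e1 : ρ ≤ Real.exp (1 / (J : ℝ)) := by
      rw [hρ, add_comm]
      exact Real.add_one_le_exp _
    calc ρ ^ J ≤ (Real.exp (1 / (J : ℝ))) ^ J := pow_le_pow_left₀ hρ0.le e1 J
      _ = Real.exp 1 := by
          rw [← Real.exp_nat_mul]
          congr 1
          field_simp
      _ ≤ 3 := Real.exp_one_lt_three.le
  have hρJ1 : (J + 1 : ℝ) * (ρ - 1) = ρ := by
    rw [hρ]; field_simp; ring
  induction j with
  | zero =>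
    have hεk : ε₀ * S.k ≤ 1 := by simpa using hj
    obtain ⟨A, B, hA, hB, hAc, hBc, hF⟩ := S.clean0 hJ hs hε₀ hεk hk
    refine ⟨A, B, hA, hB, ?_, ?_, ?_⟩
    · -- |A|
      have e1 : (A.card : ℝ) ≤ 704 * (ε₀ * (S.k : ℝ) ^ 2) / s * S.P.card := by
        have hL : 0 < lam J s S.k := by unfold lam; positivity
        have e2 : 2 * S.k * (Rst J s * ε₀ * S.P.card) =
            (704 * (ε₀ * (S.k : ℝ) ^ 2) / s * S.P.card) * lam J s S.k := by
          unfold Rst lam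
          field_simp
          ring
        rw [e2] at hAc
        exact le_of_mul_le_mul_right hAc hL
      refine e1.trans ?_
      apply mul_le_mul_of_nonneg_right _ hν
      apply div_le_div_of_nonneg_right _ hs0.le
      have : 0 ≤ 1056 * ((J : ℝ) + 1) * S.k * (ρ ^ 0 * ε₀) := by positivity
      linarith
    · have hL : 0 < tt J s ε₀ := by unfold tt; positivity
      have e2 : 2 * J * (Rst J s * ε₀ * S.P.card) =
          ((704 * (J : ℝ) ^ 2) * 2 ^ s / s * S.P.card) * tt J s ε₀ := by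
        unfold Rst tt
        rw [h42]
        field_simp
        ring
      rw [e2] at hBc
      have e3 := le_of_mul_le_mul_right hBc hL
      simpa using e3
    · simpa using hF
  | succ j ih =>
    set ε : ℝ := ρ ^ j * ε₀ with hεdef
    have hε : 0 < ε := by positivity
    have hpe : ρ ^ (j + 1) * ε₀ = ρ * ε := by rw [hεdef]; ring
    rw [hpe] at hj ⊢
    have hεle : ε ≤ ρ * ε := by nlinarith
    have hεk : ε * S.k ≤ 1 := le_trans (mul_le_mul_of_nonneg_right hεle hk0.le) hj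
    obtain ⟨A, B, hA, hB, hAc, hBc, hF⟩ := ih hεk
    have hρε : 0 < ρ * ε := by positivity
    obtain ⟨A', B', hAA, hBB, hA', hB', hF', hsum⟩ :=
      S.clean_step hJ hs hρε hj hk A B hA hB
    have hRst : 0 < Rst J s := by unfold Rst; positivity
    have hFw : S.Fw (ρ * ε) (S.avoid J (A ∪ B)) ≤ 3 * (Rst J s * (ρ * ε) * S.P.card) := by
      calc S.Fw (ρ * ε) (S.avoid J (A ∪ B))
          ≤ ρ ^ J * S.Fw ε (S.avoid J (A ∪ B)) :=
            S.Fw_scale hε hρ1 _ (S.avoid_subset _ _)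
        _ ≤ 3 * (Rst J s * ε * S.P.card) := by
            apply mul_le_mul hρJ hF (S.Fw_nonneg hε.le _) (by norm_num)
        _ ≤ 3 * (Rst J s * (ρ * ε) * S.P.card) := by
            apply mul_le_mul_of_nonneg_left _ (by norm_num)
            apply mul_le_mul_of_nonneg_right _ hν
            exact mul_le_mul_of_nonneg_left hεle hRst.le
    have hL : 0 < lam J s S.k := by unfold lam; positivity
    have ht : 0 < tt J s (ρ * ε) := by unfold tt; positivity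
    have hdA : ((A' \ A).card : ℝ) ≤ 1056 * S.k * (ρ * ε) / s * S.P.card := by
      have e0 : 0 ≤ ((B' \ B).card : ℝ) * tt J s (ρ * ε) := by positivity
      have e2 : 3 * (Rst J s * (ρ * ε) * S.P.card) =
          (1056 * S.k * (ρ * ε) / s * S.P.card) * lam J s S.k := by
        unfold Rst lam
        field_simp
        ring
      have e1 : ((A' \ A).card : ℝ) * lam J s S.k ≤
          (1056 * S.k * (ρ * ε) / s * S.P.card) * lam J s S.k := by
        rw [← e2]; linarith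
      exact le_of_mul_le_mul_right e1 hL
    have hdB : ((B' \ B).card : ℝ) ≤ 1056 * J * 2 ^ s / s * S.P.card := by
      have e0 : 0 ≤ ((A' \ A).card : ℝ) * lam J s S.k := by positivity
      have e2 : 3 * (Rst J s * (ρ * ε) * S.P.card) =
          (1056 * J * 2 ^ s / s * S.P.card) * tt J s (ρ * ε) := by
        unfold Rst tt
        rw [h42]
        field_simp
        ring
      have e1 : ((B' \ B).card : ℝ) * tt J s (ρ * ε) ≤
          (1056 * J * 2 ^ s / s * S.P.card) * tt J s (ρ * ε) := by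
        rw [← e2]; linarith
      exact le_of_mul_le_mul_right e1 ht
    have hcA : (A'.card : ℝ) = A.card + (A' \ A).card := by
      have := Finset.card_sdiff_add_card_eq_card hAA
      have h' : ((A' \ A).card : ℝ) + A.card = A'.card := by exact_mod_cast this
      linarith
    have hcB : (B'.card : ℝ) = B.card + (B' \ B).card := by
      have := Finset.card_sdiff_add_card_eq_card hBB
      have h' : ((B' \ B).card : ℝ) + B.card = B'.card := by exact_mod_cast this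
      linarith
    refine ⟨A', B', hA', hB', ?_, ?_, hF'⟩
    · have e1 : (704 * a + 1056 * (J + 1) * S.k * (ρ * ε)) / s * S.P.card =
          (704 * a + 1056 * (J + 1) * S.k * ε) / s * S.P.card +
            1056 * S.k * (ρ * ε) / s * S.P.card := by
        have e2 : (J + 1 : ℝ) * (ρ * ε) = (J + 1) * ε + ρ * ε := by
          linear_combination ε * hρJ1
        have e3 : 1056 * (J + 1) * S.k * (ρ * ε) = 1056 * S.k * ((J + 1 : ℝ) * (ρ * ε)) := by ring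
        rw [e3, e2]
        ring
      rw [hcA, e1]
      exact add_le_add hAc hdA
    · have e1 : (704 * (J : ℝ) ^ 2 + 1056 * J * ((j + 1 : ℕ) : ℝ)) * 2 ^ s / s * S.P.card =
          (704 * (J : ℝ) ^ 2 + 1056 * J * j) * 2 ^ s / s * S.P.card +
            1056 * J * 2 ^ s / s * S.P.card := by
        push_cast; ring
      rw [hcB, e1]
      exact add_le_add hBc hdB

theorem clean {J s : ℕ} (hJ : 2 ≤ J) (hs : 1 ≤ s) {a : ℝ} (ha : 0 < a) (ha1 : a ≤ 1)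
    (hk : 25 * (J : ℝ) ^ 2 * 4 ^ s ≤ S.k) :
    ∃ A B : Finset (Finset V), (∀ g ∈ A, g.card + 1 = S.k) ∧ B ⊆ S.EP ∧
      (A.card : ℝ) ≤ 2000 * (J + 1) * a / s * S.P.card ∧
      (B.card : ℝ) ≤ 2000 * (J : ℝ) ^ 2 * (Nat.log 2 S.k + 1) * 2 ^ s / s * S.P.card ∧
      S.Fw (a / S.k) (S.avoid J (A ∪ B)) ≤ Rst J s * (a / S.k) * S.P.card := by
  have hJ0 : (0 : ℝ) < J := by exact_mod_cast (by omega : 0 < J)
  have hs0 : (0 : ℝ) < s := by exact_mod_cast (by omega : 0 < s)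
  have h4 : (0 : ℝ) < 4 ^ s := by positivity
  have h2 : (0 : ℝ) < 2 ^ s := by positivity
  have hk0 : (0 : ℝ) < S.k := lt_of_lt_of_le (by positivity) hk
  have hν : (0 : ℝ) ≤ S.P.card := Nat.cast_nonneg _
  obtain ⟨ρ, hρ⟩ : ∃ ρ : ℝ, ρ = 1 + 1 / (J : ℝ) := ⟨_, rfl⟩
  have hρ0 : 0 < ρ := by rw [hρ]; positivity
  have hρJ : 2 ≤ ρ ^ J := by
    have e1 : (1 : ℝ) + (J : ℝ) * (1 / (J : ℝ)) ≤ (1 + 1 / (J : ℝ)) ^ J :=
      one_add_mul_le_pow (by
        have : 0 < 1 / (J : ℝ) := by positivity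
        linarith) J
    rw [hρ]
    have e2 : (1 : ℝ) + (J : ℝ) * (1 / (J : ℝ)) = 2 := by
      field_simp; norm_num
    linarith
  obtain ⟨I, hI⟩ : ∃ I : ℕ, I = J * (Nat.log 2 S.k + 1) := ⟨_, rfl⟩
  have hρI : (S.k : ℝ) ≤ ρ ^ I := by
    calc (S.k : ℝ) ≤ (2 : ℝ) ^ (Nat.log 2 S.k + 1) := by
          have := (Nat.lt_pow_succ_log_self (b := 2) (by norm_num) S.k).le
          exact_mod_cast this
      _ ≤ (ρ ^ J) ^ (Nat.log 2 S.k + 1) := pow_le_pow_left₀ (by norm_num) hρJ _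
      _ = ρ ^ I := by rw [hI, pow_mul]
  have hρI0 : 0 < ρ ^ I := by positivity
  obtain ⟨ε₀, hε₀⟩ : ∃ ε₀ : ℝ, ε₀ = a / S.k / ρ ^ I := ⟨_, rfl⟩
  have hpos : 0 < ε₀ := by rw [hε₀]; positivity
  have hmul : ρ ^ I * ε₀ = a / S.k := by
    rw [hε₀]; field_simp
  have h0 : ε₀ * (S.k : ℝ) ^ 2 ≤ a := by
    have e1 : ε₀ * (S.k : ℝ) ^ 2 = a * (S.k / ρ ^ I) := by
      rw [hε₀]; field_simp
    rw [e1]
    have e2 : S.k / ρ ^ I ≤ 1 := by
      rw [div_le_one hρI0]; exact hρI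
    nlinarith
  have hj : ρ ^ I * ε₀ * S.k ≤ 1 := by
    rw [hmul, div_mul_cancel₀ _ hk0.ne']
    exact ha1
  obtain ⟨A, B, hA, hB, hAc, hBc, hF⟩ := S.clean_ind hJ hs hk ρ hρ hpos h0 I hj
  rw [hmul] at hAc hF
  refine ⟨A, B, hA, hB, hAc.trans ?_, hBc.trans ?_, hF⟩
  · apply mul_le_mul_of_nonneg_right _ hν
    apply div_le_div_of_nonneg_right _ hs0.le
    have e1 : 1056 * (J + 1) * S.k * (a / S.k) = 1056 * (J + 1) * a := by
      field_simp
    rw [e1]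
    nlinarith [mul_pos hJ0 ha]
  · apply mul_le_mul_of_nonneg_right _ hν
    apply div_le_div_of_nonneg_right _ hs0.le
    apply mul_le_mul_of_nonneg_right _ h2.le
    rw [hI]
    push_cast
    have hl : (0 : ℝ) ≤ (Nat.log 2 S.k : ℝ) := Nat.cast_nonneg _
    have hJJ : 0 < (J : ℝ) ^ 2 := by positivity
    nlinarith [mul_nonneg hJJ.le hl]

end Pool.Agent.H61.Simp.Setup
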