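/-
SIMP-12.  Counting colourings `χ : V → ZMod m`.  MP_1da58b_co, owner helper61.

PROOFS.  Let `n = |V|`.
* `card_col_zero`: fix `v₀ ∈ f`; for given values outside `v₀` exactly one value of `χ v₀` makes the
  sum `0` (bijection `{χ | col χ f = 0} × ZMod m ≃ (V → ZMod m)`, `(χ, c) ↦ χ + c at v₀`).
* `card_mono`: for a set `Y`, `|Y| = J`, `Y ⊂ f`, `v₀ ∈ f \ Y`, `y₀ ∈ Y`: the number of `χ` constant on
  `Y` with `col χ f = 0` is `m^(n - J)`: the values on `Y \ {y₀}` and at `v₀` are determined by the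
  others.  If some colour has multiplicity `≥ J` in `f` there is such a `Y` (`J`-subset of the colour
  class), so sum over the `J`-subsets of `f`.
* `card_forced`: `X ⊂ h`, `X ≠ h`: choose `v₀ ∈ h \ X`, `x₀ ∈ X` (if `X` is nonempty); `χ x = col χ h`
  for all `x ∈ X` : the values at `X \ {x₀}` equal that at `x₀` and the value at `v₀` is then
  determined; so the number is `m^(n - |X|)`.
A convenient way for all three: an injection from `{χ | ...} × (X → ZMod m)` into `(V → ZMod m)`.
-/
import Mathlib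

set_option autoImplicit false

namespace Pool.Agent.H61.Simp

section
variable {V : Type} [DecidableEq V] {m : ℕ}

/-- colour sum -/
def col (χ : V → ZMod m) (f : Finset V) : ZMod m := ∑ v ∈ f, χ v

/-- `f` has colour sum `0` and all colour multiplicities in `f` are `< J` -/
def good (J : ℕ) (χ : V → ZMod m) (f : Finset V) : Prop :=
  col χ f = 0 ∧ ∀ c : ZMod m, (f.filter (fun v => χ v = c)).card < J

instance [NeZero m] (J : ℕ) (χ : V → ZMod m) : DecidablePred (good J χ) := fun _ =>
  inferInstanceAs (Decidable (_ ∧ _))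

end

variable {V : Type} [Fintype V] [DecidableEq V] {m : ℕ} [NeZero m]

omit [Fintype V] [NeZero m] in
/-- moving the value at `v₀ ∈ f` by `c` moves the colour sum by `c` -/
theorem col_update (χ : V → ZMod m) (f : Finset V) (v₀ : V) (hv : v₀ ∈ f) (c : ZMod m) :
    col (Function.update χ v₀ c) f = col χ f - χ v₀ + c := by
  unfold col
  rw [Finset.sum_update_of_mem hv, ← Finset.add_sum_erase f χ hv, Finset.sdiff_singleton_eq_erase]
  ring

theorem card_fiber_eq (f : Finset V) (v₀ : V) (hv : v₀ ∈ f) (c : ZMod m) :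
    (Finset.univ.filter (fun χ : V → ZMod m => col χ f = c)).card =
      (Finset.univ.filter (fun χ : V → ZMod m => col χ f = 0)).card := by
  refine Finset.card_nbij' (fun χ => Function.update χ v₀ (χ v₀ - c))
    (fun χ => Function.update χ v₀ (χ v₀ + c)) ?_ ?_ ?_ ?_
  · intro χ hχ
    simp only [Finset.coe_filter, Finset.mem_univ, true_and, Set.mem_ofPred_eq] at hχ ⊢
    rw [col_update χ f v₀ hv, hχ]; ring
  · intro χ hχ
    simp only [Finset.coe_filter, Finset.mem_univ, true_and, Set.mem_ofPred_eq] at hχ ⊢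
    rw [col_update χ f v₀ hv, hχ]; ring
  · intro χ _
    simp
  · intro χ _
    simp

theorem card_col_zero (f : Finset V) (hf : f.Nonempty) :
    (Finset.univ.filter (fun χ : V → ZMod m => col χ f = 0)).card * m = m ^ Fintype.card V := by
  obtain ⟨v₀, hv⟩ := hf
  have h := Finset.card_eq_sum_card_fiberwise (f := fun χ : V → ZMod m => col χ f)
    (s := Finset.univ) (t := Finset.univ) (fun _ _ => Finset.mem_coe.2 (Finset.mem_univ _))
  have hc : ∀ c ∈ (Finset.univ : Finset (ZMod m)),
      (Finset.univ.filter (fun χ : V → ZMod m => col χ f = c)).card =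
        (Finset.univ.filter (fun χ : V → ZMod m => col χ f = 0)).card :=
    fun c _ => card_fiber_eq f v₀ hv c
  rw [Finset.sum_congr rfl hc, Finset.sum_const, Finset.card_univ, Finset.card_univ, ZMod.card,
    Fintype.card_fun, ZMod.card, smul_eq_mul] at h
  rw [mul_comm]; exact h.symm

/-- if a set `S` of colourings is determined by the values outside `T`, then
`|S| * m ^ |T| ≤ m ^ n` -/
theorem card_det (S : Finset (V → ZMod m)) (T : Finset V)
    (h : ∀ χ ∈ S, ∀ χ' ∈ S, (∀ v, v ∉ T → χ v = χ' v) → χ = χ') :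
    S.card * m ^ T.card ≤ m ^ Fintype.card V := by
  have hcard : (S ×ˢ (Finset.univ : Finset (T → ZMod m))).card = S.card * m ^ T.card := by
    rw [Finset.card_product, Finset.card_univ, Fintype.card_fun, ZMod.card, Fintype.card_coe]
  have hle : (S ×ˢ (Finset.univ : Finset (T → ZMod m))).card ≤
      (Finset.univ : Finset (V → ZMod m)).card := by
    refine Finset.card_le_card_of_injOn
      (fun p v => if hv : v ∈ T then p.2 ⟨v, hv⟩ else p.1 v)
      (fun _ _ => Finset.mem_coe.2 (Finset.mem_univ _)) ?_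
    rintro ⟨χ, g⟩ hp ⟨χ', g'⟩ hp' heq
    simp only [Finset.coe_product, Set.mem_prod, Finset.mem_coe, Finset.mem_univ, and_true]
      at hp hp'
    have e1 : χ = χ' := by
      refine h χ hp χ' hp' (fun v hv => ?_)
      have := congrFun heq v
      simpa [hv] using this
    have e2 : g = g' := by
      funext v
      have := congrFun heq v.1
      simpa [v.2] using this
    rw [e1, e2]
  rw [hcard, Finset.card_univ, Fintype.card_fun, ZMod.card] at hle
  exact hle

omit [Fintype V] [NeZero m] in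
/-- two colourings which agree on `f` off `v₀` and have the same colour sum agree at `v₀` -/
theorem eq_at_of_col (χ χ' : V → ZMod m) (f : Finset V) (v₀ : V) (hv : v₀ ∈ f)
    (hcol : col χ f = col χ' f) (h : ∀ v ∈ f, v ≠ v₀ → χ v = χ' v) : χ v₀ = χ' v₀ := by
  unfold col at hcol
  rw [← Finset.add_sum_erase f χ hv, ← Finset.add_sum_erase f χ' hv] at hcol
  have : ∑ v ∈ f.erase v₀, χ v = ∑ v ∈ f.erase v₀, χ' v :=
    Finset.sum_congr rfl fun v hv' => h v (Finset.mem_of_mem_erase hv') (Finset.ne_of_mem_erase hv')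
  rw [this] at hcol
  exact add_right_cancel hcol

/-- colourings with colour sum `0`, constant on `Y` -/
theorem card_mono_one (f Y : Finset V) (hY : Y ⊆ f) (hne : Y ≠ f) (hYn : Y.Nonempty) :
    (Finset.univ.filter (fun χ : V → ZMod m => col χ f = 0 ∧
      ∃ c : ZMod m, ∀ y ∈ Y, χ y = c)).card * m ^ Y.card ≤ m ^ Fintype.card V := by
  obtain ⟨y₀, hy₀⟩ := hYn
  obtain ⟨v₀, hv₀f, hv₀Y⟩ : ∃ v ∈ f, v ∉ Y := by
    by_contra hcon
    push Not at hcon
    exact hne (Finset.Subset.antisymm hY hcon)
  have hcT : (insert v₀ (Y.erase y₀)).card = Y.card := by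
    rw [Finset.card_insert_of_notMem (fun h => hv₀Y (Finset.mem_of_mem_erase h)),
      Finset.card_erase_of_mem hy₀]
    have : 1 ≤ Y.card := Finset.card_pos.2 ⟨y₀, hy₀⟩
    omega
  have key := card_det (Finset.univ.filter (fun χ : V → ZMod m => col χ f = 0 ∧
      ∃ c : ZMod m, ∀ y ∈ Y, χ y = c)) (insert v₀ (Y.erase y₀)) ?_
  · rw [hcT] at key; exact key
  · intro χ hχ χ' hχ' hag
    simp only [Finset.mem_filter, Finset.mem_univ, true_and] at hχ hχ'
    obtain ⟨hc0, c, hc⟩ := hχ
    obtain ⟨hc0', c', hc'⟩ := hχ'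
    have hy : χ y₀ = χ' y₀ := by
      apply hag
      simp only [Finset.mem_insert, Finset.mem_erase, not_or, not_and]
      exact ⟨fun h => hv₀Y (h ▸ hy₀), fun h => absurd rfl h⟩
    have hoff : ∀ v, v ≠ v₀ → χ v = χ' v := by
      intro v hv
      by_cases hvY : v ∈ Y
      · rw [hc v hvY, hc' v hvY, ← hc y₀ hy₀, ← hc' y₀ hy₀]; exact hy
      · apply hag
        simp only [Finset.mem_insert, Finset.mem_erase, not_or, not_and]
        exact ⟨hv, fun _ => hvY⟩
    have h0 : χ v₀ = χ' v₀ :=
      eq_at_of_col χ χ' f v₀ hv₀f (hc0.trans hc0'.symm) (fun v _ hv => hoff v hv)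
    funext v
    by_cases hv : v = v₀
    · rw [hv]; exact h0
    · exact hoff v hv

theorem card_mono (f : Finset V) (J : ℕ) (hJ : 1 ≤ J) (hJf : J < f.card) :
    (Finset.univ.filter (fun χ : V → ZMod m => col χ f = 0 ∧
      ∃ c : ZMod m, J ≤ (f.filter (fun v => χ v = c)).card)).card * m ^ J ≤
      (f.card.choose J) * m ^ Fintype.card V := by
  have hsub : (Finset.univ.filter (fun χ : V → ZMod m => col χ f = 0 ∧
      ∃ c : ZMod m, J ≤ (f.filter (fun v => χ v = c)).card)) ⊆
      (f.powersetCard J).biUnion (fun Y => Finset.univ.filter (fun χ : V → ZMod m => col χ f = 0 ∧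
      ∃ c : ZMod m, ∀ y ∈ Y, χ y = c)) := by
    intro χ hχ
    simp only [Finset.mem_filter, Finset.mem_univ, true_and] at hχ
    obtain ⟨hc0, c, hc⟩ := hχ
    obtain ⟨Y, hYs, hYc⟩ := Finset.exists_subset_card_eq hc
    simp only [Finset.mem_biUnion, Finset.mem_powersetCard, Finset.mem_filter, Finset.mem_univ,
      true_and]
    exact ⟨Y, ⟨hYs.trans (Finset.filter_subset _ _), hYc⟩, hc0, c,
      fun y hy => (Finset.mem_filter.1 (hYs hy)).2⟩
  calc (Finset.univ.filter (fun χ : V → ZMod m => col χ f = 0 ∧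
      ∃ c : ZMod m, J ≤ (f.filter (fun v => χ v = c)).card)).card * m ^ J
      ≤ (∑ Y ∈ f.powersetCard J, (Finset.univ.filter (fun χ : V → ZMod m => col χ f = 0 ∧
      ∃ c : ZMod m, ∀ y ∈ Y, χ y = c)).card) * m ^ J :=
        Nat.mul_le_mul_right _ ((Finset.card_le_card hsub).trans Finset.card_biUnion_le)
    _ = ∑ Y ∈ f.powersetCard J, (Finset.univ.filter (fun χ : V → ZMod m => col χ f = 0 ∧
      ∃ c : ZMod m, ∀ y ∈ Y, χ y = c)).card * m ^ J := by rw [Finset.sum_mul]
    _ ≤ ∑ _Y ∈ f.powersetCard J, m ^ Fintype.card V := by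
        refine Finset.sum_le_sum fun Y hY => ?_
        obtain ⟨hYf, hYc⟩ := Finset.mem_powersetCard.1 hY
        have := card_mono_one (m := m) f Y hYf (by rintro rfl; omega)
          (Finset.card_pos.1 (by omega))
        rwa [hYc] at this
    _ = (f.card.choose J) * m ^ Fintype.card V := by
        rw [Finset.sum_const, Finset.card_powersetCard, smul_eq_mul]

theorem card_forced (h X : Finset V) (hX : X ⊆ h) (hne : X ≠ h) :
    (Finset.univ.filter (fun χ : V → ZMod m => ∀ x ∈ X, χ x = col χ h)).card * m ^ X.card ≤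
      m ^ Fintype.card V := by
  rcases X.eq_empty_or_nonempty with rfl | hXn
  · refine card_det _ _ ?_
    intro χ _ χ' _ hag
    funext v
    exact hag v (Finset.notMem_empty v)
  obtain ⟨x₀, hx₀⟩ := hXn
  obtain ⟨v₀, hv₀h, hv₀X⟩ : ∃ v ∈ h, v ∉ X := by
    by_contra hcon
    push Not at hcon
    exact hne (Finset.Subset.antisymm hX hcon)
  have hcT : (insert v₀ (X.erase x₀)).card = X.card := by
    rw [Finset.card_insert_of_notMem (fun h => hv₀X (Finset.mem_of_mem_erase h)),
      Finset.card_erase_of_mem hx₀]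
    have : 1 ≤ X.card := Finset.card_pos.2 ⟨x₀, hx₀⟩
    omega
  have key := card_det (Finset.univ.filter (fun χ : V → ZMod m => ∀ x ∈ X, χ x = col χ h))
    (insert v₀ (X.erase x₀)) ?_
  · rw [hcT] at key; exact key
  · intro χ hχ χ' hχ' hag
    simp only [Finset.mem_filter, Finset.mem_univ, true_and] at hχ hχ'
    have hx : χ x₀ = χ' x₀ := by
      apply hag
      simp only [Finset.mem_insert, Finset.mem_erase, not_or, not_and]
      exact ⟨fun h => hv₀X (h ▸ hx₀), fun h => absurd rfl h⟩
    have hcol : col χ h = col χ' h := by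
      rw [← hχ x₀ hx₀, ← hχ' x₀ hx₀]; exact hx
    have hoff : ∀ v, v ≠ v₀ → χ v = χ' v := by
      intro v hv
      by_cases hvX : v ∈ X
      · rw [hχ v hvX, hχ' v hvX]; exact hcol
      · apply hag
        simp only [Finset.mem_insert, Finset.mem_erase, not_or, not_and]
        exact ⟨hv, fun _ => hvX⟩
    have h0 : χ v₀ = χ' v₀ :=
      eq_at_of_col χ χ' h v₀ hv₀h hcol (fun v _ hv => hoff v hv)
    funext v
    by_cases hv : v = v₀
    · rw [hv]; exact h0
    · exact hoff v hv

/-- the number of good colourings of a facet -/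
theorem card_good_ge (f : Finset V) (J : ℕ) (hJ : 1 ≤ J) (hJf : J < f.card) :
    (m : ℝ) ^ Fintype.card V * (1 / m - (f.card.choose J : ℝ) / m ^ J) ≤
      ((Finset.univ.filter (fun χ : V → ZMod m => good J χ f)).card : ℝ) := by
  have hfn : f.Nonempty := Finset.card_pos.1 (by omega)
  have hm : (0 : ℝ) < m := by exact_mod_cast Nat.pos_of_ne_zero (NeZero.ne m)
  have h0 := card_col_zero (m := m) f hfn
  have h1 := card_mono (m := m) f J hJ hJf
  have hsub : (Finset.univ.filter (fun χ : V → ZMod m => col χ f = 0)) ⊆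
      (Finset.univ.filter (fun χ : V → ZMod m => good J χ f)) ∪
      (Finset.univ.filter (fun χ : V → ZMod m => col χ f = 0 ∧
      ∃ c : ZMod m, J ≤ (f.filter (fun v => χ v = c)).card)) := by
    intro χ hχ
    simp only [Finset.mem_filter, Finset.mem_univ, true_and, Finset.mem_union] at hχ ⊢
    by_cases hc : ∃ c : ZMod m, J ≤ (f.filter (fun v => χ v = c)).card
    · exact Or.inr ⟨hχ, hc⟩
    · push Not at hc
      exact Or.inl ⟨hχ, hc⟩
  have h2 := (Finset.card_le_card hsub).trans (Finset.card_union_le _ _)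
  set A := (Finset.univ.filter (fun χ : V → ZMod m => col χ f = 0)).card
  set B := (Finset.univ.filter (fun χ : V → ZMod m => col χ f = 0 ∧
      ∃ c : ZMod m, J ≤ (f.filter (fun v => χ v = c)).card)).card
  set G := (Finset.univ.filter (fun χ : V → ZMod m => good J χ f)).card
  have h0' : (A : ℝ) * m = (m : ℝ) ^ Fintype.card V := by exact_mod_cast h0
  have h1' : (B : ℝ) * (m : ℝ) ^ J ≤ (f.card.choose J : ℝ) * (m : ℝ) ^ Fintype.card V := by
    exact_mod_cast h1
  have h2' : (A : ℝ) ≤ G + B := by exact_mod_cast h2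
  have hA : (A : ℝ) = (m : ℝ) ^ Fintype.card V / m := by
    rw [← h0']; field_simp
  have hB : (B : ℝ) ≤ (f.card.choose J : ℝ) * (m : ℝ) ^ Fintype.card V / (m : ℝ) ^ J := by
    rw [le_div_iff₀ (pow_pos hm J)]; exact h1'
  calc (m : ℝ) ^ Fintype.card V * (1 / m - (f.card.choose J : ℝ) / m ^ J)
      = (m : ℝ) ^ Fintype.card V / m -
        (f.card.choose J : ℝ) * (m : ℝ) ^ Fintype.card V / (m : ℝ) ^ J := by ring
    _ ≤ A - B := by rw [hA]; linarith
    _ ≤ G := by linarith

end Pool.Agent.H61.Simp
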