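/-
SIMP-13b.  Pairing the omitted facets of a member of the packing; number of facets.
MP_1da58b_co, owner helper61.

PROOFS.
* `pairing`: pair up the elements of `X`; for the pair `{x, y}` take
  `insert z ((p.erase x).erase y)`; for a single remaining `x` take any `y ∈ p`, `y ≠ x` (`k ≥ 2`).
  Induction on `|X|` (strong, removing two elements at a time).
* `card_EP`: the facets of different members are different (`eq_of_facet`), each has `k` facets.
-/
import Pool.Agent.H61.Simp.Defs

set_option autoImplicit false

namespace Pool.Agent.H61.Simp

section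
variable {V : Type} [DecidableEq V]

theorem pair_card {k : ℕ} {p : Finset V} (hp : p.card = k) {z x y : V} (hz : z ∉ p)
    (hx : x ∈ p) (hy : y ∈ p) (hxy : x ≠ y) :
    (insert z ((p.erase x).erase y)).card + 1 = k := by
  have hy' : y ∈ p.erase x := Finset.mem_erase.2 ⟨hxy.symm, hy⟩
  have hz' : z ∉ (p.erase x).erase y := fun h =>
    hz (Finset.mem_of_mem_erase (Finset.mem_of_mem_erase h))
  rw [Finset.card_insert_of_notMem hz', Finset.card_erase_of_mem hy', Finset.card_erase_of_mem hx,
    hp]
  have h2 : 2 ≤ p.card := Finset.one_lt_card.2 ⟨x, hx, y, hy, hxy⟩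
  omega

theorem pair_sub_left (p : Finset V) (z x y : V) :
    insert z ((p.erase x).erase y) ⊆ insert z (p.erase x) :=
  Finset.insert_subset_insert _ (Finset.erase_subset _ _)

theorem pair_sub_right (p : Finset V) (z x y : V) :
    insert z ((p.erase x).erase y) ⊆ insert z (p.erase y) := by
  rw [Finset.erase_right_comm]
  exact Finset.insert_subset_insert _ (Finset.erase_subset _ _)

theorem pairing {k : ℕ} (hk : 2 ≤ k) {p : Finset V} (hp : p.card = k) {z : V} (hz : z ∉ p)
    (X : Finset V) (hX : X ⊆ p) :
    ∃ C : Finset (Finset V), 2 * C.card ≤ X.card + 1 ∧ (∀ g ∈ C, g.card + 1 = k) ∧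
      ∀ x ∈ X, ∃ g ∈ C, g ⊆ insert z (p.erase x) := by
  induction hn : X.card using Nat.strong_induction_on generalizing X with
  | _ n ih =>
    subst hn
    by_cases h0 : X.card = 0
    · refine ⟨∅, by simp, by simp, ?_⟩
      intro x hx
      rw [Finset.card_eq_zero] at h0
      rw [h0] at hx
      exact absurd hx (Finset.notMem_empty x)
    · by_cases h1 : X.card = 1
      · obtain ⟨x, rfl⟩ := Finset.card_eq_one.1 h1
        have hx : x ∈ p := hX (Finset.mem_singleton_self x)
        have h2 : 1 < p.card := by omega
        obtain ⟨y, hy, hyx⟩ := Finset.exists_mem_ne h2 x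
        refine ⟨{insert z ((p.erase x).erase y)}, by simp, ?_, ?_⟩
        · intro g hg
          rw [Finset.mem_singleton] at hg
          rw [hg]
          exact pair_card hp hz hx hy hyx.symm
        · intro w hw
          rw [Finset.mem_singleton] at hw
          rw [hw]
          exact ⟨_, Finset.mem_singleton_self _, pair_sub_left p z x y⟩
      · have h2 : 1 < X.card := by omega
        obtain ⟨x, hx, y, hy, hxy⟩ := Finset.one_lt_card.1 h2
        have hy' : y ∈ X.erase x := Finset.mem_erase.2 ⟨hxy.symm, hy⟩
        have hc : ((X.erase x).erase y).card + 2 = X.card := by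
          rw [Finset.card_erase_of_mem hy', Finset.card_erase_of_mem hx]
          omega
        obtain ⟨C, hC1, hC2, hC3⟩ := ih ((X.erase x).erase y).card (by omega)
          ((X.erase x).erase y)
          (((Finset.erase_subset _ _).trans (Finset.erase_subset _ _)).trans hX) rfl
        refine ⟨insert (insert z ((p.erase x).erase y)) C, ?_, ?_, ?_⟩
        · have := Finset.card_insert_le (insert z ((p.erase x).erase y)) C
          omega
        · intro g hg
          rw [Finset.mem_insert] at hg
          rcases hg with rfl | hg
          · exact pair_card hp hz (hX hx) (hX hy) hxy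
          · exact hC2 g hg
        · intro w hw
          by_cases hwx : w = x
          · rw [hwx]
            exact ⟨_, Finset.mem_insert_self _ _, pair_sub_left p z x y⟩
          · by_cases hwy : w = y
            · rw [hwy]
              exact ⟨_, Finset.mem_insert_self _ _, pair_sub_right p z x y⟩
            · obtain ⟨g, hg, hgw⟩ := hC3 w
                (Finset.mem_erase.2 ⟨hwy, Finset.mem_erase.2 ⟨hwx, hw⟩⟩)
              exact ⟨g, Finset.mem_insert_of_mem hg, hgw⟩

end

namespace Setup

variable {V : Type} [DecidableEq V] (S : Setup V)

/-- the number of facets of the packing -/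
theorem card_EP : S.EP.card = S.k * S.P.card := by
  unfold EP
  rw [Finset.card_biUnion]
  · have h : ∀ p ∈ S.P, (p.image (fun v => p.erase v)).card = S.k := by
      intro p hp
      rw [Finset.card_image_of_injOn]
      · exact S.card_of_mem_P hp
      · intro x hx y hy hxy
        exact Finset.erase_injOn p hx hy hxy
    rw [Finset.sum_congr rfl h, Finset.sum_const, smul_eq_mul, mul_comm]
  · intro p hp q hq hne
    refine Finset.disjoint_left.2 ?_
    intro g hg hg'
    rw [Finset.mem_image] at hg hg'
    obtain ⟨v, hv, rfl⟩ := hg
    obtain ⟨w, hw, hwe⟩ := hg'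
    apply hne
    have hk : (p.erase v).card + 1 = S.k := by
      rw [Finset.card_erase_of_mem hv, S.card_of_mem_P hp]
      have : 0 < p.card := Finset.card_pos.2 ⟨v, hv⟩
      rw [S.card_of_mem_P hp] at this
      omega
    refine S.eq_of_facet hk hp hq (Finset.erase_subset _ _) ?_
    rw [← hwe]
    exact Finset.erase_subset _ _

end Setup

end Pool.Agent.H61.Simp
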