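/-
SIMP-13.  Private neighbours.  MP_1da58b_co, owner helper61.

PROOFS.
* `exists_nbr`: if `N h = ∅`, then `insert h P` is a larger packing.
* `private_adj`: `h ≠ h'` in `H \ P` with `N h = N h' = {p}`; if they are not adjacent, then
  `(P \ {p}) ∪ {h, h'}` is a larger packing.
* `private_structure`: fix `p ∈ P` and let `Y = {h ∈ H \ P | N h = {p}}`; every `h ∈ Y` is
  `insert w (p.erase x)` with `x ∈ p`, `w ∉ p` unique (`{x} = p \ h`, `{w} = h \ p`).  For `h ≠ h'` in `Y`
  adjacency gives `x = x'` or `w = w'` (otherwise `|h ∩ h'| = k - 2`).  A set of pairs `(x, w)`, any two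
  of which share a coordinate, has all `x` equal or all `w` equal.  All `x` equal (or `Y = ∅`):
  `e = p.erase x`.  All `w` equal: `z = w`.  `E` = the set of the chosen `e`'s.
  (`N h = {p}` implies `h ∉ P`, since `N h = ∅` for `h ∈ P`.)
-/
import Pool.Agent.H61.Simp.Geom

set_option autoImplicit false

namespace Pool.Agent.H61.Simp.Setup

variable {V : Type} [DecidableEq V] (S : Setup V)

theorem not_adj_self {h : Finset V} (hh : h ∈ S.H) : ¬ adj S.k h h := by
  unfold adj
  rw [Finset.inter_self, S.unif h hh]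
  omega

theorem exists_nbr {h : Finset V} (hh : h ∈ S.H) (hP : h ∉ S.P) : (S.N h).Nonempty := by
  by_contra hne
  rw [Finset.not_nonempty_iff_eq_empty] at hne
  have hN : ∀ q ∈ S.P, ¬ adj S.k h q := by
    intro q hq hadj
    have : q ∈ S.N h := S.mem_N.2 ⟨hq, hadj⟩
    rw [hne] at this
    exact absurd this (Finset.notMem_empty q)
  have h1 := S.max (insert h S.P) (Finset.insert_subset hh S.sub) (by
    intro p hp q hq
    rcases Finset.mem_insert.1 hp with hp1 | hp1
    · rcases Finset.mem_insert.1 hq with hq1 | hq1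
      · rw [hp1, hq1]; exact S.not_adj_self hh
      · rw [hp1]; exact hN q hq1
    · rcases Finset.mem_insert.1 hq with hq1 | hq1
      · rw [hq1, adj_comm]; exact hN p hp1
      · exact S.pack p hp1 q hq1)
  rw [Finset.card_insert_of_notMem hP] at h1
  omega

theorem notMem_P_of_N {h p : Finset V} (hN : S.N h = {p}) : h ∉ S.P := by
  intro hP
  have hp : p ∈ S.N h := by rw [hN]; exact Finset.mem_singleton_self p
  obtain ⟨h1, h2⟩ := S.mem_N.1 hp
  exact S.pack h hP p h1 h2

theorem private_adj {h h' p : Finset V} (hh : h ∈ S.H) (hh' : h' ∈ S.H) (hne : h ≠ h')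
    (hN : S.N h = {p}) (hN' : S.N h' = {p}) : adj S.k h h' := by
  by_contra hadj
  have hp : p ∈ S.N h := by rw [hN]; exact Finset.mem_singleton_self p
  have hpP := (S.mem_N.1 hp).1
  have hP := S.notMem_P_of_N hN
  have hP' := S.notMem_P_of_N hN'
  have key : ∀ g, S.N g = {p} → ∀ q ∈ S.P.erase p, ¬ adj S.k g q := by
    intro g hg q hq h1
    have : q ∈ S.N g := S.mem_N.2 ⟨(Finset.mem_erase.1 hq).2, h1⟩
    rw [hg, Finset.mem_singleton] at this
    exact (Finset.mem_erase.1 hq).1 this
  have h1 := S.max (insert h (insert h' (S.P.erase p)))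
    (Finset.insert_subset hh (Finset.insert_subset hh' ((Finset.erase_subset _ _).trans S.sub))) (by
    intro a ha b hb
    rcases Finset.mem_insert.1 ha with ha1 | ha1
    · rcases Finset.mem_insert.1 hb with hb1 | hb1
      · rw [ha1, hb1]; exact S.not_adj_self hh
      · rcases Finset.mem_insert.1 hb1 with hb2 | hb2
        · rw [ha1, hb2]; exact hadj
        · rw [ha1]; exact key _ hN b hb2
    · rcases Finset.mem_insert.1 ha1 with ha2 | ha2
      · rcases Finset.mem_insert.1 hb with hb1 | hb1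
        · rw [ha2, hb1, adj_comm]; exact hadj
        · rcases Finset.mem_insert.1 hb1 with hb2 | hb2
          · rw [ha2, hb2]; exact S.not_adj_self hh'
          · rw [ha2]; exact key _ hN' b hb2
      · rcases Finset.mem_insert.1 hb with hb1 | hb1
        · rw [hb1, adj_comm]; exact key _ hN a ha2
        · rcases Finset.mem_insert.1 hb1 with hb2 | hb2
          · rw [hb2, adj_comm]; exact key _ hN' a ha2
          · exact S.pack a (Finset.mem_erase.1 ha2).2 b (Finset.mem_erase.1 hb2).2)
  have h2 : h' ∉ S.P.erase p := fun h3 => hP' (Finset.mem_erase.1 h3).2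
  have h3 : h ∉ insert h' (S.P.erase p) := by
    intro h4
    rcases Finset.mem_insert.1 h4 with h5 | h5
    · exact hne h5
    · exact hP (Finset.mem_erase.1 h5).2
  rw [Finset.card_insert_of_notMem h3, Finset.card_insert_of_notMem h2,
    Finset.card_erase_of_mem hpP] at h1
  have h4 : 0 < S.P.card := Finset.card_pos.2 ⟨p, hpP⟩
  omega

/-- the shape of a clique adjacent to `p` -/
theorem shape {h p : Finset V} (hh : h ∈ S.H) (hp : p ∈ S.P) (hadj : adj S.k h p) :
    ∃ x w, x ∈ p ∧ w ∉ p ∧ h = insert w (p.erase x) := by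
  have hc := S.unif h hh
  have hpc := S.card_of_mem_P hp
  unfold adj at hadj
  have h1 : (p \ h).card = 1 := by
    have := Finset.card_sdiff_add_card_inter p h
    rw [Finset.inter_comm] at this
    omega
  have h2 : (h \ p).card = 1 := by
    have := Finset.card_sdiff_add_card_inter h p
    omega
  obtain ⟨x, hx⟩ := Finset.card_eq_one.1 h1
  obtain ⟨w, hw⟩ := Finset.card_eq_one.1 h2
  have hx' : x ∈ p \ h := by rw [hx]; exact Finset.mem_singleton_self x
  have hw' : w ∈ h \ p := by rw [hw]; exact Finset.mem_singleton_self w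
  rw [Finset.mem_sdiff] at hx' hw'
  refine ⟨x, w, hx'.1, hw'.2, ?_⟩
  ext v
  rw [Finset.mem_insert, Finset.mem_erase]
  constructor
  · intro hv
    by_cases hvp : v ∈ p
    · right
      exact ⟨fun h3 => hx'.2 (h3 ▸ hv), hvp⟩
    · left
      have : v ∈ h \ p := Finset.mem_sdiff.2 ⟨hv, hvp⟩
      rw [hw] at this
      exact Finset.mem_singleton.1 this
  · rintro (rfl | ⟨h3, h4⟩)
    · exact hw'.1
    · by_contra hv
      have : v ∈ p \ h := Finset.mem_sdiff.2 ⟨h4, hv⟩
      rw [hx] at this
      exact h3 (Finset.mem_singleton.1 this)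

theorem shape_adj {p : Finset V} (hp : p ∈ S.P) {x w x' w' : V} (hx : x ∈ p) (hw : w ∉ p)
    (hx' : x' ∈ p) (hw' : w' ∉ p)
    (hadj : adj S.k (insert w (p.erase x)) (insert w' (p.erase x'))) : x = x' ∨ w = w' := by
  by_contra hcon
  push Not at hcon
  obtain ⟨h1, h2⟩ := hcon
  have e : insert w (p.erase x) ∩ insert w' (p.erase x') = (p.erase x).erase x' := by
    ext v
    simp only [Finset.mem_inter, Finset.mem_insert, Finset.mem_erase]
    constructor
    · rintro ⟨h3 | h3, h4 | h4⟩
      · exact absurd (h3.symm.trans h4) h2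
      · subst h3
        exact absurd h4.2 hw
      · subst h4
        exact absurd h3.2 hw'
      · exact ⟨h4.1, h3⟩
    · rintro ⟨h3, h4⟩
      exact ⟨Or.inr h4, Or.inr ⟨h3, h4.2⟩⟩
  unfold adj at hadj
  rw [e, Finset.card_erase_of_mem (Finset.mem_erase.2 ⟨Ne.symm h1, hx'⟩),
    Finset.card_erase_of_mem hx] at hadj
  have h5 := S.card_of_mem_P hp
  have h6 : 1 < p.card := Finset.one_lt_card.2 ⟨x, hx, x', hx', h1⟩
  rw [h5] at hadj h6
  omega

theorem private_structure_aux (hk : 1 ≤ S.k) {p : Finset V} (hp : p ∈ S.P) :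
    ∃ e ∈ S.EP, (e ⊆ p ∧ ∀ h ∈ S.H, S.N h = {p} → e ⊆ h) ∨
      (∃ z, z ∉ p ∧ ∀ h ∈ S.H, S.N h = {p} → ∃ x ∈ p, h = insert z (p.erase x)) := by
  have hshape : ∀ h ∈ S.H, S.N h = {p} → ∃ x w, x ∈ p ∧ w ∉ p ∧ h = insert w (p.erase x) := by
    intro h hh hN
    have : p ∈ S.N h := by rw [hN]; exact Finset.mem_singleton_self p
    exact S.shape hh hp (S.mem_N.1 this).2
  have hEP : ∀ x ∈ p, p.erase x ∈ S.EP := by
    intro x hx
    unfold EP
    rw [Finset.mem_biUnion]
    exact ⟨p, hp, Finset.mem_image.2 ⟨x, hx, rfl⟩⟩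
  have hpne : p.Nonempty := by
    rw [← Finset.card_pos, S.card_of_mem_P hp]
    omega
  by_cases hY : ∃ h ∈ S.H, S.N h = {p}
  · obtain ⟨h1, hh1, hN1⟩ := hY
    obtain ⟨x1, w1, hx1, hw1, e1⟩ := hshape h1 hh1 hN1
    by_cases hall : ∀ h ∈ S.H, S.N h = {p} → p.erase x1 ⊆ h
    · exact ⟨p.erase x1, hEP x1 hx1, Or.inl ⟨Finset.erase_subset _ _, hall⟩⟩
    · push Not at hall
      obtain ⟨h2, hh2, hN2, hsub⟩ := hall
      obtain ⟨x2, w2, hx2, hw2, e2⟩ := hshape h2 hh2 hN2
      have hx12 : x1 ≠ x2 := by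
        rintro rfl
        apply hsub
        rw [e2]
        exact Finset.subset_insert _ _
      have hne12 : h1 ≠ h2 := by
        rintro rfl
        apply hsub
        rw [e1]
        exact Finset.subset_insert _ _
      have hw12 : w1 = w2 := by
        have h3 := S.private_adj hh1 hh2 hne12 hN1 hN2
        rw [e1, e2] at h3
        exact (S.shape_adj hp hx1 hw1 hx2 hw2 h3).resolve_left hx12
      refine ⟨p.erase x1, hEP x1 hx1, Or.inr ⟨w1, hw1, ?_⟩⟩
      intro h hh hN
      obtain ⟨x, w, hx, hw, e⟩ := hshape h hh hN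
      by_cases hww : w = w1
      · subst hww
        exact ⟨x, hx, e⟩
      · exfalso
        have hh1' : h ≠ h1 := by
          intro h3
          rw [h3, e1] at e
          have h4 : w1 ∈ insert w (p.erase x) := by rw [← e]; exact Finset.mem_insert_self _ _
          rcases Finset.mem_insert.1 h4 with h5 | h5
          · exact hww h5.symm
          · exact hw1 (Finset.mem_erase.1 h5).2
        have hh2' : h ≠ h2 := by
          intro h3
          rw [h3, e2] at e
          have h4 : w2 ∈ insert w (p.erase x) := by rw [← e]; exact Finset.mem_insert_self _ _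
          rcases Finset.mem_insert.1 h4 with h5 | h5
          · exact hww (h5.symm.trans hw12.symm)
          · exact hw2 (Finset.mem_erase.1 h5).2
        have a1 := S.private_adj hh hh1 hh1' hN hN1
        have a2 := S.private_adj hh hh2 hh2' hN hN2
        rw [e, e1] at a1
        rw [e, e2] at a2
        have b1 := (S.shape_adj hp hx hw hx1 hw1 a1).resolve_right hww
        have b2 := (S.shape_adj hp hx hw hx2 hw2 a2).resolve_right
          (fun h5 => hww (h5.trans hw12.symm))
        exact hx12 (b1.symm.trans b2)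
  · obtain ⟨x, hx⟩ := hpne
    refine ⟨p.erase x, hEP x hx, Or.inl ⟨Finset.erase_subset _ _, ?_⟩⟩
    intro h hh hN
    exact absurd ⟨h, hh, hN⟩ hY

theorem private_structure (hk : 1 ≤ S.k) :
    ∃ E : Finset (Finset V), E ⊆ S.EP ∧ E.card ≤ S.P.card ∧ ∀ p ∈ S.P,
      (∃ e ∈ E, e ⊆ p ∧ ∀ h ∈ S.H, S.N h = {p} → e ⊆ h) ∨
      (∃ z, z ∉ p ∧ ∀ h ∈ S.H, S.N h = {p} → ∃ x ∈ p, h = insert z (p.erase x)) := by
  choose f hf1 hf2 using fun p : {p // p ∈ S.P} => S.private_structure_aux hk p.2
  refine ⟨S.P.attach.image f, ?_, ?_, ?_⟩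
  · intro e he
    obtain ⟨p, _, rfl⟩ := Finset.mem_image.1 he
    exact hf1 p
  · exact Finset.card_image_le.trans_eq (Finset.card_attach)
  · intro p hp
    rcases hf2 ⟨p, hp⟩ with h | h
    · left
      exact ⟨f ⟨p, hp⟩, Finset.mem_image.2 ⟨⟨p, hp⟩, Finset.mem_attach _ _, rfl⟩, h.1, h.2⟩
    · right
      exact h

end Pool.Agent.H61.Simp.Setup
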