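/-
SIMP-14.  The cover defined by a colouring (deterministic).  MP_1da58b_co, owner helper61.

PROOF.  `O = (EP \ (B ∪ E)).filter (good J χ)`, `U = (avoid J (A ∪ B)).filter (∀ p ∈ N h, col χ (h ∩ p) = 0)`.
`C = (EP \ O) ∪ A ∪ C_U ∪ ⋃_p C_p`: `C_U` contains for every `h ∈ U` one facet `h ∩ p`, `p ∈ N h`;
for `p ∈ P` in the second case of `private_structure` (`hE`), `C_p` is given by `pairing` for
`X_p = {x ∈ p | p.erase x ∈ O}` (otherwise `C_p = ∅`).
Every `h ∈ H` contains a member of `C`: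
* `h ∈ P`: otherwise all facets `h.erase v` are in `O`, so `χ v = col χ h` for all `v ∈ h`, and the facet
  `h.erase v` has `k - 1 ≥ J` elements of the same colour: not good.
* `|N h| = 1`, `N h = {p}`: first case: `e ⊆ h`, `e ∈ EP \ O`.  Second case: `h = insert z (p.erase x)`; if
  `p.erase x ∉ O` it is in `EP \ O` and contained in `h`, otherwise `x ∈ X_p`.
* `2 ≤ |N h| ≤ J`: if `h` contains a member of `A ∪ B` fine (`B ⊆ EP \ O`).  Otherwise `h ∈ avoid`; if
  some `h ∩ p ∉ O` fine, otherwise `h ∈ U`.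
* `|N h| ≥ J + 1`: if all `h ∩ p ∈ O`, `p ∈ N h`: `h ∩ p = h.erase x_p`, the `x_p` are different
  (`facet_injOn`), `χ x_p = col χ h`; then `h ∩ p` contains the `≥ J` other `x_{p'}` of the same
  colour: not good.
Size: `|EP| = k |P|`, `∑_p |X_p| = |O|` (`|O| ≤ ∑ ..` and disjointness: facets of different `p`
are different), `2 |C_p| ≤ |X_p| + 1`.
-/
import Pool.Agent.H61.Simp.Private
import Pool.Agent.H61.Simp.Pairing
import Pool.Agent.H61.Simp.Colour

set_option autoImplicit false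

namespace Pool.Agent.H61.Simp.Setup

variable {V : Type} [DecidableEq V] (S : Setup V)

/-- the omitted facets -/
def Om {m : ℕ} [NeZero m] (J : ℕ) (B E : Finset (Finset V)) (χ : V → ZMod m) : Finset (Finset V) :=
  (S.EP \ (B ∪ E)).filter (good J χ)

/-- the possibly uncovered cliques -/
def Un {m : ℕ} (J : ℕ) (A B : Finset (Finset V)) (χ : V → ZMod m) : Finset (Finset V) :=
  (S.avoid J (A ∪ B)).filter (fun h => ∀ p ∈ S.N h, col χ (h ∩ p) = 0)

private theorem cov_not_good {m : ℕ} [NeZero m] {J : ℕ} {χ : V → ZMod m} {f Y : Finset V}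
    (hY : Y ⊆ f) (hJ : J ≤ Y.card) (c : ZMod m) (hc : ∀ y ∈ Y, χ y = c) : ¬ good J χ f := by
  intro h
  have h1 := h.2 c
  have h2 : Y ⊆ f.filter (fun v => χ v = c) := fun y hy =>
    Finset.mem_filter.mpr ⟨hY hy, hc y hy⟩
  have h3 := Finset.card_le_card h2
  omega

private theorem cov_chi {m : ℕ} {χ : V → ZMod m} {h : Finset V} {x : V} (hx : x ∈ h)
    (h0 : col χ (h.erase x) = 0) : χ x = col χ h := by
  unfold col at *
  rw [← Finset.add_sum_erase _ _ hx, h0, add_zero]

private theorem cov_erase {k : ℕ} {h p : Finset V} (hh : h.card = k) (ha : (h ∩ p).card + 1 = k) :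
    ∃ x ∈ h, h ∩ p = h.erase x := by
  have h1 : (h \ p).card = 1 := by
    have := Finset.card_sdiff_add_card_inter h p
    omega
  obtain ⟨x, hx⟩ := Finset.card_eq_one.1 h1
  have hxm : x ∈ h \ p := by rw [hx]; exact Finset.mem_singleton_self x
  rw [Finset.mem_sdiff] at hxm
  refine ⟨x, hxm.1, ?_⟩
  apply Finset.eq_of_subset_of_card_le
  · intro y hy
    rw [Finset.mem_inter] at hy
    rw [Finset.mem_erase]
    exact ⟨fun e => hxm.2 (e ▸ hy.2), hy.1⟩
  · rw [Finset.card_erase_of_mem hxm.1]; omega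

/-- a non-member with only omitted neighbouring facets has at most `J` neighbours -/
private theorem cov_many {m : ℕ} [NeZero m] {J : ℕ} {χ : V → ZMod m} {h : Finset V}
    (hh : h ∈ S.H) (hg : ∀ p ∈ S.N h, good J χ (h ∩ p)) : (S.N h).card ≤ J := by
  by_contra hcon
  push Not at hcon
  have hx : ∀ p ∈ S.N h, ∃ x ∈ h, h ∩ p = h.erase x := fun p hp =>
    cov_erase (S.unif h hh) ((S.mem_N.1 hp).2)
  have hx' : ∀ p : Finset V, ∃ x : V, p ∈ S.N h → x ∈ h ∧ h ∩ p = h.erase x := by
    intro p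
    by_cases hp : p ∈ S.N h
    · obtain ⟨x, h1, h2⟩ := hx p hp
      exact ⟨x, fun _ => ⟨h1, h2⟩⟩
    · have hne : (S.N h).Nonempty := Finset.card_pos.mp (by omega)
      obtain ⟨p1, hp1⟩ := hne
      obtain ⟨x, -, -⟩ := hx p1 hp1
      exact ⟨x, fun h => absurd h hp⟩
  choose x hxs using hx'
  have hinj : ∀ p ∈ S.N h, ∀ p' ∈ S.N h, x p = x p' → p = p' := by
    intro p hp p' hp' he
    have e1 := (hxs p hp).2
    have e2 := (hxs p' hp').2
    rw [he, ← e2] at e1
    have a1 := S.mem_N.1 hp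
    have a2 := S.mem_N.1 hp'
    refine S.eq_of_facet (g := h ∩ p) a1.2 a1.1 a2.1 Finset.inter_subset_right ?_
    rw [e1]; exact Finset.inter_subset_right
  have hcolx : ∀ p ∈ S.N h, χ (x p) = col χ h := by
    intro p hp
    have h1 := (hg p hp).1
    rw [(hxs p hp).2] at h1
    exact cov_chi (hxs p hp).1 h1
  obtain ⟨p0, hp0⟩ : (S.N h).Nonempty := Finset.card_pos.mp (by omega)
  refine cov_not_good (Y := ((S.N h).erase p0).image x) (f := h ∩ p0) ?_ ?_ (col χ h) ?_
    (hg p0 hp0)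
  · intro y hy
    rw [Finset.mem_image] at hy
    obtain ⟨p, hp, rfl⟩ := hy
    rw [Finset.mem_erase] at hp
    rw [(hxs p0 hp0).2, Finset.mem_erase]
    exact ⟨fun e => hp.1 (hinj p hp.2 p0 hp0 e), (hxs p hp.2).1⟩
  · rw [Finset.card_image_of_injOn, Finset.card_erase_of_mem hp0]
    · omega
    · intro p hp p' hp' he
      rw [Finset.mem_coe, Finset.mem_erase] at hp hp'
      exact hinj p hp.2 p' hp'.2 he
  · intro y hy
    rw [Finset.mem_image] at hy
    obtain ⟨p, hp, rfl⟩ := hy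
    rw [Finset.mem_erase] at hp
    exact hcolx p hp.2

/-- a member of the packing has a facet that is not good -/
private theorem cov_pack {m : ℕ} [NeZero m] {J : ℕ} (hJk : J < S.k) {χ : V → ZMod m}
    {h : Finset V} (hh : h ∈ S.P) : ∃ v ∈ h, ¬ good J χ (h.erase v) := by
  by_contra hcon
  push Not at hcon
  have hk := S.card_of_mem_P hh
  have hne : h.Nonempty := Finset.card_pos.mp (by omega)
  obtain ⟨v, hv⟩ := hne
  refine cov_not_good (Y := h.erase v) (Finset.Subset.refl _) ?_ (col χ h) ?_ (hcon v hv)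
  · rw [Finset.card_erase_of_mem hv]; omega
  · intro y hy
    have hy' := Finset.mem_of_mem_erase hy
    exact cov_chi hy' (hcon y hy').1

theorem cover {m : ℕ} [NeZero m] {J : ℕ} (hJ : 1 ≤ J) (hJk : J < S.k) (A B E : Finset (Finset V))
    (hA : ∀ g ∈ A, g.card + 1 = S.k) (hB : B ⊆ S.EP) (hE : E ⊆ S.EP)
    (hstr : ∀ p ∈ S.P,
      (∃ e ∈ E, e ⊆ p ∧ ∀ h ∈ S.H, S.N h = {p} → e ⊆ h) ∨
      (∃ z, z ∉ p ∧ ∀ h ∈ S.H, S.N h = {p} → ∃ x ∈ p, h = insert z (p.erase x)))
    (χ : V → ZMod m) :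
    ∃ C : Finset (Finset V), (∀ g ∈ C, g.card + 1 = S.k) ∧ (∀ h ∈ S.H, ∃ g ∈ C, g ⊆ h) ∧
      2 * C.card + (S.Om J B E χ).card ≤
        2 * S.k * S.P.card + S.P.card + 2 * A.card + 2 * (S.Un J A B χ).card := by
  classical
  have hOE : S.Om J B E χ ⊆ S.EP := by
    intro g hg
    unfold Om at hg
    rw [Finset.mem_filter, Finset.mem_sdiff] at hg
    exact hg.1.1
  have hOmem : ∀ g, g ∈ S.Om J B E χ ↔ (g ∈ S.EP ∧ g ∉ B ∪ E) ∧ good J χ g := by
    intro g
    unfold Om
    rw [Finset.mem_filter, Finset.mem_sdiff]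
  have hEPer : ∀ p ∈ S.P, ∀ x ∈ p, p.erase x ∈ S.EP := by
    intro p hp x hx
    unfold EP
    rw [Finset.mem_biUnion]
    exact ⟨p, hp, Finset.mem_image_of_mem _ hx⟩
  obtain ⟨X, hX⟩ : ∃ X : Finset V → Finset V, ∀ p, X p = p.filter (fun x => p.erase x ∈ S.Om J B E χ) :=
    ⟨_, fun _ => rfl⟩
  -- the local covers
  have hloc : ∀ p : Finset V, ∃ C : Finset (Finset V), p ∈ S.P →
      (2 * C.card ≤ (X p).card + 1 ∧ (∀ g ∈ C, g.card + 1 = S.k) ∧
        ∀ h ∈ S.H, S.N h = {p} → ∃ g, (g ∈ S.EP \ S.Om J B E χ ∨ g ∈ C) ∧ g ⊆ h) := by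
    intro p
    by_cases hp : p ∈ S.P
    · rcases hstr p hp with ⟨e, he, hep, heh⟩ | ⟨z, hz, hzh⟩
      · refine ⟨∅, fun _ => ⟨by simp, by simp, fun h hh hN => ⟨e, Or.inl ?_, heh h hh hN⟩⟩⟩
        rw [Finset.mem_sdiff]
        refine ⟨hE he, fun hO => ?_⟩
        exact ((hOmem e).1 hO).1.2 (Finset.mem_union_right _ he)
      · obtain ⟨C, hC1, hC2, hC3⟩ := pairing (k := S.k) (by omega) (S.card_of_mem_P hp) hz (X p)
          (by rw [hX]; exact Finset.filter_subset _ _)
        refine ⟨C, fun _ => ⟨hC1, hC2, fun h hh hN => ?_⟩⟩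
        obtain ⟨x, hx, hhx⟩ := hzh h hh hN
        by_cases hO : p.erase x ∈ S.Om J B E χ
        · obtain ⟨g, hg, hgs⟩ := hC3 x (by rw [hX, Finset.mem_filter]; exact ⟨hx, hO⟩)
          exact ⟨g, Or.inr hg, by rw [hhx]; exact hgs⟩
        · refine ⟨p.erase x, Or.inl ?_, ?_⟩
          · rw [Finset.mem_sdiff]; exact ⟨hEPer p hp x hx, hO⟩
          · rw [hhx]; exact Finset.subset_insert _ _
    · exact ⟨∅, fun h => absurd h hp⟩
  choose Cp hCp using hloc
  -- a neighbour for each clique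
  obtain ⟨fU, hfU⟩ : ∃ fU : Finset V → Finset V, ∀ h, (S.N h).Nonempty →
      ∃ p ∈ S.N h, fU h = h ∩ p := by
    refine ⟨fun h => if hn : (S.N h).Nonempty then h ∩ hn.choose else ∅, fun h hn => ?_⟩
    refine ⟨hn.choose, hn.choose_spec, ?_⟩
    simp only [dif_pos hn]
  obtain ⟨U, hU⟩ : ∃ U, U = S.Un J A B χ := ⟨_, rfl⟩
  have hUmem : ∀ h, h ∈ U ↔ h ∈ S.avoid J (A ∪ B) ∧ ∀ p ∈ S.N h, col χ (h ∩ p) = 0 := by
    intro h
    rw [hU]
    unfold Un
    rw [Finset.mem_filter]
  have hUne : ∀ h ∈ U, (S.N h).Nonempty := by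
    intro h hh
    have h1 := ((S.mem_avoid).1 ((hUmem h).1 hh).1).1
    have h2 := (S.mem_mid.1 h1).2.1
    exact Finset.card_pos.mp (by omega)
  have hNfacet : ∀ h : Finset V, ∀ p ∈ S.N h, (h ∩ p).card + 1 = S.k ∧ h ∩ p ∈ S.EP := by
    intro h p hp
    have h1 := S.mem_N.1 hp
    exact ⟨h1.2, (S.mem_EP h1.2).2 ⟨p, h1.1, Finset.inter_subset_right⟩⟩
  refine ⟨((S.EP \ S.Om J B E χ) ∪ A) ∪ (U.image fU ∪ S.P.biUnion Cp), ?_, ?_, ?_⟩
  · intro g hg
    rw [Finset.mem_union, Finset.mem_union, Finset.mem_union] at hg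
    rcases hg with (hg | hg) | (hg | hg)
    · exact S.card_of_mem_EP (Finset.mem_sdiff.1 hg).1
    · exact hA g hg
    · rw [Finset.mem_image] at hg
      obtain ⟨h, hh, rfl⟩ := hg
      obtain ⟨p, hp, he⟩ := hfU h (hUne h hh)
      rw [he]
      exact (hNfacet h p hp).1
    · rw [Finset.mem_biUnion] at hg
      obtain ⟨p, hp, hg⟩ := hg
      exact (hCp p hp).2.1 g hg
  · intro h hh
    have hin1 : ∀ g, g ∈ S.EP \ S.Om J B E χ → g ⊆ h →
        ∃ g ∈ ((S.EP \ S.Om J B E χ) ∪ A) ∪ (U.image fU ∪ S.P.biUnion Cp), g ⊆ h :=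
      fun g hg hgh => ⟨g, Finset.mem_union_left _ (Finset.mem_union_left _ hg), hgh⟩
    by_cases hP : h ∈ S.P
    · obtain ⟨v, hv, hng⟩ := S.cov_pack hJk hP (χ := χ)
      refine hin1 (h.erase v) ?_ (Finset.erase_subset _ _)
      rw [Finset.mem_sdiff]
      exact ⟨hEPer h hP v hv, fun hO => hng ((hOmem _).1 hO).2⟩
    · have hne := S.exists_nbr hh hP
      by_cases hall : ∀ p ∈ S.N h, h ∩ p ∈ S.Om J B E χ
      · by_cases hc1 : (S.N h).card = 1
        · obtain ⟨p, hp⟩ := Finset.card_eq_one.1 hc1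
          have hpP : p ∈ S.P := S.N_subset h (by rw [hp]; exact Finset.mem_singleton_self p)
          obtain ⟨g, hg, hgh⟩ := (hCp p hpP).2.2 h hh hp
          rcases hg with hg | hg
          · exact hin1 g hg hgh
          · refine ⟨g, ?_, hgh⟩
            exact Finset.mem_union_right _ (Finset.mem_union_right _
              (Finset.mem_biUnion.2 ⟨p, hpP, hg⟩))
        · have hle : (S.N h).card ≤ J := S.cov_many hh (fun p hp => ((hOmem _).1 (hall p hp)).2)
          have hpos : 0 < (S.N h).card := Finset.card_pos.2 hne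
          have hmid : h ∈ S.mid J := S.mem_mid.2 ⟨hh, by omega, hle⟩
          by_cases hAB : ∃ g ∈ A ∪ B, g ⊆ h
          · obtain ⟨g, hg, hgh⟩ := hAB
            rw [Finset.mem_union] at hg
            rcases hg with hg | hg
            · exact ⟨g, Finset.mem_union_left _ (Finset.mem_union_right _ hg), hgh⟩
            · refine hin1 g ?_ hgh
              rw [Finset.mem_sdiff]
              exact ⟨hB hg, fun hO => ((hOmem _).1 hO).1.2 (Finset.mem_union_left _ hg)⟩
          · push Not at hAB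
            have hUh : h ∈ U := by
              rw [hUmem, S.mem_avoid]
              exact ⟨⟨hmid, hAB⟩, fun p hp => ((hOmem _).1 (hall p hp)).2.1⟩
            obtain ⟨p, hp, he⟩ := hfU h hne
            refine ⟨fU h, ?_, ?_⟩
            · exact Finset.mem_union_right _ (Finset.mem_union_left _
                (Finset.mem_image_of_mem _ hUh))
            · rw [he]; exact Finset.inter_subset_left
      · push Not at hall
        obtain ⟨p, hp, hpO⟩ := hall
        refine hin1 (h ∩ p) ?_ Finset.inter_subset_left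
        rw [Finset.mem_sdiff]
        exact ⟨(hNfacet h p hp).2, hpO⟩
  · -- sizes
    have hXsum : ∑ p ∈ S.P, (X p).card ≤ (S.Om J B E χ).card := by
      have h1 : ∀ p ∈ S.P, (X p).card = ((X p).image (fun x => p.erase x)).card := by
        intro p _
        rw [Finset.card_image_of_injOn]
        intro a ha b hb hab
        have ha' : a ∈ p := by
          rw [Finset.mem_coe, hX, Finset.mem_filter] at ha; exact ha.1
        by_contra hne
        have : a ∈ p.erase b := Finset.mem_erase.2 ⟨hne, ha'⟩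
        simp only at hab
        rw [← hab] at this
        exact (Finset.mem_erase.1 this).1 rfl
      rw [Finset.sum_congr rfl h1, ← Finset.card_biUnion]
      · apply Finset.card_le_card
        intro g hg
        rw [Finset.mem_biUnion] at hg
        obtain ⟨p, -, hg⟩ := hg
        rw [Finset.mem_image] at hg
        obtain ⟨x, hx, rfl⟩ := hg
        rw [hX, Finset.mem_filter] at hx
        exact hx.2
      · intro p hp q hq hpq
        refine Finset.disjoint_left.mpr ?_
        intro g hg hg'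
        rw [Finset.mem_image] at hg hg'
        obtain ⟨x, hx, rfl⟩ := hg
        obtain ⟨y, hy, he⟩ := hg'
        rw [hX, Finset.mem_filter] at hx hy
        apply hpq
        refine S.eq_of_facet (g := p.erase x) ?_ hp hq (Finset.erase_subset _ _) ?_
        · exact S.card_of_mem_EP (hEPer p hp x hx.1)
        · rw [← he]; exact Finset.erase_subset _ _
    have hCsum : 2 * (S.P.biUnion Cp).card ≤ (S.Om J B E χ).card + S.P.card := by
      have h1 : (S.P.biUnion Cp).card ≤ ∑ p ∈ S.P, (Cp p).card := Finset.card_biUnion_le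
      have h2 : ∑ p ∈ S.P, 2 * (Cp p).card ≤ ∑ p ∈ S.P, ((X p).card + 1) :=
        Finset.sum_le_sum fun p hp => (hCp p hp).1
      rw [← Finset.mul_sum, Finset.sum_add_distrib, Finset.sum_const, smul_eq_mul, mul_one] at h2
      omega
    have hEPO : (S.EP \ S.Om J B E χ).card + (S.Om J B E χ).card = S.k * S.P.card := by
      rw [← S.card_EP]
      exact Finset.card_sdiff_add_card_eq_card hOE
    have hUi : (U.image fU).card ≤ U.card := Finset.card_image_le
    have hu1 := Finset.card_union_le ((S.EP \ S.Om J B E χ) ∪ A) (U.image fU ∪ S.P.biUnion Cp)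
    have hu2 := Finset.card_union_le (S.EP \ S.Om J B E χ) A
    have hu3 := Finset.card_union_le (U.image fU) (S.P.biUnion Cp)
    rw [← hU]
    have hkP : 2 * S.k * S.P.card = 2 * (S.k * S.P.card) := by ring
    rw [hkP]
    omega

end Pool.Agent.H61.Simp.Setup
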