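/-
SIMP-15.  Random colouring: a cover of size `≤ (k-1) ν`.  MP_1da58b_co, owner helper61.

PROOF.  `E` from `private_structure`.  Sum over all `χ : V → ZMod m` (`n = |V|`, `M = m^n` colourings):
`∑_χ |Om| = ∑_{f ∈ EP \ (B ∪ E)} #{χ | good}` and every term is at least
`M (1/m - C(k-1,J)/m^J) =: M q ≥ 0` (`card_good_ge`, `f.card = k - 1`; `q ≥ 0` by `hmain`); the number of `f` is at least
`(k - 1 - β) ν` (`card_EP`, `|E| ≤ ν`, `|B| ≤ β ν`).
`∑_χ |Un| = ∑_{h ∈ avoid} #{χ | ∀ p ∈ N h, col χ (h ∩ p) = 0}`; with `X = h \ ⋂ ..`, precisely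
`X = (N h).biUnion (fun p => h \ p)`, `|X| = |N h| ≤ J < k`, `h ∩ p = h.erase x_p`, the condition is
`∀ x ∈ X, χ x = col χ h`; `card_forced`: the number is `≤ M / m^|N h|`.
So `∑_χ (|Om| - 2 |Un|) ≥ M ((k-1-β) q - 2u) ν ≥ M (3 + 2α) ν`; some `χ` has
`|Om| ≥ 3ν + 2αν + 2|Un| ≥ 3 ν + 2|A| + 2|Un|`, and `cover` gives `2 |C| ≤ 2 (k - 1) ν`.
-/
import Pool.Agent.H61.Simp.Cover

set_option autoImplicit false

namespace Pool.Agent.H61.Simp.Setup

variable {V : Type} [DecidableEq V] (S : Setup V)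

/-- the number of facets of the packing -/
theorem omit_card_EP : S.EP.card = S.k * S.P.card := by
  unfold EP
  rw [Finset.card_biUnion]
  · have : ∀ p ∈ S.P, (p.image (fun v => p.erase v)).card = S.k := by
      intro p hp
      rw [Finset.card_image_of_injOn, S.card_of_mem_P hp]
      intro a ha b hb hab
      by_contra hne
      have h1 : a ∉ p.erase a := Finset.notMem_erase a p
      have h2 : a ∈ p.erase b := Finset.mem_erase.2 ⟨hne, ha⟩
      have h3 : p.erase a = p.erase b := hab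
      exact h1 (h3 ▸ h2)
    rw [Finset.sum_congr rfl this, Finset.sum_const, smul_eq_mul, mul_comm]
  · intro p hp q hq hne
    rw [Function.onFun, Finset.disjoint_left]
    intro g hg hg'
    rw [Finset.mem_image] at hg hg'
    obtain ⟨v, hv, rfl⟩ := hg
    obtain ⟨w, _, hw⟩ := hg'
    have hc : (p.erase v).card + 1 = S.k := by
      rw [Finset.card_erase_of_mem hv, S.card_of_mem_P hp]
      have : 0 < p.card := Finset.card_pos.2 ⟨v, hv⟩
      rw [S.card_of_mem_P hp] at this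
      omega
    exact hne (S.eq_of_facet hc hp hq (Finset.erase_subset _ _)
      (hw ▸ Finset.erase_subset _ _))

/-- the condition defining `Un` in terms of the set of the missed vertices -/
theorem exists_missed {h : Finset V} (hh : h ∈ S.H) (hN : (S.N h).card < S.k) :
    ∃ X : Finset V, X ⊆ h ∧ X ≠ h ∧ X.card = (S.N h).card ∧
      ∀ {m : ℕ} (χ : V → ZMod m), (∀ p ∈ S.N h, col χ (h ∩ p) = 0) ↔ ∀ x ∈ X, χ x = col χ h := by
  have hk := S.unif h hh
  have hcard : ((S.N h).biUnion (fun p => h \ p)).card = (S.N h).card := by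
    rw [Finset.card_biUnion]
    · rw [Finset.sum_congr rfl (fun p hp => card_sdiff_of_adj hk ((S.mem_N).1 hp).2)]
      simp
    · intro p hp q hq hne
      rw [Function.onFun, Finset.disjoint_left]
      intro x hx hx'
      apply hne
      have hp1 := card_sdiff_of_adj hk ((S.mem_N).1 hp).2
      have hq1 := card_sdiff_of_adj hk ((S.mem_N).1 hq).2
      obtain ⟨a, ha⟩ := Finset.card_eq_one.1 hp1
      obtain ⟨b, hb⟩ := Finset.card_eq_one.1 hq1
      rw [ha, Finset.mem_singleton] at hx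
      rw [hb, Finset.mem_singleton] at hx'
      have h3 : h \ p = h \ q := by rw [ha, hb, ← hx, ← hx']
      apply S.facet_injOn h (Finset.mem_coe.2 hp) (Finset.mem_coe.2 hq)
      show h ∩ p = h ∩ q
      ext y
      have h4 : y ∈ h \ p ↔ y ∈ h \ q := by rw [h3]
      simp only [Finset.mem_sdiff, Finset.mem_inter] at h4 ⊢
      tauto
  refine ⟨(S.N h).biUnion (fun p => h \ p), ?_, ?_, hcard, ?_⟩
  · intro x hx
    rw [Finset.mem_biUnion] at hx
    obtain ⟨p, _, hxp⟩ := hx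
    exact (Finset.mem_sdiff.1 hxp).1
  · intro heq
    rw [heq, hk] at hcard
    omega
  · intro m χ
    have key : ∀ p ∈ S.N h, ∀ x ∈ h \ p, (col χ (h ∩ p) = 0 ↔ χ x = col χ h) := by
      intro p hp x hx
      obtain ⟨a, ha⟩ := Finset.card_eq_one.1 (card_sdiff_of_adj hk ((S.mem_N).1 hp).2)
      have hxa : x = a := by rw [ha, Finset.mem_singleton] at hx; exact hx
      subst hxa
      have h1 : col χ h = col χ (h ∩ p) + χ x := by
        unfold col
        rw [← Finset.sum_inter_add_sum_sdiff h p, ha, Finset.sum_singleton]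
      rw [h1]
      constructor
      · intro h0; rw [h0, zero_add]
      · intro h0
        exact (right_eq_add.1 h0)
    constructor
    · intro hall x hx
      rw [Finset.mem_biUnion] at hx
      obtain ⟨p, hp, hxp⟩ := hx
      exact (key p hp x hxp).1 (hall p hp)
    · intro hall p hp
      obtain ⟨a, ha⟩ := Finset.card_eq_one.1 (card_sdiff_of_adj hk ((S.mem_N).1 hp).2)
      have hap : a ∈ h \ p := by rw [ha]; exact Finset.mem_singleton_self a
      exact (key p hp a hap).2 (hall a (Finset.mem_biUnion.2 ⟨p, hp, hap⟩))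

theorem omit_sum_Om [Fintype V] {m : ℕ} [NeZero m] {J : ℕ} (hJ : 1 ≤ J) (hJk : J + 1 < S.k)
    (B E : Finset (Finset V)) :
    ((S.EP \ (B ∪ E)).card : ℝ) * ((m : ℝ) ^ Fintype.card V *
      (1 / m - ((S.k - 1).choose J : ℝ) / (m : ℝ) ^ J)) ≤
      ∑ χ : V → ZMod m, ((S.Om J B E χ).card : ℝ) := by
  classical
  have h1 : ∑ χ : V → ZMod m, ((S.Om J B E χ).card : ℝ) =
      ∑ f ∈ S.EP \ (B ∪ E),
        ((Finset.univ.filter (fun χ : V → ZMod m => good J χ f)).card : ℝ) := by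
    have h2 : ∀ χ : V → ZMod m, ((S.Om J B E χ).card : ℝ) =
        ∑ f ∈ S.EP \ (B ∪ E), (if good J χ f then (1 : ℝ) else 0) := by
      intro χ
      unfold Om
      rw [Finset.card_filter]
      push_cast
      rfl
    rw [Finset.sum_congr rfl (fun χ _ => h2 χ), Finset.sum_comm]
    refine Finset.sum_congr rfl fun f _ => ?_
    rw [Finset.card_filter]
    push_cast
    rfl
  rw [h1, ← nsmul_eq_mul]
  apply Finset.card_nsmul_le_sum
  intro f hf
  have hfE := (Finset.mem_sdiff.1 hf).1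
  have hfc := S.card_of_mem_EP hfE
  have hfc' : f.card = S.k - 1 := by omega
  have h3 := card_good_ge (m := m) f J hJ (by omega)
  rw [hfc'] at h3
  exact h3

theorem omit_sum_Un [Fintype V] {m : ℕ} [NeZero m] {J : ℕ} (hJk : J + 1 < S.k)
    (A B : Finset (Finset V)) :
    ∑ χ : V → ZMod m, ((S.Un J A B χ).card : ℝ) ≤
      (m : ℝ) ^ Fintype.card V * ∑ h ∈ S.avoid J (A ∪ B), (1 / (m : ℝ)) ^ (S.N h).card := by
  classical
  have hm : (0 : ℝ) < m := by exact_mod_cast Nat.pos_of_ne_zero (NeZero.ne m)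
  have h1 : ∑ χ : V → ZMod m, ((S.Un J A B χ).card : ℝ) =
      ∑ h ∈ S.avoid J (A ∪ B),
        ((Finset.univ.filter
          (fun χ : V → ZMod m => ∀ p ∈ S.N h, col χ (h ∩ p) = 0)).card : ℝ) := by
    have h2 : ∀ χ : V → ZMod m, ((S.Un J A B χ).card : ℝ) =
        ∑ h ∈ S.avoid J (A ∪ B), (if (∀ p ∈ S.N h, col χ (h ∩ p) = 0) then (1 : ℝ) else 0) := by
      intro χ
      unfold Un
      rw [Finset.card_filter]
      push_cast
      rfl
    rw [Finset.sum_congr rfl (fun χ _ => h2 χ), Finset.sum_comm]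
    refine Finset.sum_congr rfl fun f _ => ?_
    rw [Finset.card_filter]
    push_cast
    rfl
  rw [h1, Finset.mul_sum]
  refine Finset.sum_le_sum fun h hh => ?_
  have hmid := (S.mem_avoid.1 hh).1
  have hH : h ∈ S.H := S.mid_subset J hmid
  have hN : (S.N h).card ≤ J := (S.mem_mid.1 hmid).2.2
  obtain ⟨X, hX, hne, hXc, hXiff⟩ := S.exists_missed hH (by omega)
  have h3 : (Finset.univ.filter
      (fun χ : V → ZMod m => ∀ p ∈ S.N h, col χ (h ∩ p) = 0)) =
      Finset.univ.filter (fun χ : V → ZMod m => ∀ x ∈ X, χ x = col χ h) := by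
    apply Finset.filter_congr
    intro χ _
    exact hXiff χ
  rw [h3]
  have h4 := card_forced (m := m) h X hX hne
  rw [hXc] at h4
  have h5 : ((Finset.univ.filter (fun χ : V → ZMod m => ∀ x ∈ X, χ x = col χ h)).card : ℝ) *
      (m : ℝ) ^ (S.N h).card ≤ (m : ℝ) ^ Fintype.card V := by exact_mod_cast h4
  rw [one_div, inv_pow, ← div_eq_mul_inv, le_div_iff₀ (by positivity)]
  exact h5

theorem omit_cover [Fintype V] {m : ℕ} [NeZero m] {J : ℕ} (hJ : 1 ≤ J) (hJk : J + 1 < S.k)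
    (A B : Finset (Finset V)) (hA : ∀ g ∈ A, g.card + 1 = S.k) (hB : B ⊆ S.EP) {α β u : ℝ}
    (hAc : (A.card : ℝ) ≤ α * S.P.card) (hBc : (B.card : ℝ) ≤ β * S.P.card)
    (hβ : β ≤ S.k - 1)
    (hU : ∑ h ∈ S.avoid J (A ∪ B), (1 / (m : ℝ)) ^ (S.N h).card ≤ u * S.P.card)
    (hmain : 3 + 2 * α + 2 * u ≤
      (1 / m - ((S.k - 1).choose J : ℝ) / (m : ℝ) ^ J) * (S.k - 1 - β)) :
    ∃ C : Finset (Finset V), (∀ g ∈ C, g.card + 1 = S.k) ∧ (∀ h ∈ S.H, ∃ g ∈ C, g ⊆ h) ∧
      C.card ≤ (S.k - 1) * S.P.card := by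
  classical
  have hm : (0 : ℝ) < m := by exact_mod_cast Nat.pos_of_ne_zero (NeZero.ne m)
  rcases Nat.eq_zero_or_pos S.P.card with hP0 | hPpos
  · refine ⟨∅, by simp, ?_, by simp⟩
    intro h hh
    exfalso
    have h1 := S.max {h} (by simpa using hh) (by
      intro p hp q hq hadj
      rw [Finset.mem_singleton] at hp hq
      subst hp; subst hq
      unfold adj at hadj
      rw [Finset.inter_self, S.unif _ hh] at hadj
      omega)
    rw [hP0] at h1
    simp at h1
  have hPr : (0 : ℝ) < S.P.card := by exact_mod_cast hPpos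
  set q : ℝ := 1 / m - ((S.k - 1).choose J : ℝ) / (m : ℝ) ^ J with hq
  have hα0 : 0 ≤ α := by
    by_contra hneg
    have : α * S.P.card < 0 := mul_neg_of_neg_of_pos (not_le.1 hneg) hPr
    have h0 : (0 : ℝ) ≤ A.card := Nat.cast_nonneg _
    linarith
  have hu0 : 0 ≤ u := by
    by_contra hneg
    have h1 : u * S.P.card < 0 := mul_neg_of_neg_of_pos (not_le.1 hneg) hPr
    have h0 : (0 : ℝ) ≤ ∑ h ∈ S.avoid J (A ∪ B), (1 / (m : ℝ)) ^ (S.N h).card :=
      Finset.sum_nonneg fun h _ => by positivity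
    linarith
  have hq0 : 0 ≤ q := by
    by_contra hneg
    have h1 : q * (S.k - 1 - β) ≤ 0 :=
      mul_nonpos_of_nonpos_of_nonneg (not_le.1 hneg).le (by linarith)
    linarith
  obtain ⟨E, hE, hEc, hstr⟩ := S.private_structure (by omega)
  -- number of facets
  have hcard : ((S.k : ℝ) - 1 - β) * S.P.card ≤ ((S.EP \ (B ∪ E)).card : ℝ) := by
    have h1 : S.EP.card ≤ (S.EP \ (B ∪ E)).card + (B ∪ E).card := by
      have := Finset.le_card_sdiff (B ∪ E) S.EP
      omega
    have h2 := Finset.card_union_le B E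
    have h3 := S.omit_card_EP
    have h4 : (S.k : ℝ) * S.P.card ≤ ((S.EP \ (B ∪ E)).card : ℝ) + (B.card + E.card) := by
      have : S.k * S.P.card ≤ (S.EP \ (B ∪ E)).card + (B.card + E.card) := by
        rw [← h3]; omega
      exact_mod_cast this
    have h5 : (E.card : ℝ) ≤ S.P.card := by exact_mod_cast hEc
    nlinarith
  have hM : (0 : ℝ) < (m : ℝ) ^ Fintype.card V := by positivity
  have hOm := S.omit_sum_Om (m := m) hJ hJk B E
  have hUn := S.omit_sum_Un (m := m) hJk A B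
  rw [← hq] at hOm
  have hOm' : (m : ℝ) ^ Fintype.card V * (q * ((S.k : ℝ) - 1 - β)) * S.P.card ≤
      ∑ χ : V → ZMod m, ((S.Om J B E χ).card : ℝ) := by
    refine le_trans ?_ hOm
    have h1 : 0 ≤ (m : ℝ) ^ Fintype.card V * q := by positivity
    calc (m : ℝ) ^ Fintype.card V * (q * ((S.k : ℝ) - 1 - β)) * S.P.card
        = (((S.k : ℝ) - 1 - β) * S.P.card) * ((m : ℝ) ^ Fintype.card V * q) := by ring
      _ ≤ _ := mul_le_mul_of_nonneg_right hcard h1
  have hUn' : ∑ χ : V → ZMod m, ((S.Un J A B χ).card : ℝ) ≤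
      (m : ℝ) ^ Fintype.card V * (u * S.P.card) :=
    hUn.trans (mul_le_mul_of_nonneg_left hU hM.le)
  have hcardχ : ((Finset.univ : Finset (V → ZMod m)).card : ℝ) = (m : ℝ) ^ Fintype.card V := by
    rw [Finset.card_univ, Fintype.card_fun, ZMod.card]
    push_cast
    rfl
  obtain ⟨χ, _, hχ⟩ : ∃ χ ∈ (Finset.univ : Finset (V → ZMod m)),
      (3 + 2 * α) * (S.P.card : ℝ) ≤ ((S.Om J B E χ).card : ℝ) - 2 * ((S.Un J A B χ).card : ℝ) := by
    apply Finset.exists_le_of_sum_le Finset.univ_nonempty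
    rw [Finset.sum_const, nsmul_eq_mul, hcardχ, Finset.sum_sub_distrib, ← Finset.mul_sum]
    have h1 : (m : ℝ) ^ Fintype.card V * ((3 + 2 * α + 2 * u) * S.P.card) ≤
        (m : ℝ) ^ Fintype.card V * ((q * (S.k - 1 - β)) * S.P.card) :=
      mul_le_mul_of_nonneg_left (mul_le_mul_of_nonneg_right hmain hPr.le) hM.le
    nlinarith
  obtain ⟨C, hC1, hC2, hC3⟩ := S.cover (m := m) hJ (by omega) A B E hA hB hE hstr χ
  refine ⟨C, hC1, hC2, ?_⟩
  have h1 : 2 * (C.card : ℝ) + ((S.Om J B E χ).card : ℝ) ≤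
      2 * S.k * S.P.card + S.P.card + 2 * A.card + 2 * ((S.Un J A B χ).card : ℝ) := by
    exact_mod_cast hC3
  have h2 : (C.card : ℝ) ≤ ((S.k : ℝ) - 1) * S.P.card := by nlinarith
  have h3 : ((S.k - 1 : ℕ) : ℝ) = (S.k : ℝ) - 1 := by
    rw [Nat.cast_sub (by omega)]; simp
  have h4 : (C.card : ℝ) ≤ (((S.k - 1) * S.P.card : ℕ) : ℝ) := by
    rw [Nat.cast_mul, h3]; exact h2
  exact_mod_cast h4

end Pool.Agent.H61.Simp.Setup
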