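/-
SIMP-16.  Choice of the parameters for large `k`.  MP_1da58b_co, owner helper61.

PROOF.  Fix `s` (for example `s = 2800000`; do not let Lean evaluate `4^s`).  For `k` large let `J` be the
least number with `100 k 5^J ≤ J!`  (exists: `J!/5^J → ∞`), `m = k / 4`, `a = s / (20000 (J+1))`.
`J → ∞` as `k → ∞`.  Minimality: `(J-1)! < 100 k 5^(J-1)`, and `(J-1)! ≥ ((J-1)/e)^(J-1)`
(`Real.pow_div_factorial_le_exp` or similar), so `((J-1)/14)^(J-1) < 100 k` (`5 e < 14`); for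
`J ≥ 29` this gives `2^(J-1) < 100 k`, so `J ≤ log₂ k + 8`.
* `m ≥ k/5` for `k ≥ 20`, `1/m ≥ 4/k`.
* `α = 2000 (J+1) a / s = 1/10`; `β = 2000 J² (log₂ k + 1) 2^s / s ≤ k/200` for `k` large.
* `C(k-1,J)/m^J ≤ (k^J / J!) (5/k)^(J-1) / m = (1/m) k 5^(J-1)/J! ≤ (1/m)/500`.
* `u = (k/(m a))^J * Rst J s * (a/k) ≤ (5/a)^J * 8800 J² 4^s/s * s/(20000 (J+1)) / k
   ≤ (100000 (J+1)/s)^J * J * 4^s / k`, and `k > ((J-1)/14)^(J-1)/100`, `100000/s = 1/28`, so
   `u ≤ 100 * 4^s * J * ((J+1)/28)^J * (14/(J-1))^(J-1) ≤ C(s) J² * 2^(-J) → 0`; so `u ≤ 1/10` for `J` large.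
* `(1/m - C/m^J) (k - 1 - β) ≥ (4/k) (499/500) k (1 - 1/100) ≥ 39/10 ≥ 3 + 2/10 + 2/10`.
-/
import Pool.Agent.H61.Simp.Defs

set_option autoImplicit false

namespace Pool.Agent.H61.Simp

open Filter Topology

namespace ParamsAux

theorem pow_le_factorial (n : ℕ) : (n : ℝ) ^ n ≤ 3 ^ n * (n.factorial : ℝ) := by
  have h1 := Real.pow_div_factorial_le_exp (n : ℝ) (by positivity) n
  have h2 : (0 : ℝ) < n.factorial := by positivity
  rw [div_le_iff₀ h2] at h1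
  refine h1.trans ?_
  apply mul_le_mul_of_nonneg_right _ h2.le
  rw [← Real.exp_one_pow]
  apply pow_le_pow_left₀ (Real.exp_pos 1).le
  have := Real.exp_one_lt_d9
  linarith

theorem exA (c : ℝ) : ∃ J₀ : ℕ, ∀ J : ℕ, J₀ ≤ J →
    20 * c * ((J : ℝ) ^ 2 * (3 / 10) ^ J) ≤ 1 / 10 := by
  have h1 := tendsto_pow_const_mul_const_pow_of_abs_lt_one 2 (r := (3 / 10 : ℝ))
    (by rw [abs_of_pos] <;> norm_num)
  have h2 := h1.const_mul (20 * c)
  rw [mul_zero] at h2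
  have h3 := h2.eventually (gt_mem_nhds (show (0 : ℝ) < 1 / 10 by norm_num))
  obtain ⟨J₀, hJ⟩ := eventually_atTop.mp h3
  exact ⟨J₀, fun J h => (hJ J h).le⟩

theorem exB (K : ℝ) : ∃ L₀ : ℕ, ∀ L : ℕ, L₀ ≤ L → K * ((L : ℝ) + 8) ^ 3 ≤ 2 ^ L := by
  have h1 := tendsto_pow_const_div_const_pow_of_one_lt 3 (r := (2 : ℝ)) (by norm_num)
  have h2 := h1.const_mul (256 * K)
  rw [mul_zero] at h2
  have h3 := h2.eventually (gt_mem_nhds (show (0 : ℝ) < 1 by norm_num))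
  obtain ⟨L₀, hL⟩ := eventually_atTop.mp h3
  refine ⟨L₀, fun L h => ?_⟩
  have h4 := hL (L + 8) (by omega)
  push_cast at h4
  have h5 : (0 : ℝ) < 2 ^ L := by positivity
  have h6 : 256 * K * (((L : ℝ) + 8) ^ 3 / 2 ^ (L + 8)) = K * ((L : ℝ) + 8) ^ 3 / 2 ^ L := by
    rw [pow_add]
    field_simp
    norm_num
    ring
  rw [h6, div_lt_one h5] at h4
  exact h4.le

theorem exJ (k : ℕ) (hk : 1 ≤ k) : ∃ J : ℕ, 100 * k * 5 ^ J ≤ J.factorial := by
  have h1 := FloorSemiring.tendsto_pow_div_factorial_atTop (5 : ℝ)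
  have h2 : (0 : ℝ) < 1 / (100 * k) := by
    have : (0 : ℝ) < k := by exact_mod_cast hk
    positivity
  have h3 := h1.eventually (gt_mem_nhds h2)
  obtain ⟨J, hJ⟩ := h3.exists
  refine ⟨J, ?_⟩
  have h4 : (0 : ℝ) < J.factorial := by positivity
  have h5 : (0 : ℝ) < 100 * k := by
    have : (0 : ℝ) < k := by exact_mod_cast hk
    positivity
  rw [div_lt_div_iff₀ h4 h5] at hJ
  have h6 : (100 * k * 5 ^ J : ℝ) ≤ J.factorial := by linarith
  exact_mod_cast h6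

/-- the final numerical estimate, with everything real. -/
theorem final (k m J : ℕ) (s : ℝ) (c β : ℝ) (hs : s = 10000000) (hc : 0 ≤ c) (hJ : 1000 ≤ J)
    (hk : 1000 ≤ k) (hm : m = k / 4) (hfac : 100 * k * 5 ^ J ≤ J.factorial)
    (hfac' : J * (100 * k * 5 ^ (J - 1)) ≥ J.factorial)
    (hA : 20 * c * ((J : ℝ) ^ 2 * (3 / 10) ^ J) ≤ 1 / 10) (hβ : 200 * β ≤ k) :
    3 + 2 * (2000 * ((J : ℝ) + 1) * (s / (20000 * (J + 1))) / s) +
      2 * (((k : ℝ) / (m * (s / (20000 * (J + 1))))) ^ J *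
        ((8800 * (J : ℝ) ^ 2 * c / s) * ((s / (20000 * (J + 1))) / k))) ≤
      (1 / (m : ℝ) - ((k - 1).choose J : ℝ) / (m : ℝ) ^ J) * ((k : ℝ) - 1 - β) := by
  have hk0 : (1000 : ℝ) ≤ k := by exact_mod_cast hk
  have hkp : (0 : ℝ) < k := by linarith
  have hJ0 : (1000 : ℝ) ≤ J := by exact_mod_cast hJ
  have hJp : (0 : ℝ) < J := by linarith
  have hsp : 0 < s := by rw [hs]; norm_num
  have hm1 : 4 * m ≤ k := by omega
  have hm2 : k ≤ 5 * m := by omega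
  have hm1' : 4 * (m : ℝ) ≤ k := by exact_mod_cast hm1
  have hm2' : (k : ℝ) ≤ 5 * m := by exact_mod_cast hm2
  have hmp : (0 : ℝ) < m := by linarith
  have hfp : (0 : ℝ) < J.factorial := by positivity
  have hf : 100 * (k : ℝ) * 5 ^ J ≤ J.factorial := by exact_mod_cast hfac
  -- first term
  have t1 : 2000 * ((J : ℝ) + 1) * (s / (20000 * (J + 1))) / s = 1 / 10 := by
    field_simp
    norm_num
  -- second term
  have t2 : ((k : ℝ) / (m * (s / (20000 * (J + 1))))) ^ J *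
        ((8800 * (J : ℝ) ^ 2 * c / s) * ((s / (20000 * (J + 1))) / k)) ≤ 1 / 10 := by
    have a1 : (k : ℝ) / (m * (s / (20000 * (J + 1)))) ≤ J / 50 := by
      rw [div_le_iff₀ (by positivity), hs]
      have : (J : ℝ) / 50 * (m * (10000000 / (20000 * (J + 1)))) = 10 * m * (J / (J + 1)) := by
        field_simp
        norm_num
      rw [this]
      have h2 : (1 : ℝ) / 2 ≤ J / (J + 1) := by
        rw [div_le_div_iff₀ (by norm_num) (by linarith)]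
        linarith
      nlinarith
    have a2 : (8800 * (J : ℝ) ^ 2 * c / s) * ((s / (20000 * (J + 1))) / k) ≤ J * c / k := by
      have : (8800 * (J : ℝ) ^ 2 * c / s) * ((s / (20000 * (J + 1))) / k) =
          (J * c / k) * ((8800 / 20000) * (J / (J + 1))) := by
        field_simp
      rw [this]
      have h2 : (J : ℝ) / (J + 1) ≤ 1 := by
        rw [div_le_one (by linarith)]
        linarith
      have h3 : 0 ≤ (J : ℝ) / (J + 1) := by positivity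
      apply mul_le_of_le_one_right (by positivity)
      linarith
    have a3 : 1 / (k : ℝ) ≤ 20 * 5 ^ J * J / J.factorial := by
      rw [div_le_div_iff₀ hkp hfp]
      have h1 : ((J.factorial : ℕ) : ℝ) ≤ J * (100 * k * 5 ^ (J - 1)) := by exact_mod_cast hfac'
      have h2 : (5 : ℝ) ^ J = 5 ^ (J - 1) * 5 := by
        rw [← pow_succ]
        congr 1
        omega
      rw [h2]
      linarith
    have a4 : (J : ℝ) ^ J ≤ 3 ^ J * J.factorial := pow_le_factorial J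
    calc _ ≤ ((J : ℝ) / 50) ^ J * (J * c / k) := by
          apply mul_le_mul _ a2 (by positivity) (by positivity)
          apply pow_le_pow_left₀ (by positivity) a1
      _ = ((J : ℝ) / 50) ^ J * (J * c) * (1 / k) := by ring
      _ ≤ ((J : ℝ) / 50) ^ J * (J * c) * (20 * 5 ^ J * J / J.factorial) := by
          apply mul_le_mul_of_nonneg_left a3 (by positivity)
      _ = 20 * c * J ^ 2 * ((J : ℝ) ^ J * (1 / 10) ^ J / J.factorial) := by
          rw [div_pow, one_div_pow]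
          have : (50 : ℝ) ^ J = 5 ^ J * 10 ^ J := by rw [← mul_pow]; norm_num
          rw [this]
          field_simp
      _ ≤ 20 * c * J ^ 2 * ((3 ^ J * J.factorial) * (1 / 10) ^ J / J.factorial) := by
          gcongr
      _ = 20 * c * (J ^ 2 * (3 / 10) ^ J) := by
          have : (3 / 10 : ℝ) ^ J = 3 ^ J * (1 / 10) ^ J := by rw [← mul_pow]; norm_num
          rw [this]
          field_simp
      _ ≤ 1 / 10 := hA
  -- right side
  have t3 : ((k - 1).choose J : ℝ) / (m : ℝ) ^ J ≤ (1 / m) * (1 / 500) := by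
    have b1 : ((k - 1).choose J : ℝ) ≤ (k : ℝ) ^ J / J.factorial := by
      have := Nat.choose_le_pow_div (α := ℝ) J (k - 1)
      refine this.trans ?_
      gcongr
      omega
    have b2 : (k : ℝ) ^ J ≤ k * (5 * m) ^ (J - 1) := by
      have : (k : ℝ) ^ J = k * k ^ (J - 1) := by
        rw [← pow_succ']
        congr 1
        omega
      rw [this]
      gcongr
    have b3 : (m : ℝ) ^ J = m * m ^ (J - 1) := by
      rw [← pow_succ']
      congr 1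
      omega
    have b4 : (5 : ℝ) ^ J = 5 * 5 ^ (J - 1) := by
      rw [← pow_succ']
      congr 1
      omega
    rw [div_le_iff₀ (by positivity)]
    refine b1.trans ?_
    rw [div_le_iff₀ hfp]
    calc (k : ℝ) ^ J ≤ k * (5 * m) ^ (J - 1) := b2
      _ = (100 * k * 5 ^ J) * ((m : ℝ) ^ (J - 1) / 500) := by
          rw [b4, mul_pow]
          ring
      _ ≤ J.factorial * ((m : ℝ) ^ (J - 1) / 500) := by
          gcongr
      _ = 1 / m * (1 / 500) * m ^ J * J.factorial := by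
          rw [b3]
          field_simp
  have t4 : (499 / 500) * (1 / (m : ℝ)) ≤ 1 / (m : ℝ) - ((k - 1).choose J : ℝ) / (m : ℝ) ^ J := by
    linarith
  have t5 : 4 / (k : ℝ) ≤ 1 / m := by
    rw [div_le_div_iff₀ hkp hmp]
    linarith
  have t6 : (99 / 100) * (k : ℝ) ≤ (k : ℝ) - 1 - β := by linarith
  have t7 : (499 / 500) * (4 / (k : ℝ)) * ((99 / 100) * (k : ℝ)) ≤
      (1 / (m : ℝ) - ((k - 1).choose J : ℝ) / (m : ℝ) ^ J) * ((k : ℝ) - 1 - β) := by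
    apply mul_le_mul _ t6 (by positivity)
    · have : 0 ≤ (499 / 500) * (1 / (m : ℝ)) := by positivity
      linarith
    · linarith
  have t8 : (499 / 500) * (4 / (k : ℝ)) * ((99 / 100) * (k : ℝ)) = 499 / 500 * 4 * (99 / 100) := by
    field_simp
  rw [t8] at t7
  rw [t1]
  linarith

end ParamsAux

open ParamsAux in
theorem params : ∃ k₀ : ℕ, ∀ k : ℕ, k₀ ≤ k → ∃ (J s m : ℕ) (a : ℝ),
    2 ≤ J ∧ 1 ≤ s ∧ 0 < m ∧ 0 < a ∧ a ≤ 1 ∧ J + 1 < k ∧ m ≤ k ∧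
    25 * (J : ℝ) ^ 2 * 4 ^ s ≤ k ∧
    2000 * (J : ℝ) ^ 2 * (Nat.log 2 k + 1) * 2 ^ s / s ≤ (k : ℝ) - 1 ∧
    3 + 2 * (2000 * (J + 1) * a / s) + 2 * (((k : ℝ) / (m * a)) ^ J * (Rst J s * (a / k))) ≤
      (1 / (m : ℝ) - ((k - 1).choose J : ℝ) / (m : ℝ) ^ J) *
        ((k : ℝ) - 1 - 2000 * (J : ℝ) ^ 2 * (Nat.log 2 k + 1) * 2 ^ s / s) := by
  obtain ⟨s, hs1, hs2⟩ : ∃ s : ℕ, (s : ℝ) = 10000000 ∧ 1 ≤ s := ⟨10000000, by norm_num, by norm_num⟩
  obtain ⟨c, hc⟩ : ∃ c : ℝ, c = 4 ^ s := ⟨_, rfl⟩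
  obtain ⟨d, hd⟩ : ∃ d : ℝ, d = 2 ^ s := ⟨_, rfl⟩
  have hc0 : 0 ≤ c := by rw [hc]; positivity
  have hd0 : 0 ≤ d := by rw [hd]; positivity
  obtain ⟨J₀, hJ₀⟩ := exA c
  obtain ⟨L₀, hL₀⟩ := exB (25 * c + 400000 * d + 1000)
  obtain ⟨W, hW⟩ : ∃ W : ℕ, W = 2 ^ L₀ := ⟨_, rfl⟩
  obtain ⟨J₁, hJ₁⟩ : ∃ J₁ : ℕ, J₁ = J₀ + 1001 := ⟨_, rfl⟩
  obtain ⟨G, hG⟩ : ∃ G : ℕ, G = J₁.factorial := ⟨_, rfl⟩
  refine ⟨W + G + 1, ?_⟩
  intro k hk
  have hk1 : 1 ≤ k := by omega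
  have hex := exJ k hk1
  classical
  obtain ⟨J, hJ1, hJ2⟩ : ∃ J : ℕ, 100 * k * 5 ^ J ≤ J.factorial ∧
      ∀ i < J, ¬ 100 * k * 5 ^ i ≤ i.factorial :=
    ⟨Nat.find hex, Nat.find_spec hex, fun i hi => Nat.find_min hex hi⟩
  have hJbig' : J₁ < J := by
    by_contra hcon
    push Not at hcon
    have h1 : J.factorial ≤ G := by rw [hG]; exact Nat.factorial_le hcon
    have h2 : 0 < 5 ^ J := Nat.pow_pos (by norm_num)
    have h3 : 100 * k ≤ 100 * k * 5 ^ J := Nat.le_mul_of_pos_right _ h2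
    have h4 : 100 * k ≤ G := h3.trans (hJ1.trans h1)
    clear * - h4 hk hk1
    omega
  have hJbig : J₀ + 1001 < J := by rw [← hJ₁]; exact hJbig'
  clear hG hJbig' hJ₁
  obtain ⟨j, rfl⟩ : ∃ j, J = j + 1 := ⟨J - 1, by omega⟩
  have hj1 : j.factorial < 100 * k * 5 ^ j := by
    have := hJ2 j (Nat.lt_succ_self j)
    exact Nat.lt_of_not_le this
  -- the logarithm
  obtain ⟨L, hL⟩ : ∃ L, L = Nat.log 2 k := ⟨_, rfl⟩
  have hL1 : L₀ ≤ L := by
    rw [hL]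
    apply Nat.le_log_of_pow_le (by norm_num)
    rw [← hW]
    clear * - hk
    omega
  have hL2 : 2 ^ L ≤ k := by rw [hL]; exact Nat.pow_log_le_self 2 (by omega)
  have hL3 : k < 2 ^ (L + 1) := by rw [hL]; exact Nat.lt_pow_succ_log_self (by norm_num) k
  have hjL : j < L + 8 := by
    have h1 : (j : ℝ) ^ j ≤ 3 ^ j * j.factorial := pow_le_factorial j
    have h2 : (j.factorial : ℝ) ≤ 100 * k * 5 ^ j := by exact_mod_cast hj1.le
    have h3 : (30 : ℝ) ^ j ≤ j ^ j := by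
      apply pow_le_pow_left₀ (by norm_num)
      have : 30 ≤ j := by omega
      exact_mod_cast this
    have h4 : (30 : ℝ) ^ j ≤ 100 * k * 15 ^ j := by
      calc (30 : ℝ) ^ j ≤ 3 ^ j * j.factorial := h3.trans h1
        _ ≤ 3 ^ j * (100 * k * 5 ^ j) := by gcongr
        _ = 100 * k * 15 ^ j := by
            have : (15 : ℝ) ^ j = 3 ^ j * 5 ^ j := by rw [← mul_pow]; norm_num
            rw [this]
            ring
    have h5 : (30 : ℝ) ^ j = 2 ^ j * 15 ^ j := by rw [← mul_pow]; norm_num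
    rw [h5] at h4
    have h6 : (2 : ℝ) ^ j ≤ 100 * k := le_of_mul_le_mul_right h4 (by positivity)
    have h7 : 2 ^ j ≤ 100 * k := by exact_mod_cast h6
    have h8 : 2 ^ j < 2 ^ (L + 8) := by
      have : 2 ^ (L + 8) = 128 * 2 ^ (L + 1) := by rw [pow_add, pow_add]; ring
      rw [this]
      obtain ⟨P, hP⟩ : ∃ P : ℕ, P = 2 ^ (L + 1) := ⟨_, rfl⟩
      obtain ⟨P', hP'⟩ : ∃ P' : ℕ, P' = 2 ^ j := ⟨_, rfl⟩
      rw [← hP] at hL3 ⊢
      rw [← hP'] at h7 ⊢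
      clear * - hL3 h7
      omega
    exact (Nat.pow_lt_pow_iff_right (by norm_num)).mp h8
  have hJL : ((j + 1 : ℕ) : ℝ) ≤ (L : ℝ) + 8 := by exact_mod_cast hjL
  have hB := hL₀ L hL1
  have hL2' : (2 : ℝ) ^ L ≤ k := by exact_mod_cast hL2
  have hLk : (25 * c + 400000 * d + 1000) * ((L : ℝ) + 8) ^ 3 ≤ k := hB.trans hL2'
  have hL8 : (8 : ℝ) ≤ (L : ℝ) + 8 := by
    have : (0 : ℝ) ≤ L := by positivity
    linarith
  have hcub : ((L : ℝ) + 8) ^ 2 ≤ ((L : ℝ) + 8) ^ 3 := by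
    apply pow_le_pow_right₀ (by linarith) (by norm_num)
  have hcub1 : (L : ℝ) + 8 ≤ ((L : ℝ) + 8) ^ 3 := by
    calc (L : ℝ) + 8 = ((L : ℝ) + 8) ^ 1 := (pow_one _).symm
      _ ≤ _ := pow_le_pow_right₀ (by linarith) (by norm_num)
  have hp3 : 0 ≤ ((L : ℝ) + 8) ^ 3 := by positivity
  have hsplit : (25 * c + 400000 * d + 1000) * ((L : ℝ) + 8) ^ 3 =
      25 * c * ((L : ℝ) + 8) ^ 3 + 400000 * d * ((L : ℝ) + 8) ^ 3 + 1000 * ((L : ℝ) + 8) ^ 3 := by
    ring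
  have q1 : 0 ≤ 25 * c * ((L : ℝ) + 8) ^ 3 := by positivity
  have q2 : 0 ≤ 400000 * d * ((L : ℝ) + 8) ^ 3 := by positivity
  rw [hsplit] at hLk
  have hk1000 : (1000 : ℝ) * ((L : ℝ) + 8) ≤ k := by linarith
  have hkk : 1000 ≤ k := by
    have : (1000 : ℝ) ≤ k := by linarith
    exact_mod_cast this
  have hJsq : ((j + 1 : ℕ) : ℝ) ^ 2 ≤ ((L : ℝ) + 8) ^ 2 := by gcongr
  -- beta
  obtain ⟨β, hβ⟩ : ∃ β : ℝ, β = 2000 * ((j + 1 : ℕ) : ℝ) ^ 2 * (L + 1) * d / s := ⟨_, rfl⟩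
  have hs0 : (0 : ℝ) < s := by rw [hs1]; norm_num
  have hβ1 : 200 * β ≤ k := by
    have e1 : β ≤ 2000 * ((j + 1 : ℕ) : ℝ) ^ 2 * (L + 1) * d := by
      rw [hβ]
      apply div_le_self (by positivity)
      rw [hs1]; norm_num
    have e2 : 2000 * ((j + 1 : ℕ) : ℝ) ^ 2 * (L + 1) * d ≤
        2000 * ((L : ℝ) + 8) ^ 2 * ((L : ℝ) + 8) * d := by
      gcongr
      linarith
    have e3 : 2000 * ((L : ℝ) + 8) ^ 2 * ((L : ℝ) + 8) * d = 2000 * d * ((L : ℝ) + 8) ^ 3 := by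
      ring
    linarith
  have hβ2 : β ≤ (k : ℝ) - 1 := by
    have : (1000 : ℝ) ≤ k := by exact_mod_cast hkk
    linarith
  refine ⟨j + 1, s, k / 4, (s : ℝ) / (20000 * (((j + 1 : ℕ) : ℝ) + 1)), by omega, hs2, by omega,
    by positivity, ?_, ?_, Nat.div_le_self _ _, ?_, ?_, ?_⟩
  · rw [div_le_one (by positivity), hs1]
    have : (1000 : ℝ) ≤ ((j + 1 : ℕ) : ℝ) := by exact_mod_cast (by omega : 1000 ≤ j + 1)
    linarith
  · have h1 : ((j + 1 + 1 : ℕ) : ℝ) < k := by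
      push_cast
      push_cast at hJL
      linarith
    exact_mod_cast h1
  · rw [← hc]
    calc 25 * ((j + 1 : ℕ) : ℝ) ^ 2 * c ≤ 25 * ((L : ℝ) + 8) ^ 3 * c := by
          gcongr
          exact hJsq.trans hcub
      _ = 25 * c * ((L : ℝ) + 8) ^ 3 := by ring
      _ ≤ k := by linarith
  · rw [← hd, ← hL, ← hβ]
    exact hβ2
  · rw [← hd, ← hL, ← hβ]
    unfold Rst
    rw [← hc]
    refine final k (k / 4) (j + 1) s c β hs1 hc0 (by omega) hkk rfl hJ1 ?_ ?_ hβ1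
    · have : (j + 1).factorial = (j + 1) * j.factorial := Nat.factorial_succ j
      rw [this]
      simp only [Nat.add_sub_cancel]
      exact Nat.mul_le_mul_left _ hj1.le
    · exact hJ₀ (j + 1) (by omega)

end Pool.Agent.H61.Simp
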