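/-
SIMP-17.  Main theorem: for all large `k`, every `k`-uniform family `H` has a maximum packing `P`
(no two members share `k-1` elements) and a set of at most `(k-1) |P|` sets of size `k-1` meeting
(contained in) every member of `H`.  MP_1da58b_co, owner helper61.
-/
import Pool.Agent.H61.Simp.Clean
import Pool.Agent.H61.Simp.Omit
import Pool.Agent.H61.Simp.Params

set_option autoImplicit false

namespace Pool.Agent.H61.Simp

/-- every uniform family has a setup -/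
theorem exists_setup {V : Type} [DecidableEq V] (k : ℕ) (H : Finset (Finset V))
    (hH : ∀ h ∈ H, h.card = k) : ∃ S : Setup V, S.k = k ∧ S.H = H := by
  classical
  have hne : (H.powerset.filter (fun M => ∀ p ∈ M, ∀ q ∈ M, ¬ adj k p q)).Nonempty :=
    ⟨∅, by simp⟩
  obtain ⟨P, hP, hmax⟩ := Finset.exists_max_image _ Finset.card hne
  rw [Finset.mem_filter, Finset.mem_powerset] at hP
  refine ⟨⟨k, H, P, hH, hP.1, hP.2, ?_⟩, rfl, rfl⟩
  intro M hM hMp
  exact hmax M (by rw [Finset.mem_filter, Finset.mem_powerset]; exact ⟨hM, hMp⟩)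

theorem Setup.cover_large : ∃ k₀ : ℕ, ∀ {V : Type} [Fintype V] [DecidableEq V] (S : Setup V),
    k₀ ≤ S.k → ∃ C : Finset (Finset V), (∀ g ∈ C, g.card + 1 = S.k) ∧
      (∀ h ∈ S.H, ∃ g ∈ C, g ⊆ h) ∧ C.card ≤ (S.k - 1) * S.P.card := by
  obtain ⟨k₀, hk₀⟩ := params
  refine ⟨k₀, ?_⟩
  intro V _ _ S hS
  obtain ⟨J, s, m, a, hJ, hs, hm, ha, ha1, hJk, hmk, hk, hβ, hmain⟩ := hk₀ S.k hS
  obtain ⟨A, B, hA, hB, hAc, hBc, hF⟩ := S.clean hJ hs ha ha1 hk
  have : NeZero m := ⟨hm.ne'⟩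
  have hkpos : (0 : ℝ) < S.k := by
    have : 0 < S.k := by omega
    exact_mod_cast this
  have hmpos : (0 : ℝ) < m := by exact_mod_cast hm
  have hmk' : (m : ℝ) ≤ S.k := by exact_mod_cast hmk
  refine S.omit_cover (by omega) hJk A B hA hB hAc hBc hβ
    (u := ((S.k : ℝ) / (m * a)) ^ J * (Rst J s * (a / S.k))) ?_ hmain
  have h1 : (1 : ℝ) ≤ (S.k : ℝ) / (m * a) := by
    rw [one_le_div (by positivity)]
    calc (m : ℝ) * a ≤ m * 1 := mul_le_mul_of_nonneg_left ha1 hmpos.le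
      _ = m := mul_one _
      _ ≤ _ := hmk'
  have h2 : ∑ h ∈ S.avoid J (A ∪ B), (1 / (m : ℝ)) ^ (S.N h).card ≤
      ((S.k : ℝ) / (m * a)) ^ J * S.Fw (a / S.k) (S.avoid J (A ∪ B)) := by
    unfold Setup.Fw Setup.wt
    rw [Finset.mul_sum]
    refine Finset.sum_le_sum fun h hh => ?_
    have hle : (S.N h).card ≤ J := (S.mem_mid.1 (S.mem_avoid.1 hh).1).2.2
    have h3 : (1 / (m : ℝ)) = (S.k : ℝ) / (m * a) * (a / S.k) := by
      field_simp
    rw [h3, mul_pow]
    exact mul_le_mul_of_nonneg_right (pow_le_pow_right₀ h1 hle) (by positivity)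
  refine h2.trans ?_
  calc ((S.k : ℝ) / (m * a)) ^ J * S.Fw (a / S.k) (S.avoid J (A ∪ B)) ≤
        ((S.k : ℝ) / (m * a)) ^ J * (Rst J s * (a / S.k) * S.P.card) :=
        mul_le_mul_of_nonneg_left hF (by positivity)
    _ = _ := by ring

end Pool.Agent.H61.Simp
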