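/-
SIMP-18.  From covers of the cliques to decompositions of `r`-graphs.  MP_1da58b_co, owner helper61.

PROOF.  `k = r + 1`, `K` = the cliques: the `(r+1)`-sets `T` with `T.powersetCard r ⊆ H`; `S` the setup of
`K` (`exists_setup`), `P = S.P`.  `T.powersetCard r` and `T'.powersetCard r` are disjoint for
`T ≠ T'` in `P` (a common member would have `r` elements and be contained in `T ∩ T'`, so `T`, `T'`
would be adjacent).  `D = P ∪ (H \ P.biUnion (powersetCard r))`; it is a decomposition, and
`|D| = |P| + |H| - (r+1) |P| = |H| - r |P|`.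
Let `C` be a cover of `K` with `|C| ≤ r |P|`.  `H \ C` contains no complete `(r+1)`-set, so
`|H \ C| ≤ ex` (`Finset.le_sup` in `extremalNumber`), `|H| ≤ ex + |C| ≤ ex + r |P|`, so `|D| ≤ ex`.
(`H.IsUniform r` gives `H ⊆ univ.powersetCard r`.)
-/
import Pool.Agent.H61.Simp.Tuza
import Pool.Prelude.Def_F_41d3a0a9

set_option autoImplicit false

namespace Pool.Agent.H61.Simp

theorem decomp_of_cover {r n : ℕ} (hr : 1 ≤ r) (H : Finset (Finset (Fin n)))
    (hH : H.IsUniform r)
    (hcov : ∀ S : Setup (Fin n), S.k = r + 1 →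
      (∀ T : Finset (Fin n), T ∈ S.H ↔ T.card = r + 1 ∧ T.powersetCard r ⊆ H) →
      ∃ C : Finset (Finset (Fin n)), (∀ T ∈ S.H, ∃ g ∈ C, g.card = r ∧ g ⊆ T) ∧
        C.card ≤ r * S.P.card) :
    ∃ D : Finset (Finset (Fin n)), H.IsCompleteHypergraphDecomposition r D ∧
      D.card ≤ Hypergraph.cliqueExtremalNumber n r (r + 1) := by
  classical
  obtain ⟨S, hSk, hSH⟩ := exists_setup (r + 1)
    ((Finset.univ : Finset (Finset (Fin n))).filter
      (fun T => T.card = r + 1 ∧ T.powersetCard r ⊆ H))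
    (fun h hh => (Finset.mem_filter.1 hh).2.1)
  have hmem : ∀ T : Finset (Fin n), T ∈ S.H ↔ T.card = r + 1 ∧ T.powersetCard r ⊆ H := by
    intro T
    rw [hSH, Finset.mem_filter]
    exact ⟨fun h => h.2, fun h => ⟨Finset.mem_univ _, h⟩⟩
  obtain ⟨C, hC, hCc⟩ := hcov S hSk hmem
  have hPmem : ∀ T ∈ S.P, T.card = r + 1 ∧ T.powersetCard r ⊆ H :=
    fun T hT => (hmem T).1 (S.sub hT)
  -- facets of different members of the packing are different
  have hfac : ∀ T ∈ S.P, ∀ T' ∈ S.P, ∀ g ∈ T.powersetCard r, g ∈ T'.powersetCard r → T = T' := by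
    intro T hT T' hT' g hg hg'
    rw [Finset.mem_powersetCard] at hg hg'
    exact S.eq_of_facet (by rw [hSk, hg.2]) hT hT' hg.1 hg'.1
  set U : Finset (Finset (Fin n)) := S.P.biUnion (fun T => T.powersetCard r) with hU
  have hUH : U ⊆ H := by
    intro g hg
    obtain ⟨T, hT, hgT⟩ := Finset.mem_biUnion.1 hg
    exact (hPmem T hT).2 hgT
  have hUc : U.card = (r + 1) * S.P.card := by
    rw [hU, Finset.card_biUnion]
    · rw [Finset.sum_congr rfl (g := fun _ => r + 1), Finset.sum_const, smul_eq_mul, mul_comm]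
      intro T hT
      rw [Finset.card_powersetCard, (hPmem T hT).1]
      exact Nat.choose_succ_self_right r
    · intro T hT T' hT' hne
      refine Finset.disjoint_left.2 fun g hg hg' => ?_
      exact hne (hfac T hT T' hT' g hg hg')
  have hself : ∀ {g T : Finset (Fin n)}, T ∈ H → g ∈ T.powersetCard r → g = T := by
    intro g T hT hg
    rw [Finset.mem_powersetCard] at hg
    exact Finset.eq_of_subset_of_card_le hg.1 (by rw [hg.2, hH T hT])
  refine ⟨S.P ∪ (H \ U), ⟨?_, ?_, ?_⟩, ?_⟩
  · intro T hT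
    rcases Finset.mem_union.1 hT with h | h
    · exact Or.inr (hPmem T h).1
    · exact Or.inl (hH T (Finset.mem_sdiff.1 h).1)
  · ext g
    rw [Finset.mem_biUnion]
    constructor
    · intro hg
      by_cases hgU : g ∈ U
      · obtain ⟨T, hT, hgT⟩ := Finset.mem_biUnion.1 hgU
        exact ⟨T, Finset.mem_union_left _ hT, hgT⟩
      · exact ⟨g, Finset.mem_union_right _ (Finset.mem_sdiff.2 ⟨hg, hgU⟩),
          Finset.mem_powersetCard.2 ⟨Finset.Subset.refl _, hH g hg⟩⟩
    · rintro ⟨T, hT, hgT⟩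
      rcases Finset.mem_union.1 hT with h | h
      · exact (hPmem T h).2 hgT
      · have hTH := (Finset.mem_sdiff.1 h).1
        rw [hself hTH hgT]
        exact hTH
  · intro T hT T' hT' hne
    rw [Finset.mem_coe] at hT hT'
    refine Finset.disjoint_left.2 fun g hg hg' => ?_
    apply hne
    rcases Finset.mem_union.1 hT with h | h
    · rcases Finset.mem_union.1 hT' with h' | h'
      · exact hfac T h T' h' g hg hg'
      · obtain ⟨h1, h2⟩ := Finset.mem_sdiff.1 h'
        have := hself h1 hg'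
        subst this
        exact absurd (Finset.mem_biUnion.2 ⟨T, h, hg⟩) h2
    · obtain ⟨h1, h2⟩ := Finset.mem_sdiff.1 h
      have := hself h1 hg
      subst this
      rcases Finset.mem_union.1 hT' with h' | h'
      · exact absurd (Finset.mem_biUnion.2 ⟨T', h', hg'⟩) h2
      · exact hself (Finset.mem_sdiff.1 h').1 hg'
  · have h1 : (S.P ∪ (H \ U)).card ≤ S.P.card + (H \ U).card := Finset.card_union_le _ _
    have h2 : (H \ U).card + U.card = H.card := Finset.card_sdiff_add_card_eq_card hUH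
    have h3 : (H \ C).card ≤ Hypergraph.cliqueExtremalNumber n r (r + 1) := by
      unfold Hypergraph.cliqueExtremalNumber Hypergraph.extremalNumber
      have hf : ∀ inst : DecidablePred (fun G : Finset (Finset (Fin n)) =>
          ¬ G.ContainsCompleteHypergraph r (r + 1)),
          H \ C ∈ @Finset.filter _ (fun G : Finset (Finset (Fin n)) =>
            ¬ G.ContainsCompleteHypergraph r (r + 1)) inst
            ((Finset.univ : Finset (Fin n)).powersetCard r).powerset ↔
          H \ C ⊆ (Finset.univ : Finset (Fin n)).powersetCard r ∧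
            ¬ (H \ C).ContainsCompleteHypergraph r (r + 1) := by
        intro inst
        rw [Finset.mem_filter, Finset.mem_powerset]
      refine Finset.le_sup (f := Finset.card) ((hf _).2 ⟨?_, ?_⟩)
      · intro e he
        rw [Finset.mem_powersetCard]
        exact ⟨Finset.subset_univ _, hH e (Finset.mem_sdiff.1 he).1⟩
      · rintro ⟨T, hTc, hTs⟩
        obtain ⟨g, hg, hgc, hgT⟩ := hC T ((hmem T).2
          ⟨hTc, fun e he => (Finset.mem_sdiff.1 (hTs he)).1⟩)
        exact (Finset.mem_sdiff.1 (hTs (Finset.mem_powersetCard.2 ⟨hgT, hgc⟩))).2 hg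
    have h4 : H.card ≤ (H \ C).card + C.card := by
      exact Finset.card_le_card_sdiff_add_card
    have h5 : (r + 1) * S.P.card = r * S.P.card + S.P.card := by ring
    omega

theorem erdos_large : ∃ r₀ : ℕ, ∀ r : ℕ, r₀ ≤ r → ∀ (n : ℕ) (H : Finset (Finset (Fin n))),
    H.IsUniform r → ∃ D : Finset (Finset (Fin n)), H.IsCompleteHypergraphDecomposition r D ∧
      D.card ≤ Hypergraph.cliqueExtremalNumber n r (r + 1) := by
  obtain ⟨k₀, hk₀⟩ := Setup.cover_large
  refine ⟨k₀ + 1, ?_⟩
  intro r hr n H hH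
  refine decomp_of_cover (by omega) H hH ?_
  intro S hSk hSH
  obtain ⟨C, hC1, hC2, hC3⟩ := hk₀ S (by omega)
  refine ⟨C, ?_, ?_⟩
  · intro T hT
    obtain ⟨g, hg, hgT⟩ := hC2 T hT
    have := hC1 g hg
    exact ⟨g, hg, by omega, hgT⟩
  · rw [hSk] at hC3
    simpa using hC3

end Pool.Agent.H61.Simp
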